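import Pool.Agent.H99.ADS.DSum

/-!
# The sum in Selberg's sieve is at least a logarithmic sum
-/

set_option autoImplicit false

namespace Pool.Agent.H99.ADS

open Finset

/-- Sum of products of `g` over the subsets of `T` with product at most `Y`. -/
noncomputable def Vt (g : ℕ → ℝ) (T : Finset ℕ) (Y : ℕ) : ℝ :=
  ∑ U ∈ T.powerset.filter (fun U => ∏ q ∈ U, q ≤ Y), ∏ q ∈ U, g q

theorem Vt_nonneg {g : ℕ → ℝ} {T : Finset ℕ} (hg : ∀ q ∈ T, 0 ≤ g q) (Y : ℕ) : 0 ≤ Vt g T Y := by
  refine Finset.sum_nonneg fun U hU => ?_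
  rw [mem_filter, mem_powerset] at hU
  exact Finset.prod_nonneg fun q hq => hg q (hU.1 hq)

theorem Vt_mono {g : ℕ → ℝ} {T : Finset ℕ} (hg : ∀ q ∈ T, 0 ≤ g q) {Y Z : ℕ} (h : Y ≤ Z) :
    Vt g T Y ≤ Vt g T Z := by
  refine Finset.sum_le_sum_of_subset_of_nonneg ?_ ?_
  · intro U hU
    rw [mem_filter] at hU ⊢
    exact ⟨hU.1, hU.2.trans h⟩
  · intro U hU _
    rw [mem_filter, mem_powerset] at hU
    exact Finset.prod_nonneg fun q hq => hg q (hU.1 hq)

theorem Vt_insert (g : ℕ → ℝ) {T : Finset ℕ} {q : ℕ} (hq : 0 < q) (hqT : q ∉ T) (Y : ℕ) :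
    Vt g (insert q T) Y = Vt g T Y + g q * Vt g T (Y / q) := by
  classical
  unfold Vt
  rw [Finset.powerset_insert, Finset.filter_union, Finset.sum_union]
  · congr 1
    rw [Finset.filter_image, Finset.sum_image, Finset.mul_sum]
    · have h1 : T.powerset.filter (fun U => ∏ r ∈ insert q U, r ≤ Y) =
          T.powerset.filter (fun U => ∏ r ∈ U, r ≤ Y / q) := by
        apply Finset.filter_congr
        intro U hU
        rw [mem_powerset] at hU
        rw [Finset.prod_insert (fun h => hqT (hU h)), Nat.le_div_iff_mul_le hq, mul_comm]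
      rw [h1]
      refine Finset.sum_congr rfl fun U hU => ?_
      rw [mem_filter, mem_powerset] at hU
      rw [Finset.prod_insert (fun h => hqT (hU.1 h))]
    · intro U hU U' hU' h
      rw [mem_coe, mem_filter, mem_powerset] at hU hU'
      have h1 := congrArg (fun V : Finset ℕ => V.erase q) h
      rwa [Finset.erase_insert (fun h => hqT (hU.1 h)),
        Finset.erase_insert (fun h => hqT (hU'.1 h))] at h1
  · rw [Finset.disjoint_left]
    intro U hU hU'
    rw [mem_filter, mem_powerset] at hU
    rw [mem_filter, mem_image] at hU'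
    obtain ⟨⟨V, _, rfl⟩, _⟩ := hU'
    exact hqT (hU.1 (mem_insert_self q V))

theorem Ds_insert (f : ℕ → ℝ) {q : ℕ} (hq : q.Prime) (Y : ℕ) :
    Ds f Y = Ds (fun r => if r = q then 0 else f r) Y + f q / q * Ds f (Y / q) := by
  classical
  unfold Ds
  rw [← Finset.sum_filter_add_sum_filter_not (Icc 1 Y) (fun m => q ∣ m)
    (fun m => Fm f m / (m : ℝ)), add_comm]
  congr 1
  · rw [← Finset.sum_filter_add_sum_filter_not (Icc 1 Y) (fun m => q ∣ m)
      (fun m => Fm (fun r => if r = q then 0 else f r) m / (m : ℝ))]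
    have h1 : ∑ m ∈ (Icc 1 Y).filter (fun m => q ∣ m),
        Fm (fun r => if r = q then 0 else f r) m / (m : ℝ) = 0 := by
      refine Finset.sum_eq_zero fun m hm => ?_
      rw [mem_filter, mem_Icc] at hm
      obtain ⟨⟨h1, -⟩, e, rfl⟩ := hm
      have he : e ≠ 0 := by rintro rfl; simp at h1
      rw [Fm_prime_mul _ hq he, if_pos rfl, zero_mul, zero_div]
    rw [h1, zero_add]
    refine Finset.sum_congr rfl fun m hm => ?_
    rw [mem_filter] at hm
    congr 1
    apply Fm_congr
    intro r _ hrm
    rw [if_neg]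
    rintro rfl
    exact hm.2 hrm
  · rw [Finset.mul_sum]
    refine (Finset.sum_bij (fun m _ => q * m) ?_ ?_ ?_ ?_).symm
    · intro m hm
      rw [mem_Icc] at hm
      rw [mem_filter, mem_Icc]
      refine ⟨⟨Nat.mul_pos hq.pos hm.1, ?_⟩, Nat.dvd_mul_right q m⟩
      rw [mul_comm]
      exact (Nat.le_div_iff_mul_le hq.pos).mp hm.2
    · intro a _ b _ h
      exact Nat.eq_of_mul_eq_mul_left hq.pos h
    · intro m hm
      rw [mem_filter, mem_Icc] at hm
      obtain ⟨⟨h1, h2⟩, e, rfl⟩ := hm
      refine ⟨e, ?_, rfl⟩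
      rw [mem_Icc]
      refine ⟨Nat.pos_of_ne_zero (by rintro rfl; simp at h1), ?_⟩
      rw [Nat.le_div_iff_mul_le hq.pos, mul_comm]
      exact h2
    · intro m hm
      rw [mem_Icc] at hm
      rw [Fm_prime_mul f hq (by omega)]
      push_cast
      rw [div_mul_div_comm]

/-- A truncated Euler product is at least the corresponding logarithmic sum. -/
theorem Ds_le_Vt {f g : ℕ → ℝ} (T : Finset ℕ) (hT : ∀ q ∈ T, q.Prime) (hf : ∀ q ∈ T, 0 ≤ f q)
    (hfq : ∀ q ∈ T, f q < q) (hg : ∀ q ∈ T, g q = f q / (q - f q)) (Y : ℕ) (hY : 1 ≤ Y) :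
    Ds (fun q => if q ∈ T then f q else 0) Y ≤ Vt g T Y := by
  classical
  induction T using Finset.induction_on generalizing Y with
  | empty =>
    have h1 : Ds (fun q => if q ∈ (∅ : Finset ℕ) then f q else 0) Y = 1 := by
      simpa using Ds_zero Y hY
    rw [h1]
    unfold Vt
    rw [Finset.powerset_empty, Finset.filter_singleton]
    simp [hY]
  | insert q T hqT ih =>
    have hq : q.Prime := hT q (mem_insert_self q T)
    have hq0 : (0 : ℝ) < q := by exact_mod_cast hq.pos
    have hfq' := hfq q (mem_insert_self q T)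
    have hf' := hf q (mem_insert_self q T)
    have hg' := hg q (mem_insert_self q T)
    have hpos : (0 : ℝ) < q - f q := by linarith
    have hg0 : 0 ≤ g q := by rw [hg']; exact div_nonneg hf' hpos.le
    have ihT := ih (fun r hr => hT r (mem_insert_of_mem hr))
      (fun r hr => hf r (mem_insert_of_mem hr)) (fun r hr => hfq r (mem_insert_of_mem hr))
      (fun r hr => hg r (mem_insert_of_mem hr))
    have hgT : ∀ r ∈ T, 0 ≤ g r := by
      intro r hr
      have h1 := hfq r (mem_insert_of_mem hr)
      rw [hg r (mem_insert_of_mem hr)]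
      exact div_nonneg (hf r (mem_insert_of_mem hr)) (by linarith)
    induction Y using Nat.strong_induction_on with
    | _ Y ihY =>
      rw [Ds_insert _ hq, Vt_insert g hq.pos hqT]
      have h1 : Ds (fun r => if r = q then 0 else (if r ∈ insert q T then f r else 0)) Y =
          Ds (fun r => if r ∈ T then f r else 0) Y := by
        apply Ds_congr
        intro r _ _
        by_cases hr : r = q
        · subst hr; simp [hqT]
        · simp [hr]
      rw [h1, if_pos (mem_insert_self q T)]
      have h2 := ihT Y hY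
      have h3 : f q / q * Ds (fun r => if r ∈ insert q T then f r else 0) (Y / q) ≤
          g q * Vt g T (Y / q) := by
        rcases Nat.eq_zero_or_pos (Y / q) with h0 | h0
        · rw [h0]
          have h4 : Ds (fun r => if r ∈ insert q T then f r else 0) 0 = 0 := by simp [Ds]
          rw [h4, mul_zero]
          exact mul_nonneg hg0 (Vt_nonneg hgT 0)
        · have h4 := ihY (Y / q) (Nat.div_lt_self (by omega) hq.one_lt) h0
          rw [Vt_insert g hq.pos hqT] at h4
          have h5 : Vt g T (Y / q / q) ≤ Vt g T (Y / q) := Vt_mono hgT (Nat.div_le_self _ _)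
          have h6 : 0 ≤ Vt g T (Y / q) := Vt_nonneg hgT _
          have h7 : f q / q * (1 + g q) = g q := by
            rw [hg']
            field_simp
            ring
          calc f q / q * Ds (fun r => if r ∈ insert q T then f r else 0) (Y / q)
              ≤ f q / q * (Vt g T (Y / q) + g q * Vt g T (Y / q)) := by
                apply mul_le_mul_of_nonneg_left _ (div_nonneg hf' hq0.le)
                refine h4.trans ?_
                have := mul_le_mul_of_nonneg_left h5 hg0
                linarith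
            _ = (f q / q * (1 + g q)) * Vt g T (Y / q) := by ring
            _ = g q * Vt g T (Y / q) := by rw [h7]
      linarith

end Pool.Agent.H99.ADS
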