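import Mathlib

/-!
# Selberg's weights

The main term and a crude bound for the error term of Selberg's sieve.
-/

set_option autoImplicit false

namespace Pool.Agent.H99.ADS

open Finset ArithmeticFunction
open scoped ArithmeticFunction.Moebius ArithmeticFunction.zeta

variable (s : BoundingSieve) (R : ℕ)

/-- The divisors of the product of the primes which are at most `R`. -/
noncomputable def Dv : Finset ℕ := s.prodPrimes.divisors.filter (fun l => l ≤ R)

/-- Selberg's sum. -/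
noncomputable def VS : ℝ := ∑ l ∈ Dv s R, s.selbergTerms l

/-- Selberg's weights. -/
noncomputable def wt (d : ℕ) : ℝ :=
  (s.nu d)⁻¹ * ((μ d : ℤ) : ℝ) *
    (∑ l ∈ (Dv s R).filter (fun l => d ∣ l), s.selbergTerms l) / VS s R

variable {s R}

theorem mem_Dv {l : ℕ} : l ∈ Dv s R ↔ l ∣ s.prodPrimes ∧ l ≤ R := by
  unfold Dv
  rw [mem_filter, Nat.mem_divisors]
  exact ⟨fun h => ⟨h.1.1, h.2⟩, fun h => ⟨⟨h.1, BoundingSieve.prodPrimes_ne_zero⟩, h.2⟩⟩

theorem VS_pos (hR : 1 ≤ R) : 0 < VS s R := by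
  unfold VS
  apply Finset.sum_pos
  · intro l hl
    exact BoundingSieve.selbergTerms_pos (mem_Dv.mp hl).1
  · exact ⟨1, mem_Dv.mpr ⟨one_dvd _, hR⟩⟩

theorem sum_moebius_between {P l m : ℕ} (hP : P ≠ 0) (hm : m ∣ P) (hsq : Squarefree m) :
    ∑ d ∈ P.divisors.filter (fun d => l ∣ d ∧ d ∣ m), ((μ d : ℤ) : ℝ) =
      if l = m then ((μ l : ℤ) : ℝ) else 0 := by
  by_cases hlm : l ∣ m
  · obtain ⟨k, rfl⟩ := hlm
    have hl0 : l ≠ 0 := by rintro rfl; simp at hsq
    have hk0 : k ≠ 0 := by rintro rfl; simp at hsq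
    have hcop : Nat.Coprime l k := Nat.coprime_of_squarefree_mul hsq
    have h1 : P.divisors.filter (fun d => l ∣ d ∧ d ∣ l * k) =
        k.divisors.image (fun e => l * e) := by
      ext d
      rw [mem_filter, Nat.mem_divisors, mem_image]
      constructor
      · rintro ⟨⟨-, -⟩, ⟨e, rfl⟩, h3⟩
        exact ⟨e, Nat.mem_divisors.mpr ⟨Nat.dvd_of_mul_dvd_mul_left (Nat.pos_of_ne_zero hl0) h3, hk0⟩,
          rfl⟩
      · rintro ⟨e, he, rfl⟩
        have he' := Nat.dvd_of_mem_divisors he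
        exact ⟨⟨(Nat.mul_dvd_mul_left l he').trans hm, hP⟩, Nat.dvd_mul_right l e,
          Nat.mul_dvd_mul_left l he'⟩
    rw [h1, Finset.sum_image (fun a _ b _ h => Nat.eq_of_mul_eq_mul_left
      (Nat.pos_of_ne_zero hl0) h)]
    have h2 : ∀ e ∈ k.divisors, ((μ (l * e) : ℤ) : ℝ) = ((μ l : ℤ) : ℝ) * ((μ e : ℤ) : ℝ) := by
      intro e he
      have he' := Nat.dvd_of_mem_divisors he
      rw [isMultiplicative_moebius.map_mul_of_coprime (Nat.Coprime.coprime_dvd_right he' hcop)]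
      push_cast
      rfl
    rw [Finset.sum_congr rfl h2, ← Finset.mul_sum]
    have h3 : ∑ e ∈ k.divisors, ((μ e : ℤ) : ℝ) = if k = 1 then 1 else 0 := by
      have h4 : ((μ * (ζ : ArithmeticFunction ℤ)) k : ℤ) = (1 : ArithmeticFunction ℤ) k := by
        rw [moebius_mul_coe_zeta]
      rw [coe_mul_zeta_apply, one_apply] at h4
      have h5 := congrArg (fun z : ℤ => (z : ℝ)) h4
      push_cast at h5
      rw [h5]
    rw [h3]
    by_cases hk : k = 1
    · subst hk; simp
    · rw [if_neg hk, mul_zero, if_neg]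
      intro h
      apply hk
      have : l * k = l * 1 := by rw [mul_one]; exact h.symm
      exact Nat.eq_of_mul_eq_mul_left (Nat.pos_of_ne_zero hl0) this
  · rw [if_neg]
    swap
    · rintro rfl
      exact hlm dvd_rfl
    apply Finset.sum_eq_zero
    intro d hd
    rw [mem_filter] at hd
    exact absurd (hd.2.1.trans hd.2.2) hlm

theorem inner_sum {l : ℕ} :
    ∑ d ∈ s.prodPrimes.divisors, (if l ∣ d then s.nu d * wt s R d else 0) =
      if l ∈ Dv s R then ((μ l : ℤ) : ℝ) * s.selbergTerms l / VS s R else 0 := by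
  have h1 : ∀ d ∈ s.prodPrimes.divisors, (if l ∣ d then s.nu d * wt s R d else 0) =
      ∑ m ∈ Dv s R, (if l ∣ d ∧ d ∣ m then ((μ d : ℤ) : ℝ) * (s.selbergTerms m / VS s R) else 0) := by
    intro d hd
    by_cases hld : l ∣ d
    · rw [if_pos hld]
      have hν : s.nu d ≠ 0 := BoundingSieve.nu_ne_zero (Nat.dvd_of_mem_divisors hd)
      unfold wt
      rw [Finset.sum_filter, ← mul_div_assoc, ← mul_assoc, ← mul_assoc, mul_inv_cancel₀ hν, one_mul,
        Finset.mul_sum, Finset.sum_div]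
      refine Finset.sum_congr rfl fun m _ => ?_
      by_cases hdm : d ∣ m
      · rw [if_pos hdm, if_pos ⟨hld, hdm⟩, mul_div_assoc]
      · rw [if_neg hdm, if_neg (fun h => hdm h.2), mul_zero, zero_div]
    · rw [if_neg hld]
      symm
      apply Finset.sum_eq_zero
      intro m _
      rw [if_neg (fun h => hld h.1)]
  rw [Finset.sum_congr rfl h1, Finset.sum_comm]
  have h2 : ∀ m ∈ Dv s R, ∑ d ∈ s.prodPrimes.divisors,
      (if l ∣ d ∧ d ∣ m then ((μ d : ℤ) : ℝ) * (s.selbergTerms m / VS s R) else 0) =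
      if l = m then ((μ l : ℤ) : ℝ) * s.selbergTerms l / VS s R else 0 := by
    intro m hm
    have hm' := (mem_Dv.mp hm).1
    rw [← Finset.sum_filter, ← Finset.sum_mul, sum_moebius_between BoundingSieve.prodPrimes_ne_zero
      hm' (BoundingSieve.squarefree_of_dvd_prodPrimes hm')]
    by_cases h : l = m
    · subst h
      rw [if_pos rfl, if_pos rfl, mul_div_assoc]
    · rw [if_neg h, if_neg h, zero_mul]
  rw [Finset.sum_congr rfl h2, Finset.sum_ite_eq]

theorem mainSum_wt (hR : 1 ≤ R) :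
    s.mainSum (BoundingSieve.lambdaSquared (wt s R)) = (VS s R)⁻¹ := by
  rw [BoundingSieve.mainSum_lambdaSquared_eq_sum_mul_sum_sq]
  have hV := VS_pos (s := s) hR
  have h1 : ∀ l ∈ s.prodPrimes.divisors, (s.selbergTerms l)⁻¹ *
      (∑ d ∈ s.prodPrimes.divisors, (if l ∣ d then s.nu d * wt s R d else 0)) ^ 2 =
      if l ≤ R then s.selbergTerms l / (VS s R) ^ 2 else 0 := by
    intro l hl
    have hl' := Nat.dvd_of_mem_divisors hl
    rw [inner_sum]
    have hG : s.selbergTerms l ≠ 0 := (BoundingSieve.selbergTerms_pos hl').ne'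
    have hμ : ((μ l : ℤ) : ℝ) ^ 2 = 1 := by
      have h2 := (BoundingSieve.squarefree_of_dvd_prodPrimes hl')
      have h3 : (μ l) ^ 2 = 1 := by
        rw [moebius_sq, if_pos h2]
      exact_mod_cast h3
    by_cases hR' : l ≤ R
    · rw [if_pos (mem_Dv.mpr ⟨hl', hR'⟩), if_pos hR', div_pow, mul_pow, hμ, one_mul]
      field_simp
    · rw [if_neg (fun h => hR' (mem_Dv.mp h).2), if_neg hR']
      ring
  rw [Finset.sum_congr rfl h1, ← Finset.sum_filter, ← Finset.sum_div]
  change VS s R / (VS s R) ^ 2 = _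
  field_simp

theorem wt_one (hR : 1 ≤ R) : wt s R 1 = 1 := by
  have hV := VS_pos (s := s) hR
  unfold wt
  rw [s.nu_mult.map_one, isMultiplicative_moebius.map_one]
  have h1 : (Dv s R).filter (fun l => 1 ∣ l) = Dv s R := by
    apply Finset.filter_true_of_mem
    intro l _
    exact one_dvd l
  rw [h1]
  change _ * VS s R / VS s R = 1
  rw [mul_div_assoc, div_self hV.ne']
  simp

theorem abs_wt_le {d : ℕ} (hd : d ∣ s.prodPrimes) (hR : 1 ≤ R) :
    |wt s R d| ≤ if d ≤ R then (s.nu d)⁻¹ else 0 := by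
  have hV := VS_pos (s := s) hR
  have hν := BoundingSieve.nu_pos_of_dvd_prodPrimes hd
  by_cases hdR : d ≤ R
  · rw [if_pos hdR]
    unfold wt
    rw [abs_div, abs_mul, abs_mul, abs_of_pos hV, abs_of_pos (inv_pos.mpr hν), div_le_iff₀ hV]
    have h0 : 0 ≤ ∑ l ∈ (Dv s R).filter (fun l => d ∣ l), s.selbergTerms l := by
      refine Finset.sum_nonneg fun l hl => ?_
      exact (BoundingSieve.selbergTerms_pos (mem_Dv.mp (mem_filter.mp hl).1).1).le
    have h1 : ∑ l ∈ (Dv s R).filter (fun l => d ∣ l), s.selbergTerms l ≤ VS s R := by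
      refine Finset.sum_le_sum_of_subset_of_nonneg (Finset.filter_subset _ _) fun l hl _ => ?_
      exact (BoundingSieve.selbergTerms_pos (mem_Dv.mp hl).1).le
    have h2 : |((μ d : ℤ) : ℝ)| ≤ 1 := by
      have := abs_moebius_le_one (n := d)
      exact_mod_cast this
    rw [abs_of_nonneg h0]
    have h3 : (s.nu d)⁻¹ * |((μ d : ℤ) : ℝ)| ≤ (s.nu d)⁻¹ :=
      mul_le_of_le_one_right (inv_pos.mpr hν).le h2
    exact mul_le_mul h3 h1 h0 (inv_pos.mpr hν).le
  · rw [if_neg hdR]
    unfold wt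
    have h1 : (Dv s R).filter (fun l => d ∣ l) = ∅ := by
      apply Finset.filter_eq_empty_iff.mpr
      intro l hl hdl
      have h2 := mem_Dv.mp hl
      have h3 : 0 < l := Nat.pos_of_ne_zero
        (BoundingSieve.squarefree_of_dvd_prodPrimes h2.1).ne_zero
      exact hdR ((Nat.le_of_dvd h3 hdl).trans h2.2)
    rw [h1, Finset.sum_empty, mul_zero, zero_div, abs_zero]

/-- Crude bound for the error term. -/
theorem errSum_wt_le (hR : 1 ≤ R) (hrem : ∀ d : ℕ, d ∣ s.prodPrimes → |s.rem d| ≤ d)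
    (hnu : ∀ d : ℕ, d ∣ s.prodPrimes → (s.nu d)⁻¹ ≤ d) :
    s.errSum (BoundingSieve.lambdaSquared (wt s R)) ≤ (R : ℝ) ^ 6 := by
  classical
  set a : ℕ → ℝ := fun d => if d ≤ R then (d : ℝ) ^ 2 else 0 with ha
  have ha0 : ∀ d, 0 ≤ a d := by
    intro d
    simp only [ha]
    split_ifs <;> positivity
  have h1 : ∀ d ∈ s.prodPrimes.divisors,
      |BoundingSieve.lambdaSquared (wt s R) d| * |s.rem d| ≤
        ∑ d1 ∈ Icc 1 R, ∑ d2 ∈ Icc 1 R, if d = Nat.lcm d1 d2 then a d1 * a d2 else 0 := by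
    intro d hd
    have hdP := Nat.dvd_of_mem_divisors hd
    have hd0 : 0 < d := Nat.pos_of_ne_zero (BoundingSieve.squarefree_of_dvd_prodPrimes hdP).ne_zero
    unfold BoundingSieve.lambdaSquared
    refine (mul_le_mul_of_nonneg_left (hrem d hdP) (abs_nonneg _)).trans ?_
    refine (mul_le_mul_of_nonneg_right (Finset.abs_sum_le_sum_abs _ _) (Nat.cast_nonneg d)).trans ?_
    rw [Finset.sum_mul]
    have h2 : ∀ d1 ∈ d.divisors,
        |∑ d2 ∈ d.divisors, if d = Nat.lcm d1 d2 then wt s R d1 * wt s R d2 else 0| * d ≤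
        ∑ d2 ∈ d.divisors, if d = Nat.lcm d1 d2 then a d1 * a d2 else 0 := by
      intro d1 hd1
      have hd1' := Nat.dvd_of_mem_divisors hd1
      refine (mul_le_mul_of_nonneg_right (Finset.abs_sum_le_sum_abs _ _) (Nat.cast_nonneg d)).trans ?_
      rw [Finset.sum_mul]
      refine Finset.sum_le_sum fun d2 hd2 => ?_
      have hd2' := Nat.dvd_of_mem_divisors hd2
      by_cases hlcm : d = Nat.lcm d1 d2
      · rw [if_pos hlcm, if_pos hlcm, abs_mul]
        have h3 := abs_wt_le (s := s) (hd1'.trans hdP) hR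
        have h4 := abs_wt_le (s := s) (hd2'.trans hdP) hR
        by_cases hr1 : d1 ≤ R
        · by_cases hr2 : d2 ≤ R
          · rw [if_pos hr1] at h3
            rw [if_pos hr2] at h4
            have h5 := h3.trans (hnu d1 (hd1'.trans hdP))
            have h6 := h4.trans (hnu d2 (hd2'.trans hdP))
            simp only [ha]
            rw [if_pos hr1, if_pos hr2]
            have h7 : (d : ℝ) ≤ (d1 : ℝ) * d2 := by
              rw [hlcm]
              have h8 : Nat.lcm d1 d2 ≤ d1 * d2 := by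
                apply Nat.le_of_dvd
                · exact Nat.mul_pos (Nat.pos_of_dvd_of_pos hd1' hd0) (Nat.pos_of_dvd_of_pos hd2' hd0)
                · exact Nat.lcm_dvd (Nat.dvd_mul_right _ _) (Nat.dvd_mul_left _ _)
              exact_mod_cast h8
            calc |wt s R d1| * |wt s R d2| * (d : ℝ) ≤ (d1 : ℝ) * d2 * ((d1 : ℝ) * d2) := by
                  apply mul_le_mul _ h7 (Nat.cast_nonneg d) (by positivity)
                  exact mul_le_mul h5 h6 (abs_nonneg _) (Nat.cast_nonneg d1)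
              _ = (d1 : ℝ) ^ 2 * (d2 : ℝ) ^ 2 := by ring
          · rw [if_neg hr2] at h4
            have h5 : |wt s R d2| = 0 := le_antisymm h4 (abs_nonneg _)
            rw [h5, mul_zero, zero_mul]
            exact mul_nonneg (ha0 _) (ha0 _)
        · rw [if_neg hr1] at h3
          have h5 : |wt s R d1| = 0 := le_antisymm h3 (abs_nonneg _)
          rw [h5, zero_mul, zero_mul]
          exact mul_nonneg (ha0 _) (ha0 _)
      · rw [if_neg hlcm, if_neg hlcm, abs_zero, zero_mul]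
    refine (Finset.sum_le_sum h2).trans ?_
    -- restrict to the range up to `R`
    have hterm : ∀ d1 d2 : ℕ, 0 ≤ (if d = Nat.lcm d1 d2 then a d1 * a d2 else 0) := by
      intro d1 d2
      split_ifs
      · exact mul_nonneg (ha0 _) (ha0 _)
      · exact le_rfl
    have hdiv : ∀ e ∈ d.divisors, e ≤ R → e ∈ Icc 1 R := by
      intro e he heR
      rw [mem_Icc]
      exact ⟨Nat.pos_of_mem_divisors he, heR⟩
    have hzero : ∀ e, ¬ e ≤ R → a e = 0 := by
      intro e he
      simp only [ha]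
      rw [if_neg he]
    have h8 : ∀ F : ℕ → ℝ, (∀ e, 0 ≤ F e) → (∀ e, ¬ e ≤ R → F e = 0) →
        ∑ e ∈ d.divisors, F e ≤ ∑ e ∈ Icc 1 R, F e := by
      intro F hF hF0
      rw [← Finset.sum_filter_add_sum_filter_not d.divisors (fun e => e ≤ R)]
      have h9 : ∑ e ∈ d.divisors.filter (fun e => ¬ e ≤ R), F e = 0 :=
        Finset.sum_eq_zero fun e he => hF0 e (mem_filter.mp he).2
      rw [h9, add_zero]
      refine Finset.sum_le_sum_of_subset_of_nonneg ?_ fun e _ _ => hF e
      intro e he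
      rw [mem_filter] at he
      exact hdiv e he.1 he.2
    refine (h8 _ (fun d1 => Finset.sum_nonneg fun d2 _ => hterm d1 d2) ?_).trans ?_
    · intro d1 hd1
      apply Finset.sum_eq_zero
      intro d2 _
      rw [hzero d1 hd1, zero_mul, ite_self]
    · refine Finset.sum_le_sum fun d1 _ => ?_
      refine h8 _ (fun d2 => hterm d1 d2) ?_
      intro d2 hd2
      rw [hzero d2 hd2, mul_zero, ite_self]
  unfold BoundingSieve.errSum
  refine (Finset.sum_le_sum h1).trans ?_
  rw [Finset.sum_comm]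
  have h2 : ∀ d1 ∈ Icc 1 R, ∑ d ∈ s.prodPrimes.divisors,
      ∑ d2 ∈ Icc 1 R, (if d = Nat.lcm d1 d2 then a d1 * a d2 else 0) ≤
      ∑ d2 ∈ Icc 1 R, a d1 * a d2 := by
    intro d1 _
    rw [Finset.sum_comm]
    refine Finset.sum_le_sum fun d2 _ => ?_
    rw [Finset.sum_ite_eq']
    split_ifs
    · exact le_rfl
    · exact mul_nonneg (ha0 _) (ha0 _)
  refine (Finset.sum_le_sum h2).trans ?_
  rw [← Finset.sum_mul_sum]
  have h3 : ∑ e ∈ Icc 1 R, a e ≤ (R : ℝ) ^ 3 := by
    calc ∑ e ∈ Icc 1 R, a e ≤ ∑ e ∈ Icc 1 R, (R : ℝ) ^ 2 := by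
          refine Finset.sum_le_sum fun e he => ?_
          rw [mem_Icc] at he
          simp only [ha]
          rw [if_pos he.2]
          have : (e : ℝ) ≤ R := by exact_mod_cast he.2
          exact pow_le_pow_left₀ (Nat.cast_nonneg e) this 2
      _ = (R : ℝ) ^ 3 := by
          rw [Finset.sum_const, Nat.card_Icc, nsmul_eq_mul, Nat.add_sub_cancel]
          ring
  have h4 : 0 ≤ ∑ e ∈ Icc 1 R, a e := Finset.sum_nonneg fun e _ => ha0 e
  calc (∑ e ∈ Icc 1 R, a e) * (∑ e ∈ Icc 1 R, a e) ≤ (R : ℝ) ^ 3 * (R : ℝ) ^ 3 :=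
        mul_le_mul h3 h3 h4 (by positivity)
    _ = (R : ℝ) ^ 6 := by ring

/-- **Selberg's sieve** with a crude error term. -/
theorem siftedSum_le (hR : 1 ≤ R) (hrem : ∀ d : ℕ, d ∣ s.prodPrimes → |s.rem d| ≤ d)
    (hnu : ∀ d : ℕ, d ∣ s.prodPrimes → (s.nu d)⁻¹ ≤ d) :
    s.siftedSum ≤ s.totalMass * (VS s R)⁻¹ + (R : ℝ) ^ 6 := by
  have h1 := BoundingSieve.siftedSum_le_mainSum_errSum_of_upperMoebius (s := s)
    (BoundingSieve.lambdaSquared (wt s R))
    (BoundingSieve.upperMoebius_lambdaSquared _ (wt_one hR))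
  rw [mainSum_wt hR] at h1
  linarith [errSum_wt_le (s := s) hR hrem hnu]

end Pool.Agent.H99.ADS
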