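import Pool.Agent.H99.ADS.Crt
import Pool.Agent.H99.ADS.Euler
import Pool.Agent.H99.ADS.Selberg

/-!
# Selberg's sieve for residue classes
-/

set_option autoImplicit false

namespace Pool.Agent.H99.ADS

open Finset

section Setup

variable (ps : Finset ℕ) (bad : ℕ → ℕ → Prop) (w : ℕ → ℕ) (X : ℕ)

open Classical in
/-- The product of the primes for which `m` is bad. -/
noncomputable def Nm (m : ℕ) : ℕ := ∏ q ∈ ps.filter (fun q => bad q m), q

open Classical in
/-- The sieve of the residue classes. -/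
noncomputable def sv (h : Classes ps bad w) (hw1 : ∀ q ∈ ps, 1 ≤ w q) (hw2 : ∀ q ∈ ps, w q < q) :
    BoundingSieve where
  support := (∏ q ∈ ps, q).divisors
  prodPrimes := ∏ q ∈ ps, q
  prodPrimes_squarefree := by
    refine Finset.squarefree_prod_of_pairwise_isCoprime (fun a ha b hb hab => ?_)
      (fun q hq => (h.prime q hq).squarefree)
    rw [Function.onFun]
    exact Nat.coprime_iff_isRelPrime.mp
      ((Nat.coprime_primes (h.prime a ha) (h.prime b hb)).mpr hab)
  weights := fun k => (((Icc 1 X).filter (fun m => Nm ps bad m = k)).card : ℝ)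
  weights_nonneg := fun _ => Nat.cast_nonneg _
  totalMass := X
  nu := ArithmeticFunction.prodPrimeFactors (fun q => (w q : ℝ) / q)
  nu_mult := ArithmeticFunction.IsMultiplicative.prodPrimeFactors _
  nu_pos_of_prime := by
    intro p hp hpd
    rw [ArithmeticFunction.prodPrimeFactors_apply hp.ne_zero, hp.primeFactors, prod_singleton]
    have hmem : p ∈ ps := by
      obtain ⟨q, hq, hpq⟩ := (Prime.dvd_finsetProd_iff hp.prime _).mp hpd
      rwa [(Nat.prime_dvd_prime_iff_eq hp (h.prime q hq)).mp hpq]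
    have h1 : (0 : ℝ) < w p := by exact_mod_cast hw1 p hmem
    have h2 : (0 : ℝ) < p := by exact_mod_cast hp.pos
    positivity
  nu_lt_one_of_prime := by
    intro p hp hpd
    rw [ArithmeticFunction.prodPrimeFactors_apply hp.ne_zero, hp.primeFactors, prod_singleton]
    have hmem : p ∈ ps := by
      obtain ⟨q, hq, hpq⟩ := (Prime.dvd_finsetProd_iff hp.prime _).mp hpd
      rwa [(Nat.prime_dvd_prime_iff_eq hp (h.prime q hq)).mp hpq]
    have h2 : (0 : ℝ) < p := by exact_mod_cast hp.pos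
    rw [div_lt_one h2]
    exact_mod_cast hw2 p hmem

end Setup

variable {ps : Finset ℕ} {bad : ℕ → ℕ → Prop} {w : ℕ → ℕ} {X R : ℕ}

theorem primeFactors_prod_subset (h : Classes ps bad w) {T : Finset ℕ} (hT : T ⊆ ps) :
    (∏ q ∈ T, q).primeFactors = T := Nat.primeFactors_prod fun q hq => h.prime q (hT hq)

theorem prod_ne_zero' (h : Classes ps bad w) {T : Finset ℕ} (hT : T ⊆ ps) :
    (∏ q ∈ T, q) ≠ 0 := Finset.prod_ne_zero_iff.mpr fun q hq => (h.prime q (hT hq)).ne_zero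

theorem nu_prod (h : Classes ps bad w) (hw1 : ∀ q ∈ ps, 1 ≤ w q) (hw2 : ∀ q ∈ ps, w q < q)
    {T : Finset ℕ} (hT : T ⊆ ps) :
    (sv ps bad w X h hw1 hw2).nu (∏ q ∈ T, q) = ∏ q ∈ T, (w q : ℝ) / q := by
  change (ArithmeticFunction.prodPrimeFactors (fun q => (w q : ℝ) / q)) _ = _
  rw [ArithmeticFunction.prodPrimeFactors_apply (prod_ne_zero' h hT), primeFactors_prod_subset h hT]

theorem eq_prod_of_dvd (h : Classes ps bad w) (hw1 : ∀ q ∈ ps, 1 ≤ w q) (hw2 : ∀ q ∈ ps, w q < q)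
    {d : ℕ} (hd : d ∣ (sv ps bad w X h hw1 hw2).prodPrimes) :
    d.primeFactors ⊆ ps ∧ d = ∏ q ∈ d.primeFactors, q := by
  have hsq := BoundingSieve.squarefree_of_dvd_prodPrimes hd
  refine ⟨?_, (Nat.prod_primeFactors_of_squarefree hsq).symm⟩
  have h1 := Nat.primeFactors_mono hd (BoundingSieve.prodPrimes_ne_zero)
  have h2 : (sv ps bad w X h hw1 hw2).prodPrimes = ∏ q ∈ ps, q := rfl
  rw [h2, primeFactors_prod_subset h (Finset.Subset.refl ps)] at h1
  exact h1

theorem Vt_le_VS (h : Classes ps bad w) (hw1 : ∀ q ∈ ps, 1 ≤ w q) (hw2 : ∀ q ∈ ps, w q < q) :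
    Vt (fun q => (w q : ℝ) / (q - w q)) ps R ≤ VS (sv ps bad w X h hw1 hw2) R := by
  classical
  unfold Vt VS
  have hinj : Set.InjOn (fun U : Finset ℕ => ∏ q ∈ U, q)
      (ps.powerset.filter (fun U => ∏ q ∈ U, q ≤ R) : Set (Finset ℕ)) := by
    intro U hU U' hU' hUU
    rw [mem_coe, mem_filter, mem_powerset] at hU hU'
    have h1 := congrArg Nat.primeFactors hUU
    simp only at h1
    rwa [primeFactors_prod_subset h hU.1, primeFactors_prod_subset h hU'.1] at h1
  have h1 : ∀ U ∈ ps.powerset.filter (fun U => ∏ q ∈ U, q ≤ R),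
      ∏ q ∈ U, (w q : ℝ) / (q - w q) =
        (sv ps bad w X h hw1 hw2).selbergTerms (∏ q ∈ U, q) := by
    intro U hU
    rw [mem_filter, mem_powerset] at hU
    rw [BoundingSieve.selbergTerms_apply, nu_prod h hw1 hw2 hU.1, primeFactors_prod_subset h hU.1,
      ← Finset.prod_mul_distrib]
    refine Finset.prod_congr rfl fun q hq => ?_
    have h2 := nu_prod (X := X) h hw1 hw2 (T := {q}) (Finset.singleton_subset_iff.mpr (hU.1 hq))
    rw [prod_singleton, prod_singleton] at h2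
    rw [h2]
    have h3 : (w q : ℝ) < q := by exact_mod_cast hw2 q (hU.1 hq)
    have h4 : (0 : ℝ) < q := by exact_mod_cast (h.prime q (hU.1 hq)).pos
    have h5 : (q : ℝ) - w q ≠ 0 := by linarith
    have h6 : 1 - (w q : ℝ) / q = (q - w q) / q := by field_simp
    rw [h6, inv_div]
    field_simp
  rw [Finset.sum_congr rfl h1,
    ← Finset.sum_image (f := fun l => (sv ps bad w X h hw1 hw2).selbergTerms l) hinj]
  refine Finset.sum_le_sum_of_subset_of_nonneg ?_ ?_
  · intro l hl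
    rw [mem_image] at hl
    obtain ⟨U, hU, rfl⟩ := hl
    rw [mem_filter, mem_powerset] at hU
    exact mem_Dv.mpr ⟨Finset.prod_dvd_prod_of_subset _ _ _ hU.1, hU.2⟩
  · intro l hl _
    exact (BoundingSieve.selbergTerms_pos (mem_Dv.mp hl).1).le

theorem multSum_eq (h : Classes ps bad w) (hw1 : ∀ q ∈ ps, 1 ≤ w q) (hw2 : ∀ q ∈ ps, w q < q)
    {T : Finset ℕ} (hT : T ⊆ ps) : by
    classical
    exact (sv ps bad w X h hw1 hw2).multSum (∏ q ∈ T, q) =
      (((Icc 1 X).filter (fun m => ∀ q ∈ T, bad q m)).card : ℝ) := by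
  classical
  unfold BoundingSieve.multSum
  change ∑ k ∈ (∏ q ∈ ps, q).divisors, (if (∏ q ∈ T, q) ∣ k then
    (((Icc 1 X).filter (fun m => Nm ps bad m = k)).card : ℝ) else 0) = _
  have h1 : ∀ k ∈ (∏ q ∈ ps, q).divisors, (if (∏ q ∈ T, q) ∣ k then
      (((Icc 1 X).filter (fun m => Nm ps bad m = k)).card : ℝ) else 0) =
      ((((Icc 1 X).filter (fun m => (∏ q ∈ T, q) ∣ Nm ps bad m)).filter
        (fun m => Nm ps bad m = k)).card : ℝ) := by
    intro k _
    rw [Finset.filter_filter]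
    by_cases hk : (∏ q ∈ T, q) ∣ k
    · rw [if_pos hk]
      congr 2
      apply Finset.filter_congr
      intro m _
      constructor
      · intro h; exact ⟨h ▸ hk, h⟩
      · intro h; exact h.2
    · rw [if_neg hk]
      symm
      rw [Nat.cast_eq_zero, Finset.card_eq_zero, Finset.filter_eq_empty_iff]
      rintro m _ ⟨h2, rfl⟩
      exact hk h2
  rw [Finset.sum_congr rfl h1, ← Nat.cast_sum, ← Finset.card_eq_sum_card_fiberwise]
  · congr 2
    apply Finset.filter_congr
    intro m _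
    constructor
    · intro h2 q hq
      have h3 : q ∣ Nm ps bad m := (Finset.dvd_prod_of_mem _ hq).trans h2
      unfold Nm at h3
      obtain ⟨r, hr, hqr⟩ := (Prime.dvd_finsetProd_iff (h.prime q (hT hq)).prime _).mp h3
      rw [mem_filter] at hr
      rw [(Nat.prime_dvd_prime_iff_eq (h.prime q (hT hq)) (h.prime r hr.1)).mp hqr]
      exact hr.2
    · intro h2
      unfold Nm
      apply Finset.prod_dvd_prod_of_subset
      intro q hq
      rw [mem_filter]
      exact ⟨hT hq, h2 q hq⟩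
  · intro m _
    rw [mem_coe, Nat.mem_divisors]
    exact ⟨Finset.prod_dvd_prod_of_subset _ _ _ (Finset.filter_subset _ _),
      prod_ne_zero' h (Finset.Subset.refl ps)⟩

theorem rem_le (h : Classes ps bad w) (hw1 : ∀ q ∈ ps, 1 ≤ w q) (hw2 : ∀ q ∈ ps, w q < q)
    {d : ℕ} (hd : d ∣ (sv ps bad w X h hw1 hw2).prodPrimes) :
    |(sv ps bad w X h hw1 hw2).rem d| ≤ d := by
  classical
  obtain ⟨hT, hdT⟩ := eq_prod_of_dvd h hw1 hw2 hd
  set T := d.primeFactors with hTd
  unfold BoundingSieve.rem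
  rw [hdT, multSum_eq h hw1 hw2 hT, nu_prod h hw1 hw2 hT]
  change |_ - _ * (X : ℝ)| ≤ _
  have hper : ∀ m, (fun m => ∀ q ∈ T, bad q m) (m % (∏ q ∈ T, q)) ↔
      (fun m => ∀ q ∈ T, bad q m) m := by
    intro m
    constructor
    · intro h1 r hr
      have h2 := h1 r hr
      rw [← h.per r (hT hr), Nat.mod_mod_of_dvd m (Finset.dvd_prod_of_mem _ hr),
        h.per r (hT hr)] at h2
      exact h2
    · intro h1 r hr
      rw [← h.per r (hT hr), Nat.mod_mod_of_dvd m (Finset.dvd_prod_of_mem _ hr),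
        h.per r (hT hr)]
      exact h1 r hr
  have h1 := card_periodic (Nat.pos_of_ne_zero (prod_ne_zero' h hT))
    (fun m => ∀ q ∈ T, bad q m) hper X
  have h2 := card_bad h T hT
  have h3 : (((range (∏ q ∈ T, q)).filter (fun m => ∀ q ∈ T, bad q m)).card : ℝ) =
      ∏ q ∈ T, (w q : ℝ) := by
    rw [← Nat.cast_prod, ← h2]
  have h4 : (∏ q ∈ T, (w q : ℝ)) / ((∏ q ∈ T, q : ℕ) : ℝ) = ∏ q ∈ T, (w q : ℝ) / q := by
    rw [Nat.cast_prod, Finset.prod_div_distrib]
  have h5 : ∏ q ∈ T, (w q : ℝ) ≤ ((∏ q ∈ T, q : ℕ) : ℝ) := by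
    rw [Nat.cast_prod]
    refine Finset.prod_le_prod (fun q _ => Nat.cast_nonneg _) fun q hq => ?_
    exact_mod_cast (hw2 q (hT hq)).le
  refine le_trans ?_ h5
  rw [← h4, ← h3]
  refine le_trans (le_of_eq ?_) (h1.trans (le_of_eq ?_))
  · congr!
  · congr!

theorem inv_nu_le (h : Classes ps bad w) (hw1 : ∀ q ∈ ps, 1 ≤ w q) (hw2 : ∀ q ∈ ps, w q < q)
    {d : ℕ} (hd : d ∣ (sv ps bad w X h hw1 hw2).prodPrimes) :
    ((sv ps bad w X h hw1 hw2).nu d)⁻¹ ≤ d := by
  obtain ⟨hT, hdT⟩ := eq_prod_of_dvd h hw1 hw2 hd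
  set T := d.primeFactors with hTd
  rw [hdT, nu_prod h hw1 hw2 hT, ← Finset.prod_inv_distrib, Nat.cast_prod]
  refine Finset.prod_le_prod (fun q _ => by positivity) fun q hq => ?_
  have h1 : (1 : ℝ) ≤ w q := by exact_mod_cast hw1 q (hT hq)
  rw [inv_div]
  exact div_le_self (Nat.cast_nonneg q) h1

open Classical in
/-- **Selberg's sieve for residue classes.** -/
theorem sieve_bound (h : Classes ps bad w) (hw1 : ∀ q ∈ ps, 1 ≤ w q) (hw2 : ∀ q ∈ ps, w q < q)
    (X : ℕ) {R : ℕ} (hR : 1 ≤ R) :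
    (((Icc 1 X).filter (fun m => ∀ q ∈ ps, ¬ bad q m)).card : ℝ) ≤
      X / Ds (fun q => if q ∈ ps then (w q : ℝ) else 0) R + (R : ℝ) ^ 6 := by
  set s := sv ps bad w X h hw1 hw2 with hs
  have h1 := siftedSum_le (s := s) hR (fun d hd => rem_le h hw1 hw2 hd)
    (fun d hd => inv_nu_le h hw1 hw2 hd)
  have h2 : (((Icc 1 X).filter (fun m => ∀ q ∈ ps, ¬ bad q m)).card : ℝ) ≤ s.siftedSum := by
    unfold BoundingSieve.siftedSum
    have h3 : (1 : ℕ) ∈ s.support := by
      change 1 ∈ (∏ q ∈ ps, q).divisors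
      rw [Nat.mem_divisors]
      exact ⟨one_dvd _, prod_ne_zero' h (Finset.Subset.refl ps)⟩
    refine le_trans ?_ (Finset.single_le_sum (f := fun d => if Nat.Coprime s.prodPrimes d then
      s.weights d else 0) ?_ h3)
    · simp only [Nat.coprime_one_right_eq_true, if_true]
      change _ ≤ (((Icc 1 X).filter (fun m => Nm ps bad m = 1)).card : ℝ)
      apply Nat.cast_le.mpr
      apply Finset.card_le_card
      intro m hm
      rw [mem_filter] at hm ⊢
      refine ⟨hm.1, ?_⟩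
      unfold Nm
      rw [Finset.filter_eq_empty_iff.mpr (fun {q} hq => hm.2 q hq), Finset.prod_empty]
    · intro d _
      split_ifs
      · exact s.weights_nonneg d
      · exact le_rfl
  have h3 : Ds (fun q => if q ∈ ps then (w q : ℝ) else 0) R ≤ VS s R := by
    refine le_trans ?_ (Vt_le_VS (R := R) (X := X) h hw1 hw2)
    exact Ds_le_Vt (f := fun q => (w q : ℝ)) (g := fun q => (w q : ℝ) / (q - w q)) ps h.prime
      (fun q _ => Nat.cast_nonneg _) (fun q hq => by exact_mod_cast hw2 q hq) (fun _ _ => rfl) R hR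
  have h4 : 0 < Ds (fun q => if q ∈ ps then (w q : ℝ) else 0) R := by
    refine lt_of_lt_of_le zero_lt_one (one_le_Ds ?_ hR)
    intro q _
    split_ifs
    · exact Nat.cast_nonneg _
    · exact le_rfl
  have h5 : s.totalMass * (VS s R)⁻¹ ≤ X / Ds (fun q => if q ∈ ps then (w q : ℝ) else 0) R := by
    change (X : ℝ) * (VS s R)⁻¹ ≤ _
    rw [div_eq_mul_inv]
    exact mul_le_mul_of_nonneg_left (inv_anti₀ h4 h3) (Nat.cast_nonneg X)
  linarith

end Pool.Agent.H99.ADS
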