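import Mathlib

/-!
# Excluded pairs of prime divisors for abelian affine difference sets: definitions
-/

set_option autoImplicit false

namespace Pool.Agent.H99.ADS

/-- `D` is an affine difference set of order `n` in the finite abelian group `G` relative to the
subgroup `N`. -/
structure Affine {G : Type} [AddCommGroup G] [Fintype G] [DecidableEq G]
    (n : ℕ) (N : AddSubgroup G) (D : Finset G) : Prop where
  two_le : 2 ≤ n
  card_group : Nat.card G = n ^ 2 - 1
  card_sub : Nat.card N = n - 1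
  card_set : D.card = n
  hit : ∀ g : G, g ∉ N → ((D ×ˢ D).filter (fun p => p.1 - p.2 = g)).card = 1
  miss : ∀ g : G, g ∈ N → g ≠ 0 → ((D ×ˢ D).filter (fun p => p.1 - p.2 = g)).card = 0

/-- There is an abelian affine difference set of order `n`. -/
def Order (n : ℕ) : Prop :=
  ∃ (G : Type) (_ : AddCommGroup G) (_ : Fintype G) (_ : DecidableEq G) (N : AddSubgroup G)
    (D : Finset G), Affine n N D

/-- `t` is a product of a power of `q` and a power of `p`. -/
def Gen (q p t : ℕ) : Prop := ∃ i j : ℕ, t = q ^ i * p ^ j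

/-- Numbers that are not divisible by the exponent of the group if `2 p` divides the order. -/
def DeadEven (p A : ℕ) : Prop :=
  ¬ 3 ∣ A ∨ ∃ c i : ℕ, (c = 2 ∨ c = 4 ∨ c = 6 ∨ c = 8) ∧ A ∣ (2 * p) ^ i * (2 ^ c - 1)

/-- Numbers that are not divisible by the exponent of the group if the order is odd and divisible
by `q p`. -/
def DeadOdd (q p A : ℕ) : Prop :=
  ¬ 8 ∣ A ∨ ∃ V w u i : ℕ, w.Prime ∧ w ≠ 2 ∧ A ∣ (q * p) ^ i * (2 ^ V * w ^ u) ∧
    2 ^ V + 2 < 2 * (q * p)

/-- One four-term relation excludes even orders divisible by `2 p`. -/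
def ExclEven (p : ℕ) : Prop :=
  ∃ x y z w : ℕ, Gen 2 p x ∧ Gen 2 p y ∧ Gen 2 p z ∧ Gen 2 p w ∧ x + w = y + z ∧ y < x ∧ z < x ∧
    DeadEven p (x - y) ∧ DeadEven p (x - z)

/-- One four-term relation excludes odd orders divisible by `q p`. -/
def ExclOdd (q p : ℕ) : Prop :=
  ∃ x y z w : ℕ, Gen q p x ∧ Gen q p y ∧ Gen q p z ∧ Gen q p w ∧ x + w = y + z ∧ y < x ∧ z < x ∧
    DeadOdd q p (x - y) ∧ DeadOdd q p (x - z)

/-- The excluded pairs. -/
def Excluded (q p : ℕ) : Prop :=
  (q = 2 ∧ ExclEven p) ∨ (q % 2 = 1 ∧ p % 2 = 1 ∧ ExclOdd q p ∧ (ExclEven q ∨ ExclEven p))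

/-- A table of excluded pairs. -/
def table : List (ℕ × List ℕ) :=
  [(2, [23, 43, 67, 71, 73, 79, 97, 113, 127, 131, 191, 193, 241, 257, 263, 271, 383, 449, 509,
    769, 1009, 1021, 2017, 2063, 2111]),
   (3, [41, 53, 61, 73, 79, 83, 89, 107, 163, 241, 251, 269, 487, 727, 757, 1093]),
   (5, [7, 31, 101, 149, 521, 601]),
   (7, [13, 19, 43, 97, 337, 349]),
   (11, [61]),
   (13, [47, 157]),
   (17, [307, 577]),
   (19, [37, 181]),
   (29, [421]),
   (31, [61]),
   (37, [73])]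

end Pool.Agent.H99.ADS
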