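import Pool.Agent.H99.ADS.Odd
import Pool.Agent.H99.ADS.Spec

/-!
# Excluded pairs of prime divisors of the order
-/

set_option autoImplicit false

namespace Pool.Agent.H99.ADS

open Finset Pool.Agent.H27.ADS

variable {G : Type} [AddCommGroup G] [Fintype G] [DecidableEq G]
variable {n : ℕ} {N : AddSubgroup G} {D : Finset G}

theorem Gen.adm {n q p t : ℕ} (hq : Adm n q) (hp : Adm n p) (h : Gen q p t) : Adm n t := by
  obtain ⟨i, j, rfl⟩ := h
  exact (hq.pow i).mul (hp.pow j)

theorem exponent_coprime (h : IsADS n N D) {t : ℕ} (ht : Adm n t) :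
    Nat.Coprime (AddMonoid.exponent G) t := by
  rw [Nat.coprime_comm]
  exact Nat.Coprime.coprime_dvd_right (exponent_dvd h) (h.card_coprime ht.2)

theorem not_three (h : IsADS n N D) (hn : 7 ≤ n) (heven : n % 2 = 0) : ¬ 3 ∣ n := by
  intro h3
  have hA2 : Adm n 2 := Adm.of_dvd (by omega) (Nat.dvd_of_mod_eq_zero heven)
  have hA3 : Adm n 3 := Adm.of_dvd (by omega) h3
  have h1 := sidon h hn hA3 hA2 hA2 (Adm.one n) (by rfl)
  have h2 : AddMonoid.exponent G ∣ 3 - 2 := by
    rcases h1 with h1 | h1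
    · exact (Nat.modEq_iff_dvd' (by norm_num)).mp h1.symm
    · exact (Nat.modEq_iff_dvd' (by norm_num)).mp h1.symm
  obtain ⟨q, hq, hqd⟩ := Nat.exists_prime_and_dvd (show n - 1 ≠ 1 by omega)
  have h3 := (prime_dvd_exponent h hq (by
    rw [sq_sub_one n (by omega)]; exact hqd.mul_right _)).trans h2
  exact hq.one_lt.ne' (Nat.dvd_one.mp h3)

theorem three_dvd (h : IsADS n N D) (hn : 7 ≤ n) (heven : n % 2 = 0) :
    3 ∣ AddMonoid.exponent G := by
  apply prime_dvd_exponent h Nat.prime_three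
  rw [sq_sub_one n (by omega)]
  have h3 := not_three h hn heven
  have h1 : n % 3 = 1 ∨ n % 3 = 2 := by omega
  rcases h1 with h1 | h1
  · exact Dvd.dvd.mul_right (by omega) _
  · exact Dvd.dvd.mul_left (by omega) _

theorem dead_even (h : IsADS n N D) (hn : 16 < n) (heven : n % 2 = 0) {p A : ℕ}
    (hp : Adm n p) (hA : DeadEven p A) (he : AddMonoid.exponent G ∣ A) : False := by
  rcases hA with hA | ⟨c, i, hc, hA⟩
  · exact hA ((three_dvd h (by omega) heven).trans he)
  · have hA2 : Adm n 2 := Adm.of_dvd (by omega) (Nat.dvd_of_mod_eq_zero heven)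
    have h1 := exponent_coprime h ((hA2.mul hp).pow i)
    have h2 : AddMonoid.exponent G ∣ 2 ^ c - 1 := h1.dvd_of_dvd_mul_left (he.trans hA)
    have hw : ∀ q : ℕ, q.Prime → q ∣ n ^ 2 - 1 → q ∣ 2 ^ c - 1 := fun q hq hqd =>
      (prime_dvd_exponent h hq hqd).trans h2
    rcases hc with rfl | rfl | rfl | rfl
    · refine one_prime (w := 3) heven (by omega) fun q hq hqd => ?_
      exact (Nat.prime_dvd_prime_iff_eq hq Nat.prime_three).mp (hw q hq hqd)
    · exact case_15 h heven hn hw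
    · exact case_63 h heven hn h2
    · exact case_255 h heven hn hw

theorem dead_odd (h : IsADS n N D) (hn : 7 ≤ n) (hodd : n % 2 = 1) {q p A : ℕ}
    (hq : Adm n q) (hp : Adm n p) (hle : q * p ≤ n) (hA : DeadOdd q p A)
    (he : AddMonoid.exponent G ∣ A) : False := by
  rcases hA with hA | ⟨V, w, u, i, hw, hw2, hA, hlt⟩
  · exact hA ((eight_dvd h hn hodd).trans he)
  · have h1 := exponent_coprime h ((hq.mul hp).pow i)
    have h2 : AddMonoid.exponent G ∣ 2 ^ V * w ^ u := h1.dvd_of_dvd_mul_left (he.trans hA)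
    have h3 := odd_bound h hn hodd hw hw2 h2
    omega

theorem dvd_sub_of_modEq {e x y : ℕ} (h : x ≡ y [MOD e]) (hlt : y < x) : e ∣ x - y :=
  (Nat.modEq_iff_dvd' hlt.le).mp h.symm

theorem not_even (h : IsADS n N D) {p : ℕ} (hp : p.Prime) (hp2 : p ≠ 2) (hE : ExclEven p)
    (hpn : p ∣ n) (heven : n % 2 = 0) : False := by
  have hn0 : n ≠ 0 := by have := h.two_le; omega
  have hpA : Adm n p := Adm.of_dvd hn0 hpn
  have h2A : Adm n 2 := Adm.of_dvd hn0 (Nat.dvd_of_mod_eq_zero heven)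
  obtain ⟨x, y, z, w, hx, hy, hz, hw, hsum, hyx, hzx, hA, hB⟩ := hE
  have hp3 : 3 ≤ p := by have := hp.two_le; omega
  have hpo : p % 2 = 1 := (hp.eq_two_or_odd).resolve_left hp2
  have hpn' : p < n := by
    rcases (Nat.le_of_dvd (Nat.pos_of_ne_zero hn0) hpn).lt_or_eq with h1 | h1
    · exact h1
    · omega
  rcases Nat.lt_or_ge 16 n with hn | hn
  · rcases sidon h (by omega) (hx.adm h2A hpA) (hy.adm h2A hpA) (hz.adm h2A hpA)
      (hw.adm h2A hpA) (by rw [hsum]) with h1 | h1
    · exact dead_even h hn heven hpA hA (dvd_sub_of_modEq h1 hyx)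
    · exact dead_even h hn heven hpA hB (dvd_sub_of_modEq h1 hzx)
  · have hord := isOrder_of h
    have hnsq : ∀ m : ℕ, ¬ IsSquare m → m = n → ∀ q : ℕ, q.Prime → q ∣ m - 1 →
        q % 8 = 1 ∨ q % 8 = 7 := by
      rintro m hm rfl q hq hqd
      exact hord.even_case hm heven hq hqd
    have hcases : n = 4 ∨ n = 6 ∨ n = 8 ∨ n = 10 ∨ n = 12 ∨ n = 14 ∨ n = 16 := by omega
    have hp2 : ∀ k : ℕ, n = 2 ^ k → False := by
      intro k hk
      rw [hk] at hpn
      have := (Nat.prime_dvd_prime_iff_eq hp Nat.prime_two).mp (hp.dvd_of_dvd_pow hpn)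
      omega
    rcases hcases with h1 | h1 | h1 | h1 | h1 | h1 | h1
    · exact hp2 2 h1
    · have := hnsq 6 (by decide +kernel) h1.symm 5 (by norm_num) (by norm_num)
      omega
    · exact hp2 3 h1
    · have := hnsq 10 (by decide +kernel) h1.symm 3 (by norm_num) (by norm_num)
      omega
    · have := hnsq 12 (by decide +kernel) h1.symm 11 (by norm_num) (by norm_num)
      omega
    · have := hnsq 14 (by decide +kernel) h1.symm 13 (by norm_num) (by norm_num)
      omega
    · exact hp2 4 h1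

/-- **Excluded pairs.** -/
theorem not_excluded (h : IsADS n N D) {q p : ℕ} (hq : q.Prime) (hp : p.Prime) (hqp : q ≠ p)
    (hE : Excluded q p) (hd : q * p ∣ n) : False := by
  have hn0 : n ≠ 0 := by have := h.two_le; omega
  have hqn : q ∣ n := (Nat.dvd_mul_right q p).trans hd
  have hpn : p ∣ n := (Nat.dvd_mul_left p q).trans hd
  rcases hE with ⟨rfl, hE⟩ | ⟨hq1, hp1, hE, hE'⟩
  · exact not_even h hp (Ne.symm hqp) hE hpn (Nat.mod_eq_zero_of_dvd hqn)
  · rcases Nat.mod_two_eq_zero_or_one n with heven | hodd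
    · rcases hE' with h1 | h1
      · exact not_even h hq (by omega) h1 hqn heven
      · exact not_even h hp (by omega) h1 hpn heven
    · have hqA : Adm n q := Adm.of_dvd hn0 hqn
      have hpA : Adm n p := Adm.of_dvd hn0 hpn
      have hle : q * p ≤ n := Nat.le_of_dvd (Nat.pos_of_ne_zero hn0) hd
      have hq3 : 3 ≤ q := by have := hq.two_le; omega
      have hp3 : 3 ≤ p := by have := hp.two_le; omega
      have h9 : 3 * 3 ≤ q * p := Nat.mul_le_mul hq3 hp3
      obtain ⟨x, y, z, w, hx, hy, hz, hw, hsum, hyx, hzx, hA, hB⟩ := hE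
      rcases sidon h (by omega) (hx.adm hqA hpA) (hy.adm hqA hpA) (hz.adm hqA hpA)
        (hw.adm hqA hpA) (by rw [hsum]) with h1 | h1
      · exact dead_odd h (by omega) hodd hqA hpA hle hA (dvd_sub_of_modEq h1 hyx)
      · exact dead_odd h (by omega) hodd hqA hpA hle hB (dvd_sub_of_modEq h1 hzx)

theorem Affine.isADS (h : Affine n N D) : IsADS n N D :=
  ⟨h.two_le, h.card_group, h.card_sub, h.card_set, h.hit, h.miss⟩

end Pool.Agent.H99.ADS
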