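import Mathlib

/-!
# Counting integers in given classes modulo the primes dividing a squarefree number
-/

set_option autoImplicit false

namespace Pool.Agent.H99.ADS

open Finset

open Classical in
/-- Chinese remainder theorem for counting. -/
theorem card_crt {a b : ℕ} (hab : Nat.Coprime a b) (ha : a ≠ 0) (hb : b ≠ 0) (P Q : ℕ → Prop)
    (hP : ∀ m, P (m % a) ↔ P m) (hQ : ∀ m, Q (m % b) ↔ Q m) :
    ((range (a * b)).filter (fun r => P r ∧ Q r)).card =
      ((range a).filter P).card * ((range b).filter Q).card := by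
  rw [← Finset.card_product]
  refine Finset.card_bij' (fun r _ => (r % a, r % b))
    (fun x _ => (Nat.chineseRemainder hab x.1 x.2 : ℕ)) ?_ ?_ ?_ ?_
  · intro r hr
    rw [mem_filter, mem_range] at hr
    rw [mem_product, mem_filter, mem_filter, mem_range, mem_range]
    exact ⟨⟨Nat.mod_lt _ (Nat.pos_of_ne_zero ha), (hP r).mpr hr.2.1⟩,
      ⟨Nat.mod_lt _ (Nat.pos_of_ne_zero hb), (hQ r).mpr hr.2.2⟩⟩
  · rintro ⟨u, v⟩ hx
    rw [mem_product, mem_filter, mem_filter, mem_range, mem_range] at hx
    simp only at hx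
    rw [mem_filter, mem_range]
    have h1 := (Nat.chineseRemainder hab u v).2
    have h2 := Nat.chineseRemainder_lt_mul hab u v ha hb
    simp only
    set r : ℕ := (Nat.chineseRemainder hab u v : ℕ) with hr
    have h3 : r % a = u := by
      have := h1.1
      rw [Nat.ModEq, Nat.mod_eq_of_lt hx.1.1] at this
      exact this
    have h4 : r % b = v := by
      have := h1.2
      rw [Nat.ModEq, Nat.mod_eq_of_lt hx.2.1] at this
      exact this
    refine ⟨h2, ?_, ?_⟩
    · rw [← hP, h3]; exact hx.1.2
    · rw [← hQ, h4]; exact hx.2.2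
  · intro r hr
    rw [mem_filter, mem_range] at hr
    simp only
    have h1 := (Nat.chineseRemainder hab (r % a) (r % b)).2
    have h2 := Nat.chineseRemainder_lt_mul hab (r % a) (r % b) ha hb
    have h3 : (Nat.chineseRemainder hab (r % a) (r % b) : ℕ) ≡ r [MOD a * b] := by
      rw [← Nat.modEq_and_modEq_iff_modEq_mul hab]
      exact ⟨h1.1.trans (Nat.mod_modEq r a), h1.2.trans (Nat.mod_modEq r b)⟩
    exact Nat.ModEq.eq_of_lt_of_lt h3 h2 hr.1
  · rintro ⟨u, v⟩ hx
    rw [mem_product, mem_filter, mem_filter, mem_range, mem_range] at hx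
    simp only at hx
    have h1 := (Nat.chineseRemainder hab u v).2
    have h3 := h1.1
    rw [Nat.ModEq, Nat.mod_eq_of_lt hx.1.1] at h3
    have h4 := h1.2
    rw [Nat.ModEq, Nat.mod_eq_of_lt hx.2.1] at h4
    simp only [h3, h4]

/-- `bad q m` : the integer `m` lies in one of the `w q` bad classes modulo `q`. -/
structure Classes (ps : Finset ℕ) (bad : ℕ → ℕ → Prop) (w : ℕ → ℕ) : Prop where
  prime : ∀ q ∈ ps, q.Prime
  per : ∀ q ∈ ps, ∀ m, bad q (m % q) ↔ bad q m
  card : ∀ q ∈ ps, {r : ℕ | r < q ∧ bad q r}.ncard = w q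

open Classical in
theorem Classes.card' {ps : Finset ℕ} {bad : ℕ → ℕ → Prop} {w : ℕ → ℕ} (h : Classes ps bad w)
    {q : ℕ} (hq : q ∈ ps) : ((range q).filter (bad q)).card = w q := by
  rw [← h.card q hq, ← Set.ncard_coe_finset]
  congr 1
  ext r
  simp

open Classical in
/-- The number of residues modulo a squarefree number which are bad for all its primes. -/
theorem card_bad {ps : Finset ℕ} {bad : ℕ → ℕ → Prop} {w : ℕ → ℕ} (h : Classes ps bad w)
    (T : Finset ℕ) (hT : T ⊆ ps) :
    ((range (∏ q ∈ T, q)).filter (fun r => ∀ q ∈ T, bad q r)).card = ∏ q ∈ T, w q := by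
  induction T using Finset.induction_on with
  | empty => simp
  | insert q T hqT ih =>
    have hq : q ∈ ps := hT (mem_insert_self q T)
    have hT' : T ⊆ ps := fun r hr => hT (mem_insert_of_mem hr)
    rw [Finset.prod_insert hqT, Finset.prod_insert hqT, ← ih hT', ← h.card' hq]
    have hcop : Nat.Coprime q (∏ r ∈ T, r) := by
      apply Nat.Coprime.prod_right
      intro r hr
      exact (Nat.coprime_primes (h.prime q hq) (h.prime r (hT' hr))).mpr
        (fun hqr => hqT (hqr ▸ hr))
    have hT0 : (∏ r ∈ T, r) ≠ 0 := Finset.prod_ne_zero_iff.mpr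
      (fun r hr => (h.prime r (hT' hr)).ne_zero)
    have hQ : ∀ m, (fun r => ∀ r' ∈ T, bad r' r) (m % (∏ r ∈ T, r)) ↔
        (fun r => ∀ r' ∈ T, bad r' r) m := by
      intro m
      constructor
      · intro h1 r hr
        have h2 := h1 r hr
        rw [← h.per r (hT' hr), Nat.mod_mod_of_dvd m (Finset.dvd_prod_of_mem _ hr),
          h.per r (hT' hr)] at h2
        exact h2
      · intro h1 r hr
        rw [← h.per r (hT' hr), Nat.mod_mod_of_dvd m (Finset.dvd_prod_of_mem _ hr),
          h.per r (hT' hr)]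
        exact h1 r hr
    have key := card_crt hcop (h.prime q hq).ne_zero hT0 (bad q)
      (fun r => ∀ r' ∈ T, bad r' r) (h.per q hq) hQ
    refine Eq.trans ?_ (key.trans ?_)
    · congr 1
      ext r
      simp only [mem_filter, mem_range, mem_insert, forall_eq_or_imp]
    · congr!

open Classical in
/-- Counting a periodic condition in an interval. -/
theorem card_periodic {d : ℕ} (hd : 0 < d) (P : ℕ → Prop) (hP : ∀ m, P (m % d) ↔ P m) (X : ℕ) :
    |(((Icc 1 X).filter P).card : ℝ) - (((range d).filter P).card : ℝ) / d * X| ≤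
      ((range d).filter P).card := by
  have hper : Function.Periodic P d := by
    intro m
    rw [eq_iff_iff, ← hP, Nat.add_mod_right, hP]
  set c := ((range d).filter P).card with hc
  have hblock : ∀ n : ℕ, ((Ico n (n + d)).filter P).card = c := by
    intro n
    rw [Nat.filter_Ico_card_eq_of_periodic n d P hper, Nat.count_eq_card_filter_range]
  have hIcc : ∀ X : ℕ, ((Icc 1 X).filter P) = ((Ico 1 (X + 1)).filter P) := by
    intro X
    congr 1
  -- full blocks
  have hk : ∀ k r : ℕ, ((Ico 1 (k * d + r + 1)).filter P).card =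
      k * c + ((Ico 1 (r + 1)).filter P).card := by
    intro k r
    induction k with
    | zero => simp
    | succ k ih =>
      have h1 : Ico 1 ((k + 1) * d + r + 1) = Ico 1 (k * d + r + 1) ∪
          Ico (k * d + r + 1) (k * d + r + 1 + d) := by
        rw [Finset.Ico_union_Ico_eq_Ico (by omega) (by omega)]
        congr 1
        ring
      have h2 : Disjoint ((Ico 1 (k * d + r + 1)).filter P)
          ((Ico (k * d + r + 1) (k * d + r + 1 + d)).filter P) :=
        Finset.disjoint_filter_filter (Finset.Ico_disjoint_Ico_consecutive _ _ _)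
      rw [h1, Finset.filter_union, Finset.card_union_of_disjoint h2, ih, hblock]
      ring
  have hr : X % d < d := Nat.mod_lt _ hd
  have h1 : ((Icc 1 X).filter P).card = (X / d) * c + ((Ico 1 (X % d + 1)).filter P).card := by
    rw [hIcc]
    have : X + 1 = (X / d) * d + X % d + 1 := by
      have := Nat.div_add_mod X d
      rw [mul_comm] at this
      omega
    rw [this, hk]
  have h2 : ((Ico 1 (X % d + 1)).filter P).card ≤ c := by
    rw [← hblock 1]
    apply Finset.card_le_card
    apply Finset.filter_subset_filter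
    apply Finset.Ico_subset_Ico_right
    omega
  have hdR : (0 : ℝ) < d := by exact_mod_cast hd
  have hX : (X : ℝ) = d * ((X / d : ℕ) : ℝ) + ((X % d : ℕ) : ℝ) := by
    have := Nat.div_add_mod X d
    exact_mod_cast this.symm
  have h3 : (c : ℝ) / d * X = ((X / d : ℕ) : ℝ) * c + c * (((X % d : ℕ) : ℝ) / d) := by
    rw [hX]
    field_simp
  have h4 : 0 ≤ ((X % d : ℕ) : ℝ) / d := by positivity
  have h5 : ((X % d : ℕ) : ℝ) / d ≤ 1 := by
    rw [div_le_one hdR]
    exact_mod_cast hr.le
  rw [h1, h3]
  push_cast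
  rw [abs_le]
  have h6 : (0 : ℝ) ≤ c := Nat.cast_nonneg c
  have h7 : (((Ico 1 (X % d + 1)).filter P).card : ℝ) ≤ c := by exact_mod_cast h2
  have h8 : (0 : ℝ) ≤ (((Ico 1 (X % d + 1)).filter P).card : ℝ) := Nat.cast_nonneg _
  constructor
  · nlinarith
  · nlinarith

end Pool.Agent.H99.ADS
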