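import Pool.Agent.H99.ADS.Defs

/-!
# Logarithmic sums of completely multiplicative functions
-/

set_option autoImplicit false

namespace Pool.Agent.H99.ADS

open Finset

theorem Fm_one (f : ℕ → ℝ) : Fm f 1 = 1 := by simp [Fm]

theorem Fm_mul (f : ℕ → ℝ) {a b : ℕ} (ha : a ≠ 0) (hb : b ≠ 0) :
    Fm f (a * b) = Fm f a * Fm f b := by
  unfold Fm
  rw [((Nat.perm_primeFactorsList_mul ha hb).map f).prod_eq, List.map_append, List.prod_append]

theorem Fm_prime (f : ℕ → ℝ) {q : ℕ} (hq : q.Prime) : Fm f q = f q := by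
  unfold Fm
  rw [Nat.primeFactorsList_prime hq]
  simp

theorem Fm_prime_mul (f : ℕ → ℝ) {q m : ℕ} (hq : q.Prime) (hm : m ≠ 0) :
    Fm f (q * m) = f q * Fm f m := by
  rw [Fm_mul f hq.ne_zero hm, Fm_prime f hq]

theorem Fm_nonneg {f : ℕ → ℝ} (hf : ∀ q : ℕ, q.Prime → 0 ≤ f q) (m : ℕ) : 0 ≤ Fm f m := by
  unfold Fm
  apply List.prod_nonneg
  intro a ha
  rw [List.mem_map] at ha
  obtain ⟨q, hq, rfl⟩ := ha
  exact hf q (Nat.prime_of_mem_primeFactorsList hq)

theorem Fm_mono {f g : ℕ → ℝ} (hf : ∀ q : ℕ, q.Prime → 0 ≤ f q)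
    (hfg : ∀ q : ℕ, q.Prime → f q ≤ g q) (m : ℕ) (hm : m ≠ 0) : Fm f m ≤ Fm g m := by
  induction m using Nat.recOnMul with
  | zero => exact absurd rfl hm
  | one => rw [Fm_one, Fm_one]
  | prime q hq => rw [Fm_prime f hq, Fm_prime g hq]; exact hfg q hq
  | mul a b iha ihb =>
    have ha : a ≠ 0 := by rintro rfl; simp at hm
    have hb : b ≠ 0 := by rintro rfl; simp at hm
    rw [Fm_mul f ha hb, Fm_mul g ha hb]
    exact mul_le_mul (iha ha) (ihb hb) (Fm_nonneg hf b)
      (Fm_nonneg (fun q hq => (hf q hq).trans (hfg q hq)) a)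

theorem Fm_congr {f g : ℕ → ℝ} (m : ℕ) (hfg : ∀ q : ℕ, q.Prime → q ∣ m → f q = g q) :
    Fm f m = Fm g m := by
  unfold Fm
  congr 1
  apply List.map_congr_left
  intro q hq
  exact hfg q (Nat.prime_of_mem_primeFactorsList hq) (Nat.dvd_of_mem_primeFactorsList hq)

open Classical in
theorem Fm_indicator {T : ℕ → Prop} (m : ℕ) (hm : m ≠ 0) :
    Fm (fun q => if T q then (1 : ℝ) else 0) m = if ∀ q : ℕ, q.Prime → q ∣ m → T q then 1 else 0 := by
  by_cases h : ∀ q : ℕ, q.Prime → q ∣ m → T q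
  · rw [if_pos h]
    have h1 : Fm (fun q => if T q then (1 : ℝ) else 0) m = Fm (fun _ => 1) m := by
      apply Fm_congr
      intro q hq hqm
      rw [if_pos (h q hq hqm)]
    rw [h1]
    unfold Fm
    simp
  · rw [if_neg h]
    push Not at h
    obtain ⟨q, hq, hqm, hT⟩ := h
    unfold Fm
    rw [List.prod_eq_zero_iff, List.mem_map]
    exact ⟨q, (Nat.mem_primeFactorsList hm).mpr ⟨hq, hqm⟩, if_neg hT⟩

theorem Ds_nonneg {f : ℕ → ℝ} (hf : ∀ q : ℕ, q.Prime → 0 ≤ f q) (Y : ℕ) : 0 ≤ Ds f Y :=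
  Finset.sum_nonneg fun m _ => div_nonneg (Fm_nonneg hf m) (Nat.cast_nonneg m)

theorem Ds_mono_left {f g : ℕ → ℝ} (hf : ∀ q : ℕ, q.Prime → 0 ≤ f q)
    (hfg : ∀ q : ℕ, q.Prime → f q ≤ g q) (Y : ℕ) : Ds f Y ≤ Ds g Y := by
  refine Finset.sum_le_sum fun m hm => ?_
  rw [mem_Icc] at hm
  exact div_le_div_of_nonneg_right (Fm_mono hf hfg m (by omega)) (Nat.cast_nonneg m)

theorem Ds_mono_right {f : ℕ → ℝ} (hf : ∀ q : ℕ, q.Prime → 0 ≤ f q) {Y Z : ℕ} (h : Y ≤ Z) :
    Ds f Y ≤ Ds f Z :=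
  Finset.sum_le_sum_of_subset_of_nonneg (Finset.Icc_subset_Icc_right h)
    fun m _ _ => div_nonneg (Fm_nonneg hf m) (Nat.cast_nonneg m)

theorem one_le_Ds {f : ℕ → ℝ} (hf : ∀ q : ℕ, q.Prime → 0 ≤ f q) {Y : ℕ} (hY : 1 ≤ Y) :
    1 ≤ Ds f Y := by
  refine le_trans ?_ (Ds_mono_right hf hY)
  unfold Ds
  simp [Fm_one]

/-- The full logarithmic sum. -/
theorem log_le_Ds_one (Y : ℕ) : Real.log (Y + 1) ≤ Ds (fun _ => 1) Y := by
  have h := log_add_one_le_harmonic Y
  rw [harmonic_eq_sum_Icc] at h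
  push_cast at h
  refine h.trans (le_of_eq ?_)
  unfold Ds
  refine Finset.sum_congr rfl fun m _ => ?_
  have : Fm (fun _ => 1) m = 1 := by unfold Fm; simp
  rw [this, one_div]

theorem Ds_one_le (Y : ℕ) : Ds (fun _ => 1) Y ≤ 1 + Real.log Y := by
  have h := harmonic_le_one_add_log Y
  rw [harmonic_eq_sum_Icc] at h
  push_cast at h
  refine le_trans (le_of_eq ?_) h
  unfold Ds
  refine Finset.sum_congr rfl fun m _ => ?_
  have : Fm (fun _ => 1) m = 1 := by unfold Fm; simp
  rw [this, one_div]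

/-- The Dirichlet convolution of two completely multiplicative functions. -/
noncomputable def Cv (f g : ℕ → ℝ) (m : ℕ) : ℝ :=
  ∑ x ∈ m.divisorsAntidiagonal, Fm f x.1 * Fm g x.2

theorem Cv_one (f g : ℕ → ℝ) : Cv f g 1 = 1 := by
  unfold Cv
  simp [Fm_one]

theorem Cv_prime_mul_le {f g : ℕ → ℝ} (hf : ∀ q : ℕ, q.Prime → 0 ≤ f q)
    (hg : ∀ q : ℕ, q.Prime → 0 ≤ g q) {q m : ℕ} (hq : q.Prime) (hm : m ≠ 0) :
    Cv f g (q * m) ≤ (f q + g q) * Cv f g m := by
  classical
  unfold Cv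
  have h1 : (q * m).divisorsAntidiagonal ⊆
      (m.divisorsAntidiagonal.image (fun x => (q * x.1, x.2))) ∪
      (m.divisorsAntidiagonal.image (fun x => (x.1, q * x.2))) := by
    rintro ⟨a, b⟩ hx
    rw [Nat.mem_divisorsAntidiagonal] at hx
    obtain ⟨hab, -⟩ := hx
    simp only at hab
    rw [mem_union, mem_image, mem_image]
    have hd : q ∣ a * b := hab ▸ Nat.dvd_mul_right q m
    rcases (Nat.Prime.dvd_mul hq).mp hd with ⟨c, rfl⟩ | ⟨c, rfl⟩
    · left
      refine ⟨(c, b), ?_, rfl⟩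
      rw [Nat.mem_divisorsAntidiagonal]
      exact ⟨Nat.eq_of_mul_eq_mul_left hq.pos (by rw [← hab]; ring), hm⟩
    · right
      refine ⟨(a, c), ?_, rfl⟩
      rw [Nat.mem_divisorsAntidiagonal]
      exact ⟨Nat.eq_of_mul_eq_mul_left hq.pos (by rw [← hab]; ring), hm⟩
  have hnn : ∀ x : ℕ × ℕ, 0 ≤ Fm f x.1 * Fm g x.2 := fun x =>
    mul_nonneg (Fm_nonneg hf _) (Fm_nonneg hg _)
  refine (Finset.sum_le_sum_of_subset_of_nonneg h1 fun x _ _ => hnn x).trans ?_
  have h2 := Finset.sum_union_inter (s₁ := m.divisorsAntidiagonal.image (fun x => (q * x.1, x.2)))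
    (s₂ := m.divisorsAntidiagonal.image (fun x => (x.1, q * x.2)))
    (f := fun x => Fm f x.1 * Fm g x.2)
  have h3 : 0 ≤ ∑ x ∈ (m.divisorsAntidiagonal.image (fun x => (q * x.1, x.2))) ∩
      (m.divisorsAntidiagonal.image (fun x => (x.1, q * x.2))), Fm f x.1 * Fm g x.2 :=
    Finset.sum_nonneg fun x _ => hnn x
  have h4 : ∑ x ∈ m.divisorsAntidiagonal.image (fun x => (q * x.1, x.2)), Fm f x.1 * Fm g x.2 =
      f q * ∑ x ∈ m.divisorsAntidiagonal, Fm f x.1 * Fm g x.2 := by
    rw [Finset.sum_image, Finset.mul_sum]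
    · refine Finset.sum_congr rfl fun x hx => ?_
      have hx0 : x.1 ≠ 0 := (Nat.ne_zero_of_mem_divisorsAntidiagonal hx).1
      rw [Fm_prime_mul f hq hx0, mul_assoc]
    · rintro ⟨a, b⟩ _ ⟨c, d⟩ _ h
      simp only [Prod.mk.injEq] at h
      exact Prod.ext (Nat.eq_of_mul_eq_mul_left hq.pos h.1) h.2
  have h5 : ∑ x ∈ m.divisorsAntidiagonal.image (fun x => (x.1, q * x.2)), Fm f x.1 * Fm g x.2 =
      g q * ∑ x ∈ m.divisorsAntidiagonal, Fm f x.1 * Fm g x.2 := by
    rw [Finset.sum_image, Finset.mul_sum]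
    · refine Finset.sum_congr rfl fun x hx => ?_
      have hx0 : x.2 ≠ 0 := (Nat.ne_zero_of_mem_divisorsAntidiagonal hx).2
      rw [Fm_prime_mul g hq hx0]
      ring
    · rintro ⟨a, b⟩ _ ⟨c, d⟩ _ h
      simp only [Prod.mk.injEq] at h
      exact Prod.ext h.1 (Nat.eq_of_mul_eq_mul_left hq.pos h.2)
  rw [h4, h5] at h2
  linarith

/-- The convolution is at most the completely multiplicative function of the sum. -/
theorem Cv_le {f g : ℕ → ℝ} (hf : ∀ q : ℕ, q.Prime → 0 ≤ f q)
    (hg : ∀ q : ℕ, q.Prime → 0 ≤ g q) (m : ℕ) (hm : m ≠ 0) :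
    Cv f g m ≤ Fm (fun q => f q + g q) m := by
  induction m using Nat.strong_induction_on with
  | _ m ih =>
    by_cases h1 : m = 1
    · subst h1
      rw [Cv_one, Fm_one]
    · obtain ⟨q, hq, c, rfl⟩ := Nat.exists_prime_and_dvd h1
      have hc : c ≠ 0 := by rintro rfl; simp at hm
      have hlt : c < q * c := by
        have := hq.one_lt
        exact (Nat.lt_mul_iff_one_lt_left (Nat.pos_of_ne_zero hc)).mpr this
      rw [Fm_prime_mul _ hq hc]
      refine (Cv_prime_mul_le hf hg hq hc).trans ?_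
      exact mul_le_mul_of_nonneg_left (ih c hlt hc) (add_nonneg (hf q hq) (hg q hq))

/-- For functions with disjoint supports the convolution is at least the completely
multiplicative function of the sum. -/
theorem le_Cv {f g : ℕ → ℝ} (hf : ∀ q : ℕ, q.Prime → 0 ≤ f q)
    (hg : ∀ q : ℕ, q.Prime → 0 ≤ g q) (hfg : ∀ q : ℕ, q.Prime → f q = 0 ∨ g q = 0)
    (m : ℕ) (hm : m ≠ 0) :
    Fm (fun q => f q + g q) m ≤ Cv f g m := by
  classical
  induction m using Nat.strong_induction_on with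
  | _ m ih =>
    by_cases h1 : m = 1
    · subst h1
      rw [Cv_one, Fm_one]
    · obtain ⟨q, hq, c, rfl⟩ := Nat.exists_prime_and_dvd h1
      have hc : c ≠ 0 := by rintro rfl; simp at hm
      have hlt : c < q * c := by
        have := hq.one_lt
        exact (Nat.lt_mul_iff_one_lt_left (Nat.pos_of_ne_zero hc)).mpr this
      rw [Fm_prime_mul _ hq hc]
      refine (mul_le_mul_of_nonneg_left (ih c hlt hc) (add_nonneg (hf q hq) (hg q hq))).trans ?_
      have hnn : ∀ x : ℕ × ℕ, 0 ≤ Fm f x.1 * Fm g x.2 := fun x =>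
        mul_nonneg (Fm_nonneg hf _) (Fm_nonneg hg _)
      rcases hfg q hq with h0 | h0
      · rw [h0, zero_add]
        unfold Cv
        have h2 : c.divisorsAntidiagonal.image (fun x => (x.1, q * x.2)) ⊆
            (q * c).divisorsAntidiagonal := by
          rintro x hx
          rw [mem_image] at hx
          obtain ⟨y, hy, rfl⟩ := hx
          rw [Nat.mem_divisorsAntidiagonal] at hy ⊢
          exact ⟨by rw [← hy.1]; ring, hm⟩
        refine le_trans (le_of_eq ?_) (Finset.sum_le_sum_of_subset_of_nonneg h2 fun x _ _ => hnn x)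
        rw [Finset.sum_image, Finset.mul_sum]
        · refine Finset.sum_congr rfl fun x hx => ?_
          have hx0 : x.2 ≠ 0 := (Nat.ne_zero_of_mem_divisorsAntidiagonal hx).2
          rw [Fm_prime_mul g hq hx0]
          ring
        · rintro ⟨a, b⟩ _ ⟨c', d⟩ _ h
          simp only [Prod.mk.injEq] at h
          exact Prod.ext h.1 (Nat.eq_of_mul_eq_mul_left hq.pos h.2)
      · rw [h0, add_zero]
        unfold Cv
        have h2 : c.divisorsAntidiagonal.image (fun x => (q * x.1, x.2)) ⊆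
            (q * c).divisorsAntidiagonal := by
          rintro x hx
          rw [mem_image] at hx
          obtain ⟨y, hy, rfl⟩ := hx
          rw [Nat.mem_divisorsAntidiagonal] at hy ⊢
          exact ⟨by rw [← hy.1]; ring, hm⟩
        refine le_trans (le_of_eq ?_) (Finset.sum_le_sum_of_subset_of_nonneg h2 fun x _ _ => hnn x)
        rw [Finset.sum_image, Finset.mul_sum]
        · refine Finset.sum_congr rfl fun x hx => ?_
          have hx0 : x.1 ≠ 0 := (Nat.ne_zero_of_mem_divisorsAntidiagonal hx).1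
          rw [Fm_prime_mul f hq hx0]
          ring
        · rintro ⟨a, b⟩ _ ⟨c', d⟩ _ h
          simp only [Prod.mk.injEq] at h
          exact Prod.ext (Nat.eq_of_mul_eq_mul_left hq.pos h.1) h.2

theorem sum_Cv_div (f g : ℕ → ℝ) (S : Finset ℕ) :
    ∑ m ∈ S, Cv f g m / m = ∑ x ∈ S.sigma (fun m => m.divisorsAntidiagonal),
      (Fm f x.2.1 / x.2.1) * (Fm g x.2.2 / x.2.2) := by
  rw [Finset.sum_sigma]
  refine Finset.sum_congr rfl fun m _ => ?_
  unfold Cv
  rw [Finset.sum_div]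
  refine Finset.sum_congr rfl fun x hx => ?_
  rw [Nat.mem_divisorsAntidiagonal] at hx
  rw [← hx.1, div_mul_div_comm]
  push_cast
  rfl

/-- Product of two logarithmic sums. -/
theorem Ds_mul_le {f g : ℕ → ℝ} (hf : ∀ q : ℕ, q.Prime → 0 ≤ f q)
    (hg : ∀ q : ℕ, q.Prime → 0 ≤ g q) (Y Z : ℕ) :
    Ds f Y * Ds g Z ≤ Ds (fun q => f q + g q) (Y * Z) := by
  have h1 : ∑ m ∈ Icc 1 (Y * Z), Cv f g m / m ≤ Ds (fun q => f q + g q) (Y * Z) := by
    refine Finset.sum_le_sum fun m hm => ?_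
    rw [mem_Icc] at hm
    exact div_le_div_of_nonneg_right (Cv_le hf hg m (by omega)) (Nat.cast_nonneg m)
  refine le_trans ?_ h1
  rw [sum_Cv_div]
  unfold Ds
  rw [Finset.sum_mul_sum, ← Finset.sum_product']
  refine le_trans (le_of_eq ?_) (Finset.sum_le_sum_of_subset_of_nonneg
    (s := (Icc 1 Y ×ˢ Icc 1 Z).image (fun x => (⟨x.1 * x.2, x⟩ : (_ : ℕ) × ℕ × ℕ))) ?_ ?_)
  · rw [Finset.sum_image]
    rintro x _ y _ h
    simp only [Sigma.mk.injEq, heq_eq_eq] at h
    exact h.2
  · intro x hx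
    rw [mem_image] at hx
    obtain ⟨y, hy, rfl⟩ := hx
    rw [mem_product, mem_Icc, mem_Icc] at hy
    rw [mem_sigma, mem_Icc, Nat.mem_divisorsAntidiagonal]
    refine ⟨⟨Nat.mul_pos hy.1.1 hy.2.1, Nat.mul_le_mul hy.1.2 hy.2.2⟩, rfl, ?_⟩
    exact (Nat.mul_pos hy.1.1 hy.2.1).ne'
  · intro x _ _
    exact mul_nonneg (div_nonneg (Fm_nonneg hf _) (Nat.cast_nonneg _))
      (div_nonneg (Fm_nonneg hg _) (Nat.cast_nonneg _))

/-- Splitting for functions with disjoint supports. -/
theorem Ds_add_le {f g : ℕ → ℝ} (hf : ∀ q : ℕ, q.Prime → 0 ≤ f q)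
    (hg : ∀ q : ℕ, q.Prime → 0 ≤ g q) (hfg : ∀ q : ℕ, q.Prime → f q = 0 ∨ g q = 0) (Y : ℕ) :
    Ds (fun q => f q + g q) Y ≤ Ds f Y * Ds g Y := by
  have h1 : Ds (fun q => f q + g q) Y ≤ ∑ m ∈ Icc 1 Y, Cv f g m / m := by
    refine Finset.sum_le_sum fun m hm => ?_
    rw [mem_Icc] at hm
    exact div_le_div_of_nonneg_right (le_Cv hf hg hfg m (by omega)) (Nat.cast_nonneg m)
  refine h1.trans ?_
  rw [sum_Cv_div]
  unfold Ds
  rw [Finset.sum_mul_sum, ← Finset.sum_product']
  have hinj : Set.InjOn (fun x : (_ : ℕ) × ℕ × ℕ => x.2)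
      ((Icc 1 Y).sigma (fun m => m.divisorsAntidiagonal)) := by
    rintro ⟨m, x⟩ hx ⟨m', x'⟩ hx' h
    simp only [coe_sigma, Set.mem_sigma_iff, mem_coe, Nat.mem_divisorsAntidiagonal] at hx hx'
    simp only at h
    subst h
    obtain rfl : m = m' := by rw [← hx.2.1, ← hx'.2.1]
    rfl
  rw [← Finset.sum_image (f := fun x : ℕ × ℕ => (Fm f x.1 / x.1) * (Fm g x.2 / x.2)) hinj]
  refine Finset.sum_le_sum_of_subset_of_nonneg ?_ ?_
  · intro x hx
    rw [mem_image] at hx
    obtain ⟨⟨m, y⟩, hy, rfl⟩ := hx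
    rw [mem_sigma, mem_Icc, Nat.mem_divisorsAntidiagonal] at hy
    simp only at hy
    rw [mem_product, mem_Icc, mem_Icc]
    obtain ⟨⟨h1, h2⟩, h3, h4⟩ := hy
    have ha : y.1 ≠ 0 := by rintro h0; rw [h0, zero_mul] at h3; exact h4 h3.symm
    have hb : y.2 ≠ 0 := by rintro h0; rw [h0, mul_zero] at h3; exact h4 h3.symm
    refine ⟨⟨Nat.pos_of_ne_zero ha, ?_⟩, Nat.pos_of_ne_zero hb, ?_⟩
    · exact le_trans (Nat.le_mul_of_pos_right _ (Nat.pos_of_ne_zero hb)) (h3.le.trans h2)
    · exact le_trans (Nat.le_mul_of_pos_left _ (Nat.pos_of_ne_zero ha)) (h3.le.trans h2)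
  · intro x _ _
    exact mul_nonneg (div_nonneg (Fm_nonneg hf _) (Nat.cast_nonneg _))
      (div_nonneg (Fm_nonneg hg _) (Nat.cast_nonneg _))

theorem Ds_congr {f g : ℕ → ℝ} (Y : ℕ) (h : ∀ q : ℕ, q.Prime → q ≤ Y → f q = g q) :
    Ds f Y = Ds g Y := by
  refine Finset.sum_congr rfl fun m hm => ?_
  rw [mem_Icc] at hm
  rw [Fm_congr m fun q hq hqm => h q hq ((Nat.le_of_dvd (by omega) hqm).trans hm.2)]

theorem Fm_pow (f : ℕ → ℝ) {q : ℕ} (hq : q.Prime) (k : ℕ) : Fm f (q ^ k) = f q ^ k := by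
  induction k with
  | zero => simp [Fm_one]
  | succ k ih => rw [pow_succ', Fm_prime_mul f hq (pow_ne_zero _ hq.ne_zero), ih, pow_succ']

theorem Ds_single {c : ℝ} (hc0 : 0 ≤ c) {q : ℕ} (hq : q.Prime) (hcq : c < q) (Y : ℕ) :
    Ds (fun r => if r = q then c else 0) Y ≤ (1 - c / q)⁻¹ := by
  have hq0 : (0 : ℝ) < q := by exact_mod_cast hq.pos
  have hr0 : 0 ≤ c / q := div_nonneg hc0 hq0.le
  have hr1 : c / q < 1 := (div_lt_one hq0).mpr hcq
  have hf : ∀ r : ℕ, r.Prime → 0 ≤ (fun r => if r = q then c else (0 : ℝ)) r := by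
    intro r _
    simp only
    split_ifs
    · exact hc0
    · exact le_rfl
  have hinj : Set.InjOn (fun k : ℕ => q ^ k) (range (Y + 1) : Set ℕ) := fun a _ b _ h =>
    Nat.pow_right_injective hq.two_le h
  have h1 : Ds (fun r => if r = q then c else 0) Y ≤
      ∑ m ∈ (range (Y + 1)).image (fun k => q ^ k), Fm (fun r => if r = q then c else 0) m / m := by
    unfold Ds
    rw [← Finset.sum_filter_add_sum_filter_not (Icc 1 Y)
      (fun m => m ∈ (range (Y + 1)).image (fun k => q ^ k))]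
    have h2 : ∑ m ∈ (Icc 1 Y).filter (fun m => ¬ m ∈ (range (Y + 1)).image (fun k => q ^ k)),
        Fm (fun r => if r = q then c else 0) m / m = 0 := by
      refine Finset.sum_eq_zero fun m hm => ?_
      rw [mem_filter, mem_Icc, mem_image] at hm
      obtain ⟨⟨h3, h4⟩, h5⟩ := hm
      have hm0 : m ≠ 0 := by omega
      have h6 : ∃ r : ℕ, r.Prime ∧ r ∣ m ∧ r ≠ q := by
        by_contra hcon
        push Not at hcon
        apply h5
        refine ⟨m.primeFactorsList.length, ?_, ?_⟩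
        · rw [mem_range]
          have h7 : m = q ^ m.primeFactorsList.length :=
            Nat.eq_prime_pow_of_unique_prime_dvd hm0 (fun {d} hd hdm => hcon d hd hdm)
          have h8 := Nat.lt_pow_self hq.one_lt (n := m.primeFactorsList.length)
          rw [← h7] at h8
          omega
        · exact (Nat.eq_prime_pow_of_unique_prime_dvd hm0 (fun {d} hd hdm => hcon d hd hdm)).symm
      obtain ⟨r, hr, hrm, hrq⟩ := h6
      have h7 : Fm (fun r => if r = q then c else 0) m = 0 := by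
        obtain ⟨e, rfl⟩ := hrm
        have he : e ≠ 0 := by rintro rfl; simp at hm0
        rw [Fm_prime_mul _ hr he, if_neg hrq, zero_mul]
      rw [h7, zero_div]
    rw [h2, add_zero]
    refine Finset.sum_le_sum_of_subset_of_nonneg (fun m hm => (mem_filter.mp hm).2)
      fun m _ _ => div_nonneg (Fm_nonneg hf m) (Nat.cast_nonneg m)
  refine h1.trans ?_
  rw [Finset.sum_image hinj]
  have h2 : ∀ k ∈ range (Y + 1), Fm (fun r => if r = q then c else 0) (q ^ k) / ((q ^ k : ℕ) : ℝ) =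
      (c / q) ^ k := by
    intro k _
    rw [Fm_pow _ hq, if_pos rfl, Nat.cast_pow, div_pow]
  rw [Finset.sum_congr rfl h2]
  rw [← tsum_geometric_of_lt_one hr0 hr1]
  exact (summable_geometric_of_lt_one hr0 hr1).sum_le_tsum _ (fun k _ => pow_nonneg hr0 k)

theorem Ds_zero (Y : ℕ) (hY : 1 ≤ Y) : Ds (fun _ => 0) Y = 1 := by
  unfold Ds
  rw [Finset.sum_eq_single 1]
  · simp [Fm_one]
  · intro m hm hm1
    obtain ⟨q, hq, e, rfl⟩ := Nat.exists_prime_and_dvd hm1
    rw [mem_Icc] at hm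
    have he : e ≠ 0 := by rintro rfl; simp at hm
    rw [Fm_prime_mul _ hq he, zero_mul, zero_div]
  · intro h
    exact absurd (mem_Icc.mpr ⟨le_rfl, hY⟩) h

theorem Ds_zero_le (Y : ℕ) : Ds (fun _ => 0) Y ≤ 1 := by
  rcases Nat.eq_zero_or_pos Y with h | h
  · subst h; simp [Ds]
  · rw [Ds_zero Y h]

/-- Upper bound by the Euler product over a finite set of primes. -/
theorem Ds_le_prod {f : ℕ → ℝ} (hf : ∀ q : ℕ, q.Prime → 0 ≤ f q)
    (T : Finset ℕ) (hT : ∀ q ∈ T, q.Prime) (hfq : ∀ q ∈ T, f q < q) (Y : ℕ) :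
    Ds (fun q => if q ∈ T then f q else 0) Y ≤ ∏ q ∈ T, (1 - f q / q)⁻¹ := by
  classical
  induction T using Finset.induction_on with
  | empty => simpa using Ds_zero_le Y
  | insert q T hqT ih =>
    have hq : q.Prime := hT q (mem_insert_self q T)
    have h1 : Ds (fun r => if r ∈ insert q T then f r else 0) Y =
        Ds (fun r => (if r = q then f q else 0) + (if r ∈ T then f r else 0)) Y := by
      apply Ds_congr
      intro r _ _
      by_cases hr : r = q
      · subst hr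
        simp [hqT]
      · simp [hr]
    rw [h1]
    have ih' := ih (fun r hr => hT r (mem_insert_of_mem hr)) (fun r hr => hfq r (mem_insert_of_mem hr))
    refine (Ds_add_le (f := fun r => if r = q then f q else 0)
      (g := fun r => if r ∈ T then f r else 0) ?_ ?_ ?_ Y).trans ?_
    · intro r _
      split_ifs
      · exact hf q hq
      · exact le_rfl
    · intro r hr
      split_ifs
      · exact hf r hr
      · exact le_rfl
    · intro r _
      by_cases hr : r = q
      · subst hr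
        right
        simp [hqT]
      · left
        simp [hr]
    · rw [Finset.prod_insert hqT]
      have h0 : 0 ≤ Ds (fun r => if r ∈ T then f r else 0) Y := by
        apply Ds_nonneg
        intro r hr
        split_ifs
        · exact hf r hr
        · exact le_rfl
      refine mul_le_mul (Ds_single (hf q hq) hq (hfq q (mem_insert_self q T)) Y) ih' h0 ?_
      rw [inv_nonneg, sub_nonneg]
      have hq0 : (0 : ℝ) < q := by exact_mod_cast hq.pos
      exact ((div_lt_one hq0).mpr (hfq q (mem_insert_self q T))).le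

/-- The indicator function of a predicate, with real values. -/
noncomputable def ind (T : ℕ → Prop) : ℕ → ℝ := by
  classical
  exact fun q => if T q then 1 else 0

theorem ind_of {T : ℕ → Prop} {q : ℕ} (h : T q) : ind T q = 1 := by
  unfold ind
  simp [h]

theorem ind_of_not {T : ℕ → Prop} {q : ℕ} (h : ¬ T q) : ind T q = 0 := by
  unfold ind
  simp [h]

theorem ind_nonneg (T : ℕ → Prop) (q : ℕ) : 0 ≤ ind T q := by
  by_cases h : T q
  · rw [ind_of h]; norm_num
  · rw [ind_of_not h]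

theorem ind_le_one (T : ℕ → Prop) (q : ℕ) : ind T q ≤ 1 := by
  by_cases h : T q
  · rw [ind_of h]
  · rw [ind_of_not h]; norm_num

theorem ind_mono {T U : ℕ → Prop} {q : ℕ} (h : T q → U q) : ind T q ≤ ind U q := by
  by_cases hT : T q
  · rw [ind_of hT, ind_of (h hT)]
  · rw [ind_of_not hT]; exact ind_nonneg U q

theorem ind_iff {T U : ℕ → Prop} {q : ℕ} (h : T q ↔ U q) : ind T q = ind U q := by
  by_cases hT : T q
  · rw [ind_of hT, ind_of (h.mp hT)]
  · rw [ind_of_not hT, ind_of_not (fun hU => hT (h.mpr hU))]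

/-- Lower bound by the complement. -/
theorem log_le_mul (T : ℕ → Prop) (Y : ℕ) :
    Real.log (Y + 1) ≤ Ds (ind T) Y * Ds (ind fun q => ¬ T q) Y := by
  refine (log_le_Ds_one Y).trans ?_
  have h1 : Ds (fun _ => 1) Y = Ds (fun q => ind T q + ind (fun q => ¬ T q) q) Y := by
    apply Ds_congr
    intro q _ _
    by_cases h : T q
    · rw [ind_of h, ind_of_not (not_not.mpr h), add_zero]
    · rw [ind_of_not h, ind_of (T := fun q => ¬ T q) h, zero_add]
  rw [h1]
  refine Ds_add_le (fun q _ => ind_nonneg T q) (fun q _ => ind_nonneg _ q) ?_ Y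
  intro q _
  by_cases h : T q
  · right; exact ind_of_not (not_not.mpr h)
  · left; exact ind_of_not h

/-- Integers without prime factors up to `z`. -/
theorem rough_le {z : ℕ} (hz : 2 ≤ z) (Y : ℕ) (hY : 1 ≤ Y) :
    Ds (ind fun q => z < q) Y ≤ (1 + Real.log z + Real.log Y) / Real.log z := by
  have hlz : 0 < Real.log z := Real.log_pos (by exact_mod_cast (by omega : 1 < z))
  rw [le_div_iff₀ hlz]
  have h1 := Ds_mul_le (f := ind fun q => z < q) (g := ind fun q => ¬ z < q)
    (fun q _ => ind_nonneg _ q) (fun q _ => ind_nonneg _ q) Y z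
  have h2 : Ds (fun q => ind (fun q => z < q) q + ind (fun q => ¬ z < q) q) (Y * z) =
      Ds (fun _ => 1) (Y * z) := by
    apply Ds_congr
    intro q _ _
    by_cases h : z < q
    · rw [ind_of (T := fun q => z < q) h, ind_of_not (T := fun q => ¬ z < q) (not_not.mpr h),
        add_zero]
    · rw [ind_of_not (T := fun q => z < q) h, ind_of (T := fun q => ¬ z < q) h, zero_add]
  have h3 : Ds (ind fun q => ¬ z < q) z = Ds (fun _ => 1) z := by
    apply Ds_congr
    intro q _ hq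
    exact ind_of (T := fun q => ¬ z < q) (by omega)
  rw [h2, h3] at h1
  have h4 := Ds_one_le (Y * z)
  have h5 : Real.log ((Y * z : ℕ) : ℝ) = Real.log Y + Real.log z := by
    push_cast
    rw [Real.log_mul]
    · exact_mod_cast (by omega : Y ≠ 0)
    · exact_mod_cast (by omega : z ≠ 0)
  rw [h5] at h4
  have h6 : Real.log z ≤ Ds (fun _ => 1) z := by
    refine le_trans ?_ (log_le_Ds_one z)
    apply Real.log_le_log
    · exact_mod_cast (by omega : 0 < z)
    · linarith
  calc Ds (ind fun q => z < q) Y * Real.log z ≤ Ds (ind fun q => z < q) Y * Ds (fun _ => 1) z :=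
        mul_le_mul_of_nonneg_left h6 (Ds_nonneg (fun q _ => ind_nonneg _ q) Y)
    _ ≤ 1 + Real.log z + Real.log Y := by linarith

/-- Enlarging a set of primes by a finite exceptional set. -/
theorem Ds_or_le (T : ℕ → Prop) (E : Finset ℕ) (Y : ℕ) :
    Ds (ind fun q => q ∈ E ∨ T q) Y ≤ 2 ^ E.card * Ds (ind T) Y := by
  classical
  have h1 : Ds (ind fun q => q ∈ E ∨ T q) Y ≤
      Ds (fun q => (if q ∈ E.filter Nat.Prime then (1 : ℝ) else 0) +
        ind (fun q => q ∉ E ∧ T q) q) Y := by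
    apply Ds_mono_left (fun q _ => ind_nonneg _ q)
    intro q hq
    by_cases hE : q ∈ E
    · rw [if_pos (mem_filter.mpr ⟨hE, hq⟩)]
      have := ind_le_one (fun q => q ∈ E ∨ T q) q
      have := ind_nonneg (fun q => q ∉ E ∧ T q) q
      linarith
    · rw [if_neg (fun h => hE (mem_filter.mp h).1), zero_add]
      apply ind_mono
      rintro (h | h)
      · exact absurd h hE
      · exact ⟨hE, h⟩
  refine h1.trans ?_
  have hE0 : ∀ q : ℕ, q.Prime → 0 ≤ (fun q => if q ∈ E.filter Nat.Prime then (1 : ℝ) else 0) q := by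
    intro q _
    simp only
    split_ifs <;> norm_num
  refine (Ds_add_le hE0 (fun q _ => ind_nonneg _ q) ?_ Y).trans ?_
  · intro q hq
    by_cases hE : q ∈ E
    · right
      exact ind_of_not (T := fun q => q ∉ E ∧ T q) (fun h => h.1 hE)
    · left
      simp [hE]
  · have h2 := Ds_le_prod (f := fun _ => (1 : ℝ)) (fun q _ => zero_le_one) (E.filter Nat.Prime)
      (fun q hq => (mem_filter.mp hq).2) (fun q hq => by
        have := (mem_filter.mp hq).2.one_lt
        exact_mod_cast this) Y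
    have h3 : ∏ q ∈ E.filter Nat.Prime, (1 - (1 : ℝ) / q)⁻¹ ≤ 2 ^ E.card := by
      refine (Finset.prod_le_prod (g := fun _ => (2 : ℝ)) ?_ ?_).trans ?_
      · intro q hq
        have hq := (mem_filter.mp hq).2
        have : (1 : ℝ) < q := by exact_mod_cast hq.one_lt
        rw [inv_nonneg, sub_nonneg, div_le_one (by linarith)]
        exact this.le
      · intro q hq
        have hq := (mem_filter.mp hq).2
        have : (2 : ℝ) ≤ q := by exact_mod_cast hq.two_le
        have h4 : (1 : ℝ) / q ≤ 1 / 2 := one_div_le_one_div_of_le (by norm_num) this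
        rw [inv_le_comm₀ (by linarith) (by norm_num)]
        linarith
      · rw [Finset.prod_const]
        exact pow_le_pow_right₀ (by norm_num) (Finset.card_filter_le _ _)
    refine mul_le_mul (h2.trans h3) ?_ (Ds_nonneg (fun q _ => ind_nonneg _ q) Y) (by positivity)
    apply Ds_mono_left (fun q _ => ind_nonneg _ q)
    intro q _
    apply ind_mono
    exact fun h => h.2

end Pool.Agent.H99.ADS
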