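import Mathlib

/-!
# Completely multiplicative sums and real characters: definitions
-/

set_option autoImplicit false

namespace Pool.Agent.H99.ADS

/-- The completely multiplicative function with values `f q` at the primes `q`. -/
noncomputable def Fm (f : ℕ → ℝ) (m : ℕ) : ℝ := (m.primeFactorsList.map f).prod

/-- Its logarithmic summatory function. -/
noncomputable def Ds (f : ℕ → ℝ) (Y : ℕ) : ℝ := ∑ m ∈ Finset.Icc 1 Y, Fm f m / m

/-- The real character `m ↦ (a / m)` for odd `m`, and `0` for even `m`. -/
def chi (a : ℤ) (m : ℕ) : ℤ := if m % 2 = 1 then jacobiSym a m else 0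

end Pool.Agent.H99.ADS
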