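import Pool.Agent.H99.ADS.Invol
import Pool.Agent.H27.ADS.Struct

/-!
# Abelian affine difference sets of even order: elements of order three
-/

set_option autoImplicit false

namespace Pool.Agent.H99.ADS

open Finset Pool.Agent.H27.ADS

variable {G : Type} [AddCommGroup G] [Fintype G] [DecidableEq G]
variable {n : ℕ} {N : AddSubgroup G} {D : Finset G}

open Classical in
/-- For even `n` the fixed difference set misses the coset `N`. -/
theorem even_missing (h : IsADS n N D) (hf : Fixed n D) (heven : n % 2 = 0) :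
    univ \ (D.image (fun d => (QuotientAddGroup.mk d : G ⧸ N))) = {0} := by
  set im : Finset (G ⧸ N) := D.image (fun d => (QuotientAddGroup.mk d : G ⧸ N)) with him
  have hn := h.two_le
  have hnA : Adm n n := Adm.self (by omega)
  have himc : im.card = n := by
    rw [him, Finset.card_image_of_injOn (fun a ha b hb hab => mk_inj h ha hb hab), h.card_set]
  have huniv : (univ : Finset (G ⧸ N)).card = n + 1 := by
    rw [Finset.card_univ, ← Nat.card_eq_fintype_card]
    exact h.index_eq
  have hcompl : (univ \ im).card = 1 := by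
    rw [Finset.card_sdiff_of_subset (subset_univ im), himc, huniv]
    omega
  obtain ⟨c, hc⟩ := Finset.card_eq_one.mp hcompl
  have hcim : c ∉ im := by
    have : c ∈ univ \ im := by rw [hc]; exact mem_singleton_self c
    exact (mem_sdiff.mp this).2
  have h1 : -c ∉ im := by
    intro hmem
    rw [him, mem_image] at hmem
    obtain ⟨d, hd, hdc⟩ := hmem
    apply hcim
    rw [him, mem_image]
    refine ⟨n • d, hf n hnA d hd, ?_⟩
    rw [mk_nsmul, hdc, nsmul_quotient h, neg_neg]
  have h2 : -c ∈ univ \ im := mem_sdiff.mpr ⟨mem_univ _, h1⟩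
  rw [hc] at h2
  have h3 : -c = c := mem_singleton.mp h2
  have h4 : (2 : ℕ) • c = 0 := by
    rw [two_smul]
    nth_rewrite 1 [← h3]
    exact neg_add_cancel c
  have h5 : (n + 1) • c = 0 := by
    rw [add_smul, one_smul, nsmul_quotient h, neg_add_cancel]
  obtain ⟨k, hk⟩ : ∃ k, n = 2 * k := ⟨n / 2, by omega⟩
  have h6 : c = 0 := by
    rw [hk, add_smul, one_smul, mul_comm, mul_smul, h4, smul_zero, zero_add] at h5
    exact h5
  rw [hc, h6]

open Classical in
theorem even_card_fixed (h : IsADS n N D) (hf : Fixed n D) (heven : n % 2 = 0) {s t : ℕ}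
    (hs : Adm n s) (ht : Adm n t) :
    Nat.card (eqSub (G ⧸ N) s t) = (D.filter (fun d => d ∈ eqSub G s t)).card + 1 := by
  have hc := even_missing h hf heven
  set im : Finset (G ⧸ N) := D.image (fun d => (QuotientAddGroup.mk d : G ⧸ N)) with him
  have h0im : (0 : G ⧸ N) ∉ im := by
    have : (0 : G ⧸ N) ∈ univ \ im := by rw [hc]; exact mem_singleton_self _
    exact (mem_sdiff.mp this).2
  have hset : (univ.filter (fun y : G ⧸ N => y ∈ eqSub (G ⧸ N) s t)) =
      insert 0 ((D.filter (fun d => d ∈ eqSub G s t)).image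
        (fun d => (QuotientAddGroup.mk d : G ⧸ N))) := by
    ext y
    rw [mem_filter, mem_insert, mem_image, mem_eqSub]
    constructor
    · rintro ⟨-, hy⟩
      by_cases hyim : y ∈ im
      · right
        rw [him, mem_image] at hyim
        obtain ⟨d, hd, rfl⟩ := hyim
        refine ⟨d, ?_, rfl⟩
        rw [mem_filter, mem_eqSub]
        exact ⟨hd, mk_inj h (hf s hs d hd) (hf t ht d hd) (by rw [mk_nsmul, mk_nsmul, hy])⟩
      · left
        have h2 : y ∈ univ \ im := mem_sdiff.mpr ⟨mem_univ _, hyim⟩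
        rw [hc] at h2
        exact mem_singleton.mp h2
    · rintro (rfl | ⟨d, hd, rfl⟩)
      · exact ⟨mem_univ _, by rw [smul_zero, smul_zero]⟩
      · rw [mem_filter, mem_eqSub] at hd
        refine ⟨mem_univ _, ?_⟩
        rw [← mk_nsmul, ← mk_nsmul, hd.2]
  have h1 : Nat.card (eqSub (G ⧸ N) s t) =
      (univ.filter (fun y : G ⧸ N => y ∈ eqSub (G ⧸ N) s t)).card := by
    rw [Nat.card_eq_fintype_card, Fintype.card_subtype]
  rw [h1, hset, card_insert_of_notMem, Finset.card_image_of_injOn]
  · intro a ha b hb hab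
    rw [mem_coe, mem_filter] at ha hb
    exact mk_inj h ha.1 hb.1 hab
  · intro hmem
    rw [mem_image] at hmem
    obtain ⟨d, hd, hdc⟩ := hmem
    apply h0im
    rw [him, mem_image]
    exact ⟨d, (mem_filter.mp hd).1, hdc⟩

open Classical in
/-- For even `n` there are at most two elements of order three in the quotient. -/
theorem three_bound (h : IsADS n N D) (heven : n % 2 = 0) :
    Nat.card (eqSub (G ⧸ N) 3 0) ≤ 3 := by
  obtain ⟨D', hD, hf⟩ := exists_fixed h
  have hn := h.two_le
  have h2A : Adm n 2 := Adm.of_dvd (by omega) (Nat.dvd_of_mod_eq_zero heven)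
  have hnA : Adm n n := Adm.self (by omega)
  have h1 := even_card_fixed hD hf heven h2A hnA
  have h2 := (card_bound hD hf h2A hnA rfl).1
  set k := (D'.filter (fun d => d ∈ eqSub G 2 n)).card with hk
  have h3 : Nat.card (eqSub G 2 n) ≤ Nat.card (eqSub (G ⧸ N) 2 n) := by
    apply Nat.card_le_card_of_injective
      (fun g : eqSub G 2 n => (⟨QuotientAddGroup.mk (g : G), by
        have h4 := mem_eqSub.mp g.2
        rw [mem_eqSub, ← mk_nsmul, ← mk_nsmul, h4]⟩ : eqSub (G ⧸ N) 2 n))
    rintro ⟨a, ha⟩ ⟨b, hb⟩ hab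
    simp only [Subtype.mk.injEq] at hab ⊢
    rw [QuotientAddGroup.eq] at hab
    have h4 : -a + b ∈ eqSub G 2 n := (eqSub G 2 n).add_mem ((eqSub G 2 n).neg_mem ha) hb
    rw [mem_eqSub] at h4
    have h5 : (n - 1) • (-a + b) = 0 := by
      have h6 : Nat.card N • (⟨-a + b, hab⟩ : N) = 0 := card_nsmul_eq_zero'
      rw [h.card_sub] at h6
      have := congrArg (fun x : N => (x : G)) h6
      simpa using this
    have h6 : n • (-a + b) = -a + b := by
      conv_lhs => rw [show n = n - 1 + 1 by omega]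
      rw [add_smul, h5, zero_add, one_smul]
    rw [h6, two_smul] at h4
    have h7 : -a + b = 0 := by
      have := add_left_cancel (h4.trans (add_zero (-a + b)).symm)
      exact this
    exact (neg_add_eq_zero.mp h7)
  have h4 : k ≤ 2 := by
    by_contra hcon
    obtain ⟨j, hj⟩ : ∃ j, k = j + 3 := ⟨k - 3, by omega⟩
    rw [h1] at h3
    have h5 := h2.trans h3
    rw [hj] at h5
    have h6 : (j + 3) * (j + 3 - 1) = (j + 3) * (j + 2) := by congr 1
    rw [h6] at h5
    nlinarith
  have h5 : eqSub (G ⧸ N) 3 0 ≤ eqSub (G ⧸ N) 2 n := by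
    intro y hy
    rw [mem_eqSub, zero_smul] at hy
    rw [mem_eqSub, nsmul_quotient h]
    have : (2 : ℕ) • y + y = 0 := by
      rw [← hy, show (3 : ℕ) = 2 + 1 from rfl, add_smul, one_smul]
    exact eq_neg_of_add_eq_zero_left this
  have h6 := Nat.le_of_dvd Nat.card_pos (AddSubgroup.card_dvd_of_le h5)
  omega

/-- For even `n`, if `9` kills the quotient then `n ≤ 8`. -/
theorem nine_bound (h : IsADS n N D) (heven : n % 2 = 0)
    (h9 : ∀ y : G ⧸ N, (9 : ℕ) • y = 0) : n ≤ 8 := by
  have h3 := three_bound h heven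
  let φ : (G ⧸ N) →+ (G ⧸ N) := nsmulAddMonoidHom 3
  have hker : φ.ker ≤ eqSub (G ⧸ N) 3 0 := by
    intro y hy
    rw [AddMonoidHom.mem_ker] at hy
    rw [mem_eqSub, zero_smul]
    exact hy
  have hran : φ.range ≤ eqSub (G ⧸ N) 3 0 := by
    rintro z ⟨y, rfl⟩
    rw [mem_eqSub, zero_smul]
    change (3 : ℕ) • ((3 : ℕ) • y) = 0
    rw [← mul_smul]
    exact h9 y
  have h1 := (Nat.le_of_dvd Nat.card_pos (AddSubgroup.card_dvd_of_le hker)).trans h3
  have h2 := (Nat.le_of_dvd Nat.card_pos (AddSubgroup.card_dvd_of_le hran)).trans h3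
  have h4 : Nat.card φ.ker * Nat.card φ.range = Nat.card (G ⧸ N) := by
    rw [← AddSubgroup.index_ker, AddSubgroup.card_mul_index]
  have h5 : Nat.card (G ⧸ N) = n + 1 := h.index_eq
  have h6 := Nat.mul_le_mul h1 h2
  omega

end Pool.Agent.H99.ADS
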