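import Pool.Agent.H99.ADS.Even

/-!
# Small exponents are impossible for abelian affine difference sets of even order
-/

set_option autoImplicit false

namespace Pool.Agent.H99.ADS

open Finset Pool.Agent.H27.ADS

variable {G : Type} [AddCommGroup G] [Fintype G] [DecidableEq G]
variable {n : ℕ} {N : AddSubgroup G} {D : Finset G}

/-- Residues of integers with restricted prime factors. -/
theorem mod_closure (M : ℕ) (P S : ℕ → Prop) (h1 : P (1 % M))
    (hmul : ∀ r < M, P r → ∀ q, S q → P (r * q % M)) (hM : 0 < M) (m : ℕ) (hm0 : m ≠ 0)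
    (hm : ∀ q : ℕ, q.Prime → q ∣ m → S q) : P (m % M) := by
  induction m using Nat.strong_induction_on with
  | _ m ih =>
    by_cases hm1 : m = 1
    · subst hm1; exact h1
    · obtain ⟨q, hq, c, rfl⟩ := Nat.exists_prime_and_dvd hm1
      have hc : c ≠ 0 := by rintro rfl; simp at hm0
      have hlt : c < q * c := (Nat.lt_mul_iff_one_lt_left (Nat.pos_of_ne_zero hc)).mpr hq.one_lt
      have h2 := ih c hlt hc (fun r hr hrc => hm r hr (hrc.mul_left q))
      have h3 := hmul (c % M) (Nat.mod_lt _ hM) h2 q (hm q hq (Nat.dvd_mul_right q c))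
      have h4 : q * c % M = c % M * q % M := by
        rw [mul_comm]
        exact ((Nat.mod_modEq c M).mul_right q).symm
      rw [h4]
      exact h3

theorem sq_sub_one (n : ℕ) (hn : 2 ≤ n) : n ^ 2 - 1 = (n - 1) * (n + 1) := by
  obtain ⟨k, rfl⟩ : ∃ k, n = k + 1 := ⟨n - 1, by omega⟩
  have h3 : (k + 1) ^ 2 = k * (k + 1 + 1) + 1 := by ring
  rw [h3]
  simp

theorem prime_dvd_exponent (h : IsADS n N D) {q : ℕ} (hq : q.Prime) (hqn : q ∣ n ^ 2 - 1) :
    q ∣ AddMonoid.exponent G := by
  have : Fact q.Prime := ⟨hq⟩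
  rw [← h.card_group] at hqn
  obtain ⟨x, hx⟩ := exists_prime_addOrderOf_dvd_card' q hqn
  rw [← hx]
  exact AddMonoid.addOrder_dvd_exponent x

theorem exponent_dvd (h : IsADS n N D) : AddMonoid.exponent G ∣ n ^ 2 - 1 := by
  rw [← h.card_group]
  exact AddGroup.exponent_dvd_nat_card

theorem two_of_both {n q : ℕ} (hn : 2 ≤ n) (h1 : q ∣ n - 1) (h2 : q ∣ n + 1) : q ∣ 2 := by
  have h3 := Nat.dvd_sub h2 h1
  rwa [show n + 1 - (n - 1) = 2 by omega] at h3

theorem not_both {n q : ℕ} (heven : n % 2 = 0) (hn : 2 ≤ n) (hq : q.Prime) (h1 : q ∣ n - 1)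
    (h2 : q ∣ n + 1) : False := by
  have h3 := (Nat.prime_dvd_prime_iff_eq hq Nat.prime_two).mp (two_of_both hn h1 h2)
  subst h3
  omega

/-- only one prime is impossible -/
theorem one_prime {n w : ℕ} (heven : n % 2 = 0) (hn : 3 ≤ n)
    (hw : ∀ q : ℕ, q.Prime → q ∣ n ^ 2 - 1 → q = w) : False := by
  rw [sq_sub_one n (by omega)] at hw
  obtain ⟨q, hq, hqd⟩ := Nat.exists_prime_and_dvd (show n - 1 ≠ 1 by omega)
  obtain ⟨r, hr, hrd⟩ := Nat.exists_prime_and_dvd (show n + 1 ≠ 1 by omega)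
  have h1 := hw q hq (hqd.mul_right _)
  have h2 := hw r hr (hrd.mul_left _)
  rw [h1] at hqd hq
  rw [h2] at hrd
  exact not_both heven (by omega) hq hqd hrd

/-- two primes are impossible for squares -/
theorem two_primes_sq {m v w : ℕ} (heven : m % 2 = 0) (hm : 3 ≤ m)
    (hw : ∀ q : ℕ, q.Prime → q ∣ (m * m) ^ 2 - 1 → q = v ∨ q = w) : False := by
  have hfac : (m * m) ^ 2 - 1 = (m - 1) * (m + 1) * (m * m + 1) := by
    have h1 : (m * m) ^ 2 = (m * m) * (m * m) := sq _
    obtain ⟨k, rfl⟩ : ∃ k, m = k + 1 := ⟨m - 1, by omega⟩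
    rw [Nat.add_sub_cancel]
    have h3 : ((k + 1) * (k + 1)) ^ 2 = k * (k + 1 + 1) * ((k + 1) * (k + 1) + 1) + 1 := by ring
    rw [h3]
    simp
  rw [hfac] at hw
  have h9 : 9 ≤ m * m := Nat.mul_le_mul hm hm
  obtain ⟨q, hq, hqd⟩ := Nat.exists_prime_and_dvd (show m - 1 ≠ 1 by omega)
  obtain ⟨r, hr, hrd⟩ := Nat.exists_prime_and_dvd (show m + 1 ≠ 1 by omega)
  obtain ⟨s, hs, hsd⟩ := Nat.exists_prime_and_dvd (show m * m + 1 ≠ 1 by omega)
  have h1 := hw q hq ((hqd.mul_right _).mul_right _)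
  have h2 := hw r hr ((hrd.mul_left _).mul_right _)
  have h3 := hw s hs (hsd.mul_left _)
  have hodd : ∀ t : ℕ, t.Prime → t ∣ 2 → t ∣ m - 1 ∨ t ∣ m + 1 → False := by
    intro t ht ht2 htm
    have := (Nat.prime_dvd_prime_iff_eq ht Nat.prime_two).mp ht2
    subst this
    rcases htm with h | h <;> omega
  have hqr : q ≠ r := by
    rintro rfl
    exact hodd q hq (two_of_both (by omega) hqd hrd) (Or.inl hqd)
  have hmm : m * m - 1 = (m - 1) * (m + 1) := by
    obtain ⟨k, rfl⟩ : ∃ k, m = k + 1 := ⟨m - 1, by omega⟩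
    rw [Nat.add_sub_cancel]
    have h3 : (k + 1) * (k + 1) = k * (k + 1 + 1) + 1 := by ring
    omega
  have hqs : q ≠ s := by
    rintro rfl
    refine hodd q hq (two_of_both (n := m * m) (by omega) ?_ hsd) (Or.inl hqd)
    rw [hmm]; exact hqd.mul_right _
  have hrs : r ≠ s := by
    rintro rfl
    refine hodd r hr (two_of_both (n := m * m) (by omega) ?_ hsd) (Or.inr hrd)
    rw [hmm]; exact hrd.mul_left _
  omega

theorem prime_dvd_two_pow {q c : ℕ} (hqd : q ∣ 2 ^ c - 1) :
    (2 : ZMod q) ^ c = 1 := by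
  have h1 : 1 ≤ 2 ^ c := Nat.one_le_two_pow
  have h2 : ((2 ^ c - 1 : ℕ) : ZMod q) = 0 := (ZMod.natCast_eq_zero_iff _ _).mpr hqd
  rw [Nat.cast_sub h1] at h2
  push_cast at h2
  exact sub_eq_zero.mp h2

/-- the order of two is not a power of an odd prime -/
theorem prime_power_case {n ℓ i : ℕ} (hn : 2 ≤ n) (hℓ : ℓ.Prime) (hℓ2 : ℓ ≠ 2)
    (hw : ∀ q : ℕ, q.Prime → q ∣ n ^ 2 - 1 → q ∣ 2 ^ (ℓ ^ i) - 1) : False := by
  have hone : ∀ q : ℕ, q.Prime → q ∣ n ^ 2 - 1 → q % ℓ = 1 := by
    intro q hq hqn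
    have : Fact q.Prime := ⟨hq⟩
    have h1 := prime_dvd_two_pow (hw q hq hqn)
    have h2 : orderOf (2 : ZMod q) ∣ ℓ ^ i := orderOf_dvd_of_pow_eq_one h1
    obtain ⟨j, hj, hj2⟩ := (Nat.dvd_prime_pow hℓ).mp h2
    have h3 : orderOf (2 : ZMod q) ≠ 1 := by
      intro h4
      have h5 := orderOf_eq_one_iff.mp h4
      have h6 : ((1 : ℕ) : ZMod q) = 0 := by
        have : (2 : ZMod q) - 1 = 0 := by rw [h5]; ring
        push_cast
        calc (1 : ZMod q) = 2 - 1 := by ring
          _ = 0 := this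
      rw [ZMod.natCast_eq_zero_iff] at h6
      exact hq.one_lt.ne' (Nat.dvd_one.mp h6)
    have h4 : ℓ ∣ orderOf (2 : ZMod q) := by
      rw [hj2]
      rcases Nat.eq_zero_or_pos j with h0 | h0
      · rw [hj2, h0, pow_zero] at h3
        exact absurd rfl h3
      · exact dvd_pow_self ℓ (by omega)
    have h5 : (2 : ZMod q) ≠ 0 := by
      intro h6
      rw [h6, zero_pow (pow_ne_zero _ hℓ.ne_zero)] at h1
      exact zero_ne_one h1
    have h6 := h4.trans (ZMod.orderOf_dvd_card_sub_one h5)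
    obtain ⟨k, hk⟩ := h6
    have h7 : q = ℓ * k + 1 := by have := hq.two_le; omega
    rw [h7, Nat.mul_add_mod, Nat.mod_eq_of_lt hℓ.one_lt]
  rw [sq_sub_one n hn] at hone
  have hcl : ∀ m : ℕ, m ≠ 0 → m ∣ (n - 1) * (n + 1) → m % ℓ = 1 := by
    intro m hm0 hmd
    refine mod_closure ℓ (fun r => r = 1) (fun q => q % ℓ = 1) (Nat.mod_eq_of_lt hℓ.one_lt) ?_
      hℓ.pos m hm0 (fun q hq hqm => hone q hq (hqm.trans hmd))
    intro r _ hr q hq
    rw [hr, one_mul, hq]
  have h1 := hcl (n - 1) (by omega) (Nat.dvd_mul_right _ _)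
  have h2 := hcl (n + 1) (by omega) (Nat.dvd_mul_left _ _)
  have h3 : ℓ ∣ 2 := by
    have h4 : (n + 1) % ℓ = (n - 1) % ℓ := by rw [h1, h2]
    have h5 : ℓ ∣ (n + 1) - (n - 1) := (Nat.modEq_iff_dvd' (by omega)).mp h4.symm
    rwa [show n + 1 - (n - 1) = 2 by omega] at h5
  exact hℓ2 ((Nat.prime_dvd_prime_iff_eq hℓ Nat.prime_two).mp h3)

theorem prime_of_dvd_15 {q : ℕ} (hq : q.Prime) (h : q ∣ 15) : q = 3 ∨ q = 5 := by
  have h1 : q ∣ 3 * 5 := h
  rcases (Nat.Prime.dvd_mul hq).mp h1 with h2 | h2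
  · left; exact (Nat.prime_dvd_prime_iff_eq hq Nat.prime_three).mp h2
  · right; exact (Nat.prime_dvd_prime_iff_eq hq Nat.prime_five).mp h2

theorem prime_of_dvd_63 {q : ℕ} (hq : q.Prime) (h : q ∣ 63) : q = 3 ∨ q = 7 := by
  have h1 : q ∣ 3 * 3 * 7 := h
  rcases (Nat.Prime.dvd_mul hq).mp h1 with h2 | h2
  · rcases (Nat.Prime.dvd_mul hq).mp h2 with h3 | h3
    · left; exact (Nat.prime_dvd_prime_iff_eq hq Nat.prime_three).mp h3
    · left; exact (Nat.prime_dvd_prime_iff_eq hq Nat.prime_three).mp h3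
  · right; exact (Nat.prime_dvd_prime_iff_eq hq (by norm_num)).mp h2

theorem prime_of_dvd_85 {q : ℕ} (hq : q.Prime) (h : q ∣ 85) : q = 5 ∨ q = 17 := by
  have h1 : q ∣ 5 * 17 := h
  rcases (Nat.Prime.dvd_mul hq).mp h1 with h2 | h2
  · left; exact (Nat.prime_dvd_prime_iff_eq hq Nat.prime_five).mp h2
  · right; exact (Nat.prime_dvd_prime_iff_eq hq (by norm_num)).mp h2

theorem prime_of_dvd_255 {q : ℕ} (hq : q.Prime) (h : q ∣ 255) : q = 3 ∨ q = 5 ∨ q = 17 := by
  have h1 : q ∣ 3 * 85 := h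
  rcases (Nat.Prime.dvd_mul hq).mp h1 with h2 | h2
  · left; exact (Nat.prime_dvd_prime_iff_eq hq Nat.prime_three).mp h2
  · right; exact prime_of_dvd_85 hq h2

theorem isOrder_of (h : IsADS n N D) : IsOrder n := ⟨G, inferInstance, inferInstance,
  inferInstance, N, D, h⟩

/-- exponent dividing 15 -/
theorem case_15 (h : IsADS n N D) (heven : n % 2 = 0) (hn : 16 < n)
    (hw : ∀ q : ℕ, q.Prime → q ∣ n ^ 2 - 1 → q ∣ 15) : False := by
  by_cases hsq : IsSquare n
  · obtain ⟨m, rfl⟩ := hsq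
    have hm2 : m % 2 = 0 := by
      rw [Nat.mul_mod] at heven
      rcases Nat.mod_two_eq_zero_or_one m with h1 | h1
      · exact h1
      · rw [h1] at heven; omega
    have hm : 3 ≤ m := by by_contra hcon; have : m ≤ 2 := by omega
                          have := Nat.mul_le_mul this this; omega
    exact two_primes_sq hm2 hm fun q hq hqd => prime_of_dvd_15 hq (hw q hq hqd)
  · obtain ⟨q, hq, hqd⟩ := Nat.exists_prime_and_dvd (show n - 1 ≠ 1 by omega)
    have h1 := (isOrder_of h).even_case hsq heven hq hqd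
    have h2 : q ∣ n ^ 2 - 1 := by rw [sq_sub_one n (by omega)]; exact hqd.mul_right _
    rcases prime_of_dvd_15 hq (hw q hq h2) with h3 | h3 <;> omega

/-- exponent dividing 85 -/
theorem case_85 (h : IsADS n N D) (heven : n % 2 = 0) (hn : 16 < n)
    (hw : ∀ q : ℕ, q.Prime → q ∣ n ^ 2 - 1 → q ∣ 85) : False := by
  by_cases hsq : IsSquare n
  · obtain ⟨m, rfl⟩ := hsq
    have hm2 : m % 2 = 0 := by
      rw [Nat.mul_mod] at heven
      rcases Nat.mod_two_eq_zero_or_one m with h1 | h1
      · exact h1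
      · rw [h1] at heven; omega
    have hm : 3 ≤ m := by by_contra hcon; have : m ≤ 2 := by omega
                          have := Nat.mul_le_mul this this; omega
    exact two_primes_sq hm2 hm fun q hq hqd => prime_of_dvd_85 hq (hw q hq hqd)
  · rw [sq_sub_one n (by omega)] at hw
    have h17 : ∀ q : ℕ, q.Prime → q ∣ n - 1 → q = 17 := by
      intro q hq hqd
      have h1 := (isOrder_of h).even_case hsq heven hq hqd
      rcases prime_of_dvd_85 hq (hw q hq (hqd.mul_right _)) with h3 | h3 <;> omega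
    obtain ⟨q, hq, hqd⟩ := Nat.exists_prime_and_dvd (show n - 1 ≠ 1 by omega)
    have hd := h17 q hq hqd
    rw [hd] at hqd
    have h5 : ∀ q : ℕ, q.Prime → q ∣ n + 1 → q = 5 := by
      intro q hq' hqd'
      rcases prime_of_dvd_85 hq' (hw q hq' (hqd'.mul_left _)) with h3 | h3
      · exact h3
      · rw [h3] at hqd'
        exact (not_both heven (by omega) (by norm_num) hqd hqd').elim
    have h1 : (n - 1) % 8 = 1 := mod_closure 8 (fun r => r = 1) (fun q => q = 17) rfl
      (by rintro r - rfl q rfl; rfl) (by norm_num) (n - 1) (by omega) h17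
    have h2 : (n + 1) % 8 = 1 ∨ (n + 1) % 8 = 5 :=
      mod_closure 8 (fun r => r = 1 ∨ r = 5) (fun q => q = 5) (Or.inl rfl)
      (by rintro r - (rfl | rfl) q rfl <;> simp) (by norm_num) (n + 1) (by omega) h5
    omega

/-- exponent dividing 63 -/
theorem case_63 (h : IsADS n N D) (heven : n % 2 = 0) (hn : 16 < n)
    (he : AddMonoid.exponent G ∣ 63) : False := by
  have hw : ∀ q : ℕ, q.Prime → q ∣ n ^ 2 - 1 → q = 3 ∨ q = 7 := fun q hq hqd =>
    prime_of_dvd_63 hq ((prime_dvd_exponent h hq hqd).trans he)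
  by_cases hsq : IsSquare n
  · obtain ⟨m, rfl⟩ := hsq
    have hm2 : m % 2 = 0 := by
      rw [Nat.mul_mod] at heven
      rcases Nat.mod_two_eq_zero_or_one m with h1 | h1
      · exact h1
      · rw [h1] at heven; omega
    have hm : 3 ≤ m := by by_contra hcon; have : m ≤ 2 := by omega
                          have := Nat.mul_le_mul this this; omega
    exact two_primes_sq hm2 hm hw
  · rw [sq_sub_one n (by omega)] at hw
    obtain ⟨q, hq, hqd⟩ := Nat.exists_prime_and_dvd (show n - 1 ≠ 1 by omega)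
    have h1 := (isOrder_of h).even_case hsq heven hq hqd
    have h7 : q = 7 := by
      rcases hw q hq (hqd.mul_right _) with h3 | h3 <;> omega
    rw [h7] at hqd
    have h7' : ¬ 7 ∣ n + 1 := fun hc => not_both heven (by omega) (by norm_num) hqd hc
    have h9 : ∀ y : G ⧸ N, (9 : ℕ) • y = 0 := by
      intro y
      have h2 : (n + 1) • y = 0 := by
        rw [add_smul, one_smul, nsmul_quotient h, neg_add_cancel]
      have h3 : (63 : ℕ) • y = 0 := by
        obtain ⟨g, rfl⟩ := QuotientAddGroup.mk_surjective y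
        obtain ⟨c, hc⟩ := he
        rw [← mk_nsmul, hc, mul_comm, mul_smul, AddMonoid.exponent_nsmul_eq_zero, smul_zero]
        rfl
      have h4 : addOrderOf y ∣ 63 := addOrderOf_dvd_of_nsmul_eq_zero h3
      have h5 : addOrderOf y ∣ n + 1 := addOrderOf_dvd_of_nsmul_eq_zero h2
      have h6 : Nat.Coprime (addOrderOf y) 7 := by
        rw [Nat.coprime_comm, Nat.Prime.coprime_iff_not_dvd (by norm_num)]
        exact fun hc => h7' (hc.trans h5)
      have h8 : addOrderOf y ∣ 9 := by
        apply Nat.Coprime.dvd_of_dvd_mul_right h6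
        exact h4
      exact addOrderOf_dvd_iff_nsmul_eq_zero.mp h8
    have := nine_bound h heven h9
    omega

/-- residues of products of `3` and `5` modulo `136` -/
def P136 (r : ℕ) : Bool :=
  ((r % 8 == 1 || r % 8 == 7) && (r % 17 ∈ [1, 2, 4, 8, 9, 13, 15, 16])) ||
  ((r % 8 == 3 || r % 8 == 5) && (r % 17 ∈ [3, 5, 6, 7, 10, 11, 12, 14]))

/-- residues of powers of `5` modulo `272` -/
def L272 : List ℕ := [1, 5, 25, 125, 81, 133, 121, 61, 33, 165, 9, 45, 225, 37, 185, 109]

/-- residues of powers of `5` modulo `504` -/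
def L504 : List ℕ := [1, 5, 25, 125, 121, 101]

/-- residues of powers of `3` modulo `56` -/
def L56 : List ℕ := [1, 3, 9, 27, 25, 19]

theorem closed136 : ∀ r < 136, P136 r = true → ∀ q, (q = 3 ∨ q = 5) → P136 (r * q % 136) = true := by
  intro r hr hP q hq
  rcases hq with rfl | rfl
  · revert hP; revert hr; revert r; decide
  · revert hP; revert hr; revert r; decide

theorem closed272 : ∀ r < 272, r ∈ L272 → ∀ q, q = 5 → r * q % 272 ∈ L272 := by
  have key : ∀ r ∈ L272, r * 5 % 272 ∈ L272 := by decide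
  rintro r - hP q rfl
  exact key r hP

theorem closed504 : ∀ r < 504, r ∈ L504 → ∀ q, q = 5 → r * q % 504 ∈ L504 := by
  have key : ∀ r ∈ L504, r * 5 % 504 ∈ L504 := by decide
  rintro r - hP q rfl
  exact key r hP

theorem closed56 : ∀ r < 56, r ∈ L56 → ∀ q, q = 3 → r * q % 56 ∈ L56 := by
  have key : ∀ r ∈ L56, r * 3 % 56 ∈ L56 := by decide
  rintro r - hP q rfl
  exact key r hP

/-- exponent dividing 255 -/
theorem case_255 (h : IsADS n N D) (heven : n % 2 = 0) (hn : 16 < n)
    (hw : ∀ q : ℕ, q.Prime → q ∣ n ^ 2 - 1 → q ∣ 255) : False := by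
  have hw' : ∀ q : ℕ, q.Prime → q ∣ n ^ 2 - 1 → q = 3 ∨ q = 5 ∨ q = 17 :=
    fun q hq hqd => prime_of_dvd_255 hq (hw q hq hqd)
  by_cases hsq : IsSquare n
  · obtain ⟨m, rfl⟩ := hsq
    have hm2 : m % 2 = 0 := by
      rw [Nat.mul_mod] at heven
      rcases Nat.mod_two_eq_zero_or_one m with h1 | h1
      · exact h1
      · rw [h1] at heven; omega
    have hm5 : 5 ≤ m := by
      by_contra hcon
      have h4 : m ≤ 4 := by omega
      have := Nat.mul_le_mul h4 h4
      omega
    have hmm : m * m - 1 = (m - 1) * (m + 1) := by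
      obtain ⟨k, rfl⟩ : ∃ k, m = k + 1 := ⟨m - 1, by omega⟩
      rw [Nat.add_sub_cancel]
      have h3 : (k + 1) * (k + 1) = k * (k + 1 + 1) + 1 := by ring
      omega
    rw [sq_sub_one (m * m) (by omega), hmm] at hw'
    have hA : ∀ q : ℕ, q.Prime → q ∣ m - 1 → q = 3 ∨ q = 5 ∨ q = 17 := fun q hq hqd =>
      hw' q hq ((hqd.mul_right _).mul_right _)
    have hB : ∀ q : ℕ, q.Prime → q ∣ m + 1 → q = 3 ∨ q = 5 ∨ q = 17 := fun q hq hqd =>
      hw' q hq ((hqd.mul_left _).mul_right _)
    have hC : ∀ q : ℕ, q.Prime → q ∣ m * m + 1 → q = 3 ∨ q = 5 ∨ q = 17 := fun q hq hqd =>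
      hw' q hq (hqd.mul_left _)
    have hAB : ∀ q : ℕ, q.Prime → q ∣ m - 1 → q ∣ m + 1 → False := fun q hq h1 h2 =>
      not_both hm2 (by omega) hq h1 h2
    have hAC : ∀ q : ℕ, q.Prime → q ∣ m - 1 → q ∣ m * m + 1 → False := fun q hq h1 h2 =>
      not_both heven (by omega) hq (by rw [hmm]; exact h1.mul_right _) h2
    have hBC : ∀ q : ℕ, q.Prime → q ∣ m + 1 → q ∣ m * m + 1 → False := fun q hq h1 h2 =>
      not_both heven (by omega) hq (by rw [hmm]; exact h1.mul_left _) h2
    have hC3 : ¬ 3 ∣ m * m + 1 := by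
      intro hc
      have h1 : (m * m + 1) % 3 = 0 := Nat.mod_eq_zero_of_dvd hc
      have h2 : m % 3 = 0 ∨ m % 3 = 1 ∨ m % 3 = 2 := by omega
      rcases h2 with h2 | h2 | h2 <;> simp [Nat.add_mod, Nat.mul_mod, h2] at h1
    have p3 : Nat.Prime 3 := by norm_num
    have p5 : Nat.Prime 5 := by norm_num
    have p17 : Nat.Prime 17 := by norm_num
    obtain ⟨qa, hqa, hqad⟩ := Nat.exists_prime_and_dvd (show m - 1 ≠ 1 by omega)
    obtain ⟨qb, hqb, hqbd⟩ := Nat.exists_prime_and_dvd (show m + 1 ≠ 1 by omega)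
    obtain ⟨qc, hqc, hqcd⟩ := Nat.exists_prime_and_dvd (show m * m + 1 ≠ 1 by omega)
    by_cases h5 : 5 ∣ m * m + 1
    · have h5A : ¬ 5 ∣ m - 1 := fun hc => hAC 5 p5 hc h5
      have h5B : ¬ 5 ∣ m + 1 := fun hc => hBC 5 p5 hc h5
      by_cases h17 : 17 ∣ m * m + 1
      · have h17A : ¬ 17 ∣ m - 1 := fun hc => hAC 17 p17 hc h17
        have h17B : ¬ 17 ∣ m + 1 := fun hc => hBC 17 p17 hc h17
        have ha : qa = 3 := by
          rcases hA qa hqa hqad with h1 | h1 | h1
          · exact h1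
          · exact absurd (h1 ▸ hqad) h5A
          · exact absurd (h1 ▸ hqad) h17A
        have hb : qb = 3 := by
          rcases hB qb hqb hqbd with h1 | h1 | h1
          · exact h1
          · exact absurd (h1 ▸ hqbd) h5B
          · exact absurd (h1 ▸ hqbd) h17B
        exact hAB 3 p3 (ha ▸ hqad) (hb ▸ hqbd)
      · have hC5 : ∀ q : ℕ, q.Prime → q ∣ m * m + 1 → q = 5 := by
          intro q hq hqd
          rcases hC q hq hqd with h1 | h1 | h1
          · exact absurd (h1 ▸ hqd) hC3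
          · exact h1
          · exact absurd (h1 ▸ hqd) h17
        by_cases h3 : 3 ∣ m - 1
        · have h3B : ¬ 3 ∣ m + 1 := fun hc => hAB 3 p3 h3 hc
          have hB17 : ∀ q : ℕ, q.Prime → q ∣ m + 1 → q = 17 := by
            intro q hq hqd
            rcases hB q hq hqd with h1 | h1 | h1
            · exact absurd (h1 ▸ hqd) h3B
            · exact absurd (h1 ▸ hqd) h5B
            · exact h1
          have h17B : 17 ∣ m + 1 := (hB17 qb hqb hqbd) ▸ hqbd
          have h17A : ¬ 17 ∣ m - 1 := fun hc => hAB 17 p17 hc h17B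
          have hA3 : ∀ q : ℕ, q.Prime → q ∣ m - 1 → q = 3 := by
            intro q hq hqd
            rcases hA q hq hqd with h1 | h1 | h1
            · exact h1
            · exact absurd (h1 ▸ hqd) h5A
            · exact absurd (h1 ▸ hqd) h17A
          have e1 : (m + 1) % 8 = 1 := mod_closure 8 (fun r => r = 1) (fun q => q = 17) rfl
            (by rintro r - rfl q rfl; rfl) (by norm_num) (m + 1) (by omega) hB17
          have e2 : (m - 1) % 8 = 1 ∨ (m - 1) % 8 = 3 :=
            mod_closure 8 (fun r => r = 1 ∨ r = 3) (fun q => q = 3) (Or.inl rfl)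
            (by rintro r - (rfl | rfl) q rfl <;> simp) (by norm_num) (m - 1) (by omega) hA3
          omega
        · have hA17 : ∀ q : ℕ, q.Prime → q ∣ m - 1 → q = 17 := by
            intro q hq hqd
            rcases hA q hq hqd with h1 | h1 | h1
            · exact absurd (h1 ▸ hqd) h3
            · exact absurd (h1 ▸ hqd) h5A
            · exact h1
          have h17A : 17 ∣ m - 1 := (hA17 qa hqa hqad) ▸ hqad
          have e1 : (m - 1) % 16 = 1 := mod_closure 16 (fun r => r = 1) (fun q => q = 17) rfl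
            (by rintro r - rfl q rfl; rfl) (by norm_num) (m - 1) (by omega) hA17
          have e2 : (m * m + 1) % 272 ∈ L272 :=
            mod_closure 272 (fun r => r ∈ L272) (fun q => q = 5) (by decide)
            closed272 (by norm_num) (m * m + 1) (by omega) hC5
          have e3 : m % 272 = 18 := by
            obtain ⟨c, hc⟩ := h17A
            omega
          have e4 : (m * m + 1) % 272 = 53 := by
            rw [Nat.add_mod, Nat.mul_mod, e3]
          rw [e4] at e2
          revert e2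
          decide
    · -- only 17 divides `m ^ 2 + 1`
      have hC17 : ∀ q : ℕ, q.Prime → q ∣ m * m + 1 → q = 17 := by
        intro q hq hqd
        rcases hC q hq hqd with h1 | h1 | h1
        · exact absurd (h1 ▸ hqd) hC3
        · exact absurd (h1 ▸ hqd) h5
        · exact h1
      have h17 : 17 ∣ m * m + 1 := (hC17 qc hqc hqcd) ▸ hqcd
      have h17A : ¬ 17 ∣ m - 1 := fun hc => hAC 17 p17 hc h17
      have h17B : ¬ 17 ∣ m + 1 := fun hc => hBC 17 p17 hc h17
      have e1 : (m * m + 1) % 16 = 1 := mod_closure 16 (fun r => r = 1) (fun q => q = 17) rfl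
        (by rintro r - rfl q rfl; rfl) (by norm_num) (m * m + 1) (by omega) hC17
      have e2 : m % 4 = 0 := by
        have key : ∀ r < 16, (r * r + 1) % 16 = 1 → r % 4 = 0 := by decide
        have h1 : ((m % 16) * (m % 16) + 1) % 16 = 1 := by
          rw [Nat.add_mod, ← Nat.mul_mod, ← Nat.add_mod]
          exact e1
        have h2 := key (m % 16) (Nat.mod_lt _ (by norm_num)) h1
        omega
      by_cases h3 : 3 ∣ m - 1
      · have h3B : ¬ 3 ∣ m + 1 := fun hc => hAB 3 p3 h3 hc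
        have hB5 : ∀ q : ℕ, q.Prime → q ∣ m + 1 → q = 5 := by
          intro q hq hqd
          rcases hB q hq hqd with h1 | h1 | h1
          · exact absurd (h1 ▸ hqd) h3B
          · exact h1
          · exact absurd (h1 ▸ hqd) h17B
        have h5B : 5 ∣ m + 1 := (hB5 qb hqb hqbd) ▸ hqbd
        have h5A : ¬ 5 ∣ m - 1 := fun hc => hAB 5 p5 hc h5B
        have hA3 : ∀ q : ℕ, q.Prime → q ∣ m - 1 → q = 3 := by
          intro q hq hqd
          rcases hA q hq hqd with h1 | h1 | h1
          · exact h1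
          · exact absurd (h1 ▸ hqd) h5A
          · exact absurd (h1 ▸ hqd) h17A
        -- `9` divides `m - 1`
        obtain ⟨u, hu⟩ := h3
        have hu1 : u ≠ 1 := by rintro rfl; omega
        obtain ⟨qu, hqu, hqud⟩ := Nat.exists_prime_and_dvd hu1
        have hu3 : qu = 3 := hA3 qu hqu (hu ▸ hqud.mul_left 3)
        rw [hu3] at hqud
        obtain ⟨v, hv⟩ := hqud
        have hv0 : v ≠ 0 := by rintro rfl; omega
        have hV3 : ∀ q : ℕ, q.Prime → q ∣ v → q = 3 := by
          intro q hq hqd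
          apply hA3 q hq
          rw [hu, hv]
          exact (hqd.mul_left 3).mul_left 3
        have e3 : v % 56 ∈ L56 :=
          mod_closure 56 (fun r => r ∈ L56) (fun q => q = 3) (by decide)
            closed56 (by norm_num) v hv0 hV3
        have e4 : (m + 1) % 504 ∈ L504 :=
          mod_closure 504 (fun r => r ∈ L504) (fun q => q = 5) (by decide)
            closed504 (by norm_num) (m + 1) (by omega) hB5
        have e5 : (m + 1) % 504 = (9 * (v % 56) + 2) % 504 := by omega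
        rw [e5] at e4
        have key : ∀ r ∈ L56, ¬ (9 * r + 2) % 504 ∈ L504 := by decide
        exact key _ e3 e4
      · have hA5 : ∀ q : ℕ, q.Prime → q ∣ m - 1 → q = 5 := by
          intro q hq hqd
          rcases hA q hq hqd with h1 | h1 | h1
          · exact absurd (h1 ▸ hqd) h3
          · exact h1
          · exact absurd (h1 ▸ hqd) h17A
        have e3 : (m - 1) % 4 = 1 := mod_closure 4 (fun r => r = 1) (fun q => q = 5) rfl
          (by rintro r - rfl q rfl; rfl) (by norm_num) (m - 1) (by omega) hA5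
        omega
  · rw [sq_sub_one n (by omega)] at hw'
    have h17 : ∀ q : ℕ, q.Prime → q ∣ n - 1 → q = 17 := by
      intro q hq hqd
      have h1 := (isOrder_of h).even_case hsq heven hq hqd
      rcases hw' q hq (hqd.mul_right _) with h3 | h3 | h3 <;> omega
    obtain ⟨q, hq, hqd⟩ := Nat.exists_prime_and_dvd (show n - 1 ≠ 1 by omega)
    have hd := h17 q hq hqd
    rw [hd] at hqd
    have h35 : ∀ q : ℕ, q.Prime → q ∣ n + 1 → q = 3 ∨ q = 5 := by
      intro q hq' hqd'
      rcases hw' q hq' (hqd'.mul_left _) with h3 | h3 | h3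
      · exact Or.inl h3
      · exact Or.inr h3
      · rw [h3] at hqd'
        exact (not_both heven (by omega) (by norm_num) hqd hqd').elim
    have h1 : (n - 1) % 8 = 1 := mod_closure 8 (fun r => r = 1) (fun q => q = 17) rfl
      (by rintro r - rfl q rfl; rfl) (by norm_num) (n - 1) (by omega) h17
    have h2 : P136 ((n + 1) % 136) = true :=
      mod_closure 136 (fun r => P136 r = true) (fun q => q = 3 ∨ q = 5) (by decide)
      closed136 (by norm_num) (n + 1) (by omega) h35
    have h3 : (n + 1) % 136 = 19 := by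
      obtain ⟨c, hc⟩ := hqd
      omega
    rw [h3] at h2
    revert h2
    decide

end Pool.Agent.H99.ADS
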