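import Pool.Agent.H27.ADS.Square

/-!
# The fixed translate and the Sidon property of the numerical multipliers

Some translate of an abelian affine difference set of order `n` is fixed by every positive integer
all of whose prime factors divide `n`.  For `n ≥ 7` these integers satisfy a Sidon property
modulo the exponent of the group.
-/

set_option autoImplicit false

namespace Pool.Agent.H99.ADS

open Finset Pool.Agent.H27.ADS

variable {G : Type} [AddCommGroup G] [Fintype G] [DecidableEq G]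
variable {n : ℕ} {N : AddSubgroup G} {D : Finset G}

/-- `t` is positive and all its prime factors divide `n`. -/
def Adm (n t : ℕ) : Prop := t ≠ 0 ∧ ∀ p : ℕ, p.Prime → p ∣ t → p ∣ n

theorem Adm.one (n : ℕ) : Adm n 1 :=
  ⟨one_ne_zero, fun _ hp hp1 => absurd (Nat.dvd_one.mp hp1) hp.one_lt.ne'⟩

theorem Adm.mul {n s t : ℕ} (hs : Adm n s) (ht : Adm n t) : Adm n (s * t) :=
  ⟨mul_ne_zero hs.1 ht.1, fun p hp hpd => (hp.dvd_mul.mp hpd).elim (hs.2 p hp) (ht.2 p hp)⟩

theorem Adm.pow {n s : ℕ} (hs : Adm n s) (k : ℕ) : Adm n (s ^ k) :=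
  ⟨pow_ne_zero _ hs.1, fun p hp hpd => hs.2 p hp (hp.dvd_of_dvd_pow hpd)⟩

theorem Adm.self {n : ℕ} (hn : n ≠ 0) : Adm n n := ⟨hn, fun _ _ h => h⟩

theorem Adm.of_dvd {n t : ℕ} (hn : n ≠ 0) (h : t ∣ n) : Adm n t :=
  ⟨fun h0 => hn (Nat.eq_zero_of_zero_dvd (h0 ▸ h)), fun _ _ hp => hp.trans h⟩

theorem translate (h : IsADS n N D) (c : G) : IsADS n N (D.image (fun d => d + c)) := by
  classical
  have key : ∀ g : G, (((D.image (fun d => d + c)) ×ˢ (D.image (fun d => d + c))).filter
      (fun p => p.1 - p.2 = g)).card = ((D ×ˢ D).filter (fun p => p.1 - p.2 = g)).card := by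
    intro g
    refine Finset.card_bij' (fun x _ => (x.1 - c, x.2 - c)) (fun x _ => (x.1 + c, x.2 + c))
      ?_ ?_ ?_ ?_
    · rintro ⟨a, b⟩ hx
      rw [mem_filter, mem_product, mem_image, mem_image] at hx
      obtain ⟨⟨⟨a', ha', hae⟩, ⟨b', hb', hbe⟩⟩, hab⟩ := hx
      simp only at hae hbe hab
      subst hae hbe
      simp only [add_sub_cancel_right, mem_filter, mem_product]
      exact ⟨⟨ha', hb'⟩, by simpa using hab⟩
    · rintro ⟨a, b⟩ hx
      rw [mem_filter, mem_product] at hx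
      simp only [mem_filter, mem_product, mem_image]
      exact ⟨⟨⟨a, hx.1.1, rfl⟩, ⟨b, hx.1.2, rfl⟩⟩, by simpa using hx.2⟩
    · rintro ⟨a, b⟩ _; simp
    · rintro ⟨a, b⟩ _; simp
  refine ⟨h.two_le, h.card_group, h.card_sub, ?_, ?_, ?_⟩
  · rw [Finset.card_image_of_injective _ (add_left_injective c), h.card_set]
  · intro g hg; rw [key, h.hit g hg]
  · intro g hg hg0; rw [key, h.miss g hg hg0]

theorem card_nsmul (h : IsADS n N D) (g : G) : (n ^ 2 - 1) • g = 0 := by
  rw [← h.card_group]; exact card_nsmul_eq_zero'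

theorem sq_nsmul (h : IsADS n N D) (g : G) : n • n • g = g := by
  have h1 := card_nsmul h g
  have h2 : 1 ≤ n ^ 2 := Nat.one_le_pow _ _ (by have := h.two_le; omega)
  rw [← mul_smul, ← sq]
  calc n ^ 2 • g = (n ^ 2 - 1 + 1) • g := by rw [Nat.sub_add_cancel h2]
    _ = g := by rw [add_smul, h1, one_smul, zero_add]

theorem nsmul_eq_zero (h : IsADS n N D) {t : ℕ} (ht : Adm n t) {g : G} (hg : t • g = 0) :
    g = 0 := by
  have h1 := h.card_coprime ht.2
  have h2 : addOrderOf g ∣ t := addOrderOf_dvd_of_nsmul_eq_zero hg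
  have h3 : addOrderOf g ∣ n ^ 2 - 1 := by
    rw [← h.card_group]; exact addOrderOf_dvd_natCard g
  have h4 : addOrderOf g = 1 := Nat.eq_one_of_dvd_coprimes h1 h2 h3
  exact AddMonoid.addOrderOf_eq_one_iff.mp h4

theorem nsmul_inj (h : IsADS n N D) {t : ℕ} (ht : Adm n t) {a b : G} (hab : t • a = t • b) :
    a = b := by
  rw [← sub_eq_zero]
  apply nsmul_eq_zero h ht
  rw [smul_sub, hab, sub_self]

theorem coprime_succ (h : IsADS n N D) {t : ℕ} (ht : Adm n t) : Nat.Coprime t (n + 1) := by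
  have h1 := h.card_coprime ht.2
  have h2 : n + 1 ∣ n ^ 2 - 1 := by
    refine ⟨n - 1, ?_⟩
    have := h.two_le
    obtain ⟨m, rfl⟩ : ∃ m, n = m + 1 := ⟨n - 1, by omega⟩
    have h3 : (m + 1) ^ 2 = (m + 1 + 1) * m + 1 := by ring
    rw [h3]
    simp
  exact Nat.Coprime.coprime_dvd_right h2 h1

theorem nsmul_mem (h : IsADS n N D) {t : ℕ} (ht : Adm n t) (g : G) : t • g ∈ N ↔ g ∈ N :=
  h.nsmul_mem_iff (coprime_succ h ht) g

/-- `D` is mapped into itself by every admissible integer. -/
def Fixed (n : ℕ) (D : Finset G) : Prop := ∀ t : ℕ, Adm n t → ∀ d ∈ D, t • d ∈ D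

/-- Some translate of the affine difference set is fixed by all admissible integers. -/
theorem exists_fixed (h : IsADS n N D) : ∃ D' : Finset G, IsADS n N D' ∧ Fixed n D' := by
  obtain ⟨D₁, h₁, h0⟩ := h.exists_normalised
  set σ : G := ∑ d ∈ D₁, d with hσ
  set c : G := -(n • σ) with hc
  refine ⟨D₁.image (fun d => d + c), translate h₁ c, ?_⟩
  have hD' := translate h₁ c
  set D' := D₁.image (fun d => d + c) with hDD
  have hsum : ∑ d ∈ D', d = 0 := by
    rw [hDD, Finset.sum_image (fun a _ b _ hab => add_left_injective c hab), sum_add_distrib,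
      sum_const, h₁.card_set, ← hσ, hc, smul_neg, sq_nsmul h₁, add_neg_cancel]
  intro t ht
  obtain ⟨g, hg⟩ := h₁.multiplier h0 ht.1 ht.2
  have hmap : ∀ d ∈ D', t • d - (g + t • c - c) ∈ D' := by
    intro d hd
    rw [hDD, mem_image] at hd ⊢
    obtain ⟨e, he, rfl⟩ := hd
    refine ⟨t • e - g, hg e he, ?_⟩
    rw [smul_add]
    abel
  set g' : G := g + t • c - c with hg'
  have hinj : Set.InjOn (fun d => t • d - g') (D' : Set G) := by
    intro a _ b _ hab
    exact nsmul_inj h ht (sub_left_injective hab)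
  have himg : D'.image (fun d => t • d - g') = D' := by
    apply Finset.eq_of_subset_of_card_le
    · intro x hx
      rw [mem_image] at hx
      obtain ⟨d, hd, rfl⟩ := hx
      exact hmap d hd
    · rw [Finset.card_image_of_injOn hinj]
  have h2 : ∑ d ∈ D', (t • d - g') = 0 := by
    rw [← Finset.sum_image (f := fun x => x) hinj, himg, hsum]
  rw [sum_sub_distrib, sum_const, ← Finset.smul_sum, hsum, smul_zero, zero_sub, neg_eq_zero,
    hD'.card_set] at h2
  have h3 : g' = 0 := by
    rw [← sq_nsmul h g', h2, smul_zero]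
  intro d hd
  have h4 := hmap d hd
  rwa [h3, sub_zero] at h4

omit [Fintype G] [DecidableEq G] in
theorem nsmul_eq_of_modEq {a b : ℕ} (hab : a ≡ b [MOD AddMonoid.exponent G]) (g : G) :
    a • g = b • g :=
  nsmul_eq_nsmul_iff_modEq.mpr (hab.of_dvd (AddMonoid.addOrder_dvd_exponent g))

/-- The basic dichotomy on elements of the fixed difference set. -/
theorem sidon_elem (h : IsADS n N D) (hf : Fixed n D) {t₁ t₂ t₃ t₄ : ℕ} (h₁ : Adm n t₁)
    (h₂ : Adm n t₂) (h₃ : Adm n t₃) (h₄ : Adm n t₄) {d : G} (hd : d ∈ D)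
    (hmod : (t₁ + t₄) • d = (t₂ + t₃) • d) : t₁ • d = t₂ • d ∨ t₁ • d = t₃ • d := by
  have h5 : t₁ • d - t₂ • d = t₃ • d - t₄ • d := by
    rw [add_smul, add_smul] at hmod
    rw [sub_eq_sub_iff_add_eq_add, hmod]
    abel
  by_cases hN : t₁ • d - t₂ • d ∈ N
  · left
    exact h.eq_of_sub_mem (hf t₁ h₁ d hd) (hf t₂ h₂ d hd) hN
  · right
    exact (h.uniq (hf t₁ h₁ d hd) (hf t₂ h₂ d hd) (hf t₃ h₃ d hd) (hf t₄ h₄ d hd) hN h5).1

/-- The subgroup on which `s` and `t` agree. -/
def eqSub (G : Type) [AddCommGroup G] (s t : ℕ) : AddSubgroup G where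
  carrier := {g | s • g = t • g}
  zero_mem' := by simp
  add_mem' := by
    intro a b ha hb
    simp only [Set.mem_ofPred_eq] at ha hb ⊢
    rw [smul_add, smul_add, ha, hb]
  neg_mem' := by
    intro a ha
    simp only [Set.mem_ofPred_eq] at ha ⊢
    rw [smul_neg, smul_neg, ha]

omit [Fintype G] [DecidableEq G] in
theorem mem_eqSub {s t : ℕ} {g : G} : g ∈ eqSub G s t ↔ s • g = t • g := Iff.rfl

/-- Two different elements of the fixed difference set in one coset of the subgroup on which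
two admissible integers agree lie in the subgroup. -/
theorem mem_of_sub_mem (h : IsADS n N D) (hf : Fixed n D) {s t : ℕ} (hs : Adm n s)
    (ht : Adm n t) {a b : G} (ha : a ∈ D) (hb : b ∈ D) (hab : a ≠ b)
    (hsub : a - b ∈ eqSub G s t) : a ∈ eqSub G s t ∧ b ∈ eqSub G s t := by
  rw [mem_eqSub, smul_sub, smul_sub] at hsub
  refine h.uniq (hf s hs a ha) (hf s hs b hb) (hf t ht a ha) (hf t ht b hb) (fun hc => hab ?_)
    hsub
  rw [← smul_sub, nsmul_mem h hs] at hc
  exact h.eq_of_sub_mem ha hb hc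

open Classical in
/-- The part of the difference set in such a subgroup is small or everything. -/
theorem card_bound (h : IsADS n N D) (hf : Fixed n D) {s t : ℕ} (hs : Adm n s) (ht : Adm n t)
    {k : ℕ} (hk : (D.filter (fun d => d ∈ eqSub G s t)).card = k) :
    (k * (k - 1) + 1 ≤ Nat.card (eqSub G s t)) ∧
      (k < n → (n - k + 1) * (k * (k - 1) + 1) ≤ n ^ 2 - 1) := by
  set A := eqSub G s t with hA
  have hlow : k * (k - 1) + 1 ≤ Nat.card A := by
    -- differences of distinct elements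
    have h1 : Set.InjOn (fun x : G × G => x.1 - x.2)
        ((D.filter (fun d => d ∈ A)).offDiag : Set (G × G)) := by
      rintro ⟨a, b⟩ hx ⟨c, d⟩ hy hxy
      rw [mem_coe, mem_offDiag, mem_filter, mem_filter] at hx hy
      simp only at hx hy hxy
      have h2 := h.uniq hx.1.1 hx.2.1.1 hy.1.1 hy.2.1.1
        (fun hc => hx.2.2 (h.eq_of_sub_mem hx.1.1 hx.2.1.1 hc)) hxy
      rw [h2.1, h2.2]
    have h2 := Finset.card_image_of_injOn h1
    rw [offDiag_card, hk] at h2
    have h3 : insert (0 : G) (((D.filter (fun d => d ∈ A)).offDiag).image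
        (fun x : G × G => x.1 - x.2)) ⊆ univ.filter (fun g => g ∈ A) := by
      intro g hg
      rw [mem_insert, mem_image] at hg
      rw [mem_filter]
      refine ⟨mem_univ _, ?_⟩
      rcases hg with rfl | ⟨x, hx, rfl⟩
      · exact A.zero_mem
      · rw [mem_offDiag, mem_filter, mem_filter] at hx
        exact A.sub_mem hx.1.2 hx.2.1.2
    have h4 := Finset.card_le_card h3
    rw [card_insert_of_notMem, h2] at h4
    · have h5 : (univ.filter (fun g => g ∈ A)).card = Nat.card A := by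
        rw [Nat.card_eq_fintype_card, Fintype.card_subtype]
      rw [h5] at h4
      rcases Nat.eq_zero_or_pos k with h0 | h0
      · subst h0; simpa using h4
      · have h6 : k * k - k = k * (k - 1) := by
          obtain ⟨j, rfl⟩ : ∃ j, k = j + 1 := ⟨k - 1, by omega⟩
          simp only [Nat.add_sub_cancel]
          have : (j + 1) * (j + 1) = (j + 1) * j + (j + 1) := by ring
          omega
        rw [h6] at h4
        exact h4
    · intro hc
      rw [mem_image] at hc
      obtain ⟨x, hx, hx0⟩ := hc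
      rw [mem_offDiag] at hx
      exact hx.2.2 (sub_eq_zero.mp hx0)
  refine ⟨hlow, fun hkn => ?_⟩
  -- the elements outside `A` lie in different nontrivial cosets
  have hidx : n - k + 1 ≤ A.index := by
    have h1 : ((D.filter (fun d => d ∉ A)).image (fun d => (QuotientAddGroup.mk d : G ⧸ A))).card =
        n - k := by
      rw [Finset.card_image_of_injOn]
      · have := Finset.card_filter_add_card_filter_not (s := D) (fun d => d ∈ A)
        rw [hk, h.card_set] at this
        omega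
      · intro a ha b hb hab
        rw [mem_coe, mem_filter] at ha hb
        by_contra hne
        simp only at hab
        rw [QuotientAddGroup.eq] at hab
        have h2 : b - a ∈ A := by rwa [neg_add_eq_sub] at hab
        exact hb.2 (mem_of_sub_mem h hf hs ht hb.1 ha.1 (Ne.symm hne) h2).1
    have h2 : insert (QuotientAddGroup.mk (0 : G) : G ⧸ A)
        ((D.filter (fun d => d ∉ A)).image (fun d => (QuotientAddGroup.mk d : G ⧸ A))) ⊆ univ :=
      subset_univ _
    have h3 := Finset.card_le_card h2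
    rw [card_insert_of_notMem, h1] at h3
    · rw [AddSubgroup.index, Nat.card_eq_fintype_card]
      exact h3
    · intro hc
      rw [mem_image] at hc
      obtain ⟨x, hx, hx0⟩ := hc
      rw [mem_filter] at hx
      rw [QuotientAddGroup.eq, add_zero] at hx0
      exact hx.2 (by simpa using A.neg_mem hx0)
  have h1 := A.card_mul_index
  rw [h.card_group] at h1
  calc (n - k + 1) * (k * (k - 1) + 1) ≤ A.index * Nat.card A := Nat.mul_le_mul hidx hlow
    _ = n ^ 2 - 1 := by rw [mul_comm, h1]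

/-- numerical part: a large part is everything. -/
theorem numeric {n k : ℕ} (hn : 7 ≤ n) (hk : n ≤ 2 * k) (hkn : k < n)
    (hb : (n - k + 1) * (k * (k - 1) + 1) ≤ n ^ 2 - 1) : False := by
  obtain ⟨j, rfl⟩ : ∃ j, n = k + 1 + j := ⟨n - k - 1, by omega⟩
  obtain ⟨i, rfl⟩ : ∃ i, k = i + 1 := ⟨k - 1, by omega⟩
  have h1 : i + 1 + 1 + j - (i + 1) + 1 = j + 2 := by omega
  rw [h1] at hb
  simp only [Nat.add_sub_cancel] at hb
  have h2 : 1 ≤ (i + 1 + 1 + j) ^ 2 := Nat.one_le_pow _ _ (by omega)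
  have h3 : (j + 2) * ((i + 1) * i + 1) + 1 ≤ (i + 1 + 1 + j) ^ 2 := by omega
  have hj : j ≤ i := by omega
  have hi : 3 ≤ i := by omega
  rcases Nat.lt_or_ge i 4 with hi4 | hi4
  · have : i = 3 := by omega
    subst this
    interval_cases j <;> omega
  · obtain ⟨u, rfl⟩ : ∃ u, i = j + u := ⟨i - j, by omega⟩
    nlinarith [mul_nonneg (Nat.zero_le j) (Nat.zero_le u), sq_nonneg ((j : ℤ) - 4), h3]

omit [Fintype G] [DecidableEq G] in
theorem modEq_of_eqSub_eq_top {a b : ℕ} (hab : eqSub G a b = ⊤) :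
    a ≡ b [MOD AddMonoid.exponent G] := by
  have key : ∀ a b : ℕ, b ≤ a → eqSub G a b = ⊤ → b ≡ a [MOD AddMonoid.exponent G] := by
    intro a b hba h
    rw [Nat.modEq_iff_dvd' hba]
    apply AddMonoid.exponent_dvd_of_forall_nsmul_eq_zero
    intro g
    have h1 : g ∈ eqSub G a b := by rw [h]; exact AddSubgroup.mem_top g
    rw [mem_eqSub] at h1
    have h2 : (a - b) • g + b • g = b • g := by
      rw [← add_smul, Nat.sub_add_cancel hba, h1]
    simpa using h2
  rcases le_total b a with h | h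
  · exact (key a b h hab).symm
  · refine key b a h ?_
    rw [eq_top_iff]
    intro g _
    have h1 : g ∈ eqSub G a b := by rw [hab]; exact AddSubgroup.mem_top g
    exact (mem_eqSub.mp h1).symm

open Classical in
theorem eqSub_eq_top (h : IsADS n N D) (hf : Fixed n D) (hn : 7 ≤ n) {s t : ℕ} (hs : Adm n s)
    (ht : Adm n t) (hk : n ≤ 2 * (D.filter (fun d => d ∈ eqSub G s t)).card) :
    eqSub G s t = ⊤ := by
  obtain ⟨h1, h2⟩ := card_bound h hf hs ht rfl
  set k := (D.filter (fun d => d ∈ eqSub G s t)).card with hkd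
  have hkn : k ≤ n := by
    rw [← h.card_set, hkd]; exact Finset.card_filter_le _ _
  have h3 : k = n := by
    by_contra hne
    exact numeric hn hk (lt_of_le_of_ne hkn hne) (h2 (lt_of_le_of_ne hkn hne))
  rw [h3] at h1
  have h4 := (eqSub G s t).card_mul_index
  rw [h.card_group] at h4
  rw [← AddSubgroup.index_eq_one]
  by_contra hne
  have h5 : (eqSub G s t).index ≠ 0 := by
    intro h0
    rw [h0, mul_zero] at h4
    have : 7 ^ 2 ≤ n ^ 2 := Nat.pow_le_pow_left hn 2
    omega
  have h6 : 2 ≤ (eqSub G s t).index := by omega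
  have h7 : (n * (n - 1) + 1) * 2 ≤ n ^ 2 - 1 := by
    rw [← h4]; exact Nat.mul_le_mul h1 h6
  obtain ⟨m, rfl⟩ : ∃ m, n = m + 1 := ⟨n - 1, by omega⟩
  rw [Nat.add_sub_cancel] at h7
  have h8 : 1 ≤ (m + 1) ^ 2 := Nat.one_le_pow _ _ (by omega)
  have h9 : ((m + 1) * m + 1) * 2 + 1 ≤ (m + 1) ^ 2 := by omega
  nlinarith

/-- **Sidon property of the numerical multipliers.** -/
theorem sidon (h : IsADS n N D) (hn : 7 ≤ n) {t₁ t₂ t₃ t₄ : ℕ} (h₁ : Adm n t₁)
    (h₂ : Adm n t₂) (h₃ : Adm n t₃) (h₄ : Adm n t₄)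
    (hmod : t₁ + t₄ ≡ t₂ + t₃ [MOD AddMonoid.exponent G]) :
    t₁ ≡ t₂ [MOD AddMonoid.exponent G] ∨ t₁ ≡ t₃ [MOD AddMonoid.exponent G] := by
  classical
  obtain ⟨D', hD, hf⟩ := exists_fixed h
  have h5 : D' ⊆ (D'.filter (fun d => d ∈ eqSub G t₁ t₂)) ∪
      (D'.filter (fun d => d ∈ eqSub G t₁ t₃)) := by
    intro d hd
    rw [mem_union, mem_filter, mem_filter, mem_eqSub, mem_eqSub]
    rcases sidon_elem hD hf h₁ h₂ h₃ h₄ hd (nsmul_eq_of_modEq hmod d) with h6 | h6
    · exact Or.inl ⟨hd, h6⟩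
    · exact Or.inr ⟨hd, h6⟩
  have h6 := (Finset.card_le_card h5).trans (Finset.card_union_le _ _)
  rw [hD.card_set] at h6
  rcases Nat.lt_or_ge (2 * (D'.filter (fun d => d ∈ eqSub G t₁ t₂)).card) n with h7 | h7
  · right
    exact modEq_of_eqSub_eq_top (eqSub_eq_top hD hf hn h₁ h₃ (by omega))
  · left
    exact modEq_of_eqSub_eq_top (eqSub_eq_top hD hf hn h₁ h₂ h7)

end Pool.Agent.H99.ADS
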