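import Pool.Agent.H99.ADS.Fixed

/-!
# Involutory numerical multipliers

For `n ≥ 8` the only positive integers `t` with all prime factors dividing `n` and
`t ^ 2 = 1` modulo the exponent of the group are those congruent to `1` or `n`.
-/

set_option autoImplicit false

namespace Pool.Agent.H99.ADS

open Finset Pool.Agent.H27.ADS

variable {G : Type} [AddCommGroup G] [Fintype G] [DecidableEq G]
variable {n : ℕ} {N : AddSubgroup G} {D : Finset G}

omit [Fintype G] [DecidableEq G] in
theorem mk_nsmul (t : ℕ) (g : G) :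
    (QuotientAddGroup.mk (t • g) : G ⧸ N) = t • (QuotientAddGroup.mk g : G ⧸ N) := rfl

theorem mk_inj (h : IsADS n N D) {a b : G} (ha : a ∈ D) (hb : b ∈ D)
    (hab : (QuotientAddGroup.mk a : G ⧸ N) = QuotientAddGroup.mk b) : a = b := by
  rw [QuotientAddGroup.eq] at hab
  have h2 : b - a ∈ N := by rwa [neg_add_eq_sub] at hab
  exact (h.eq_of_sub_mem hb ha h2).symm

open Classical in
/-- The number of cosets fixed by an involution. -/
theorem card_fixed_cosets (h : IsADS n N D) (hf : Fixed n D) {t : ℕ} (ht : Adm n t)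
    (htt : ∀ g : G, t • t • g = g) :
    Nat.card (eqSub (G ⧸ N) t 1) = (D.filter (fun d => d ∈ eqSub G t 1)).card + 1 := by
  set im : Finset (G ⧸ N) := D.image (fun d => (QuotientAddGroup.mk d : G ⧸ N)) with him
  have himc : im.card = n := by
    rw [him, Finset.card_image_of_injOn (fun a ha b hb hab => mk_inj h ha hb hab), h.card_set]
  have huniv : (univ : Finset (G ⧸ N)).card = n + 1 := by
    rw [Finset.card_univ, ← Nat.card_eq_fintype_card]
    exact h.index_eq
  have hcompl : (univ \ im).card = 1 := by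
    rw [Finset.card_sdiff_of_subset (subset_univ im), himc, huniv]
    omega
  obtain ⟨c, hc⟩ := Finset.card_eq_one.mp hcompl
  have hcim : c ∉ im := by
    have : c ∈ univ \ im := by rw [hc]; exact mem_singleton_self c
    exact (mem_sdiff.mp this).2
  have hQtt : ∀ y : G ⧸ N, t • t • y = y := by
    intro y
    obtain ⟨g, rfl⟩ := QuotientAddGroup.mk_surjective y
    rw [← mk_nsmul, ← mk_nsmul, htt]
  have hcF : t • c = c := by
    have h1 : t • c ∉ im := by
      intro hmem
      rw [him, mem_image] at hmem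
      obtain ⟨d, hd, hdc⟩ := hmem
      apply hcim
      rw [him, mem_image]
      refine ⟨t • d, hf t ht d hd, ?_⟩
      rw [mk_nsmul, hdc, hQtt]
    have h2 : t • c ∈ univ \ im := mem_sdiff.mpr ⟨mem_univ _, h1⟩
    rw [hc] at h2
    exact mem_singleton.mp h2
  have hset : (univ.filter (fun y : G ⧸ N => y ∈ eqSub (G ⧸ N) t 1)) =
      insert c ((D.filter (fun d => d ∈ eqSub G t 1)).image
        (fun d => (QuotientAddGroup.mk d : G ⧸ N))) := by
    ext y
    rw [mem_filter, mem_insert, mem_image, mem_eqSub, one_smul]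
    constructor
    · rintro ⟨-, hy⟩
      by_cases hyim : y ∈ im
      · right
        rw [him, mem_image] at hyim
        obtain ⟨d, hd, rfl⟩ := hyim
        refine ⟨d, ?_, rfl⟩
        rw [mem_filter, mem_eqSub, one_smul]
        exact ⟨hd, mk_inj h (hf t ht d hd) hd (by rw [mk_nsmul, hy])⟩
      · left
        have h2 : y ∈ univ \ im := mem_sdiff.mpr ⟨mem_univ _, hyim⟩
        rw [hc] at h2
        exact mem_singleton.mp h2
    · rintro (rfl | ⟨d, hd, rfl⟩)
      · exact ⟨mem_univ _, hcF⟩
      · rw [mem_filter, mem_eqSub, one_smul] at hd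
        refine ⟨mem_univ _, ?_⟩
        rw [← mk_nsmul, hd.2]
  have h1 : Nat.card (eqSub (G ⧸ N) t 1) =
      (univ.filter (fun y : G ⧸ N => y ∈ eqSub (G ⧸ N) t 1)).card := by
    rw [Nat.card_eq_fintype_card, Fintype.card_subtype]
  rw [h1, hset, card_insert_of_notMem, Finset.card_image_of_injOn]
  · intro a ha b hb hab
    rw [mem_coe, mem_filter] at ha hb
    exact mk_inj h ha.1 hb.1 hab
  · intro hmem
    rw [mem_image] at hmem
    obtain ⟨d, hd, hdc⟩ := hmem
    apply hcim
    rw [him, mem_image]
    exact ⟨d, (mem_filter.mp hd).1, hdc⟩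

open Classical in
/-- Elements outside the fixed cosets are uniquely of the form `d + u` with `d ∈ D` moved and `u`
fixed. -/
theorem card_moved (h : IsADS n N D) (hf : Fixed n D) {t : ℕ} (ht : Adm n t)
    (htt : ∀ g : G, t • t • g = g) :
    (univ.filter (fun x : G => (QuotientAddGroup.mk x : G ⧸ N) ∉ eqSub (G ⧸ N) t 1)).card =
      (D.filter (fun d => d ∉ eqSub G t 1)).card * Nat.card (eqSub G t 1) := by
  have hA : Nat.card (eqSub G t 1) = (univ.filter (fun g : G => g ∈ eqSub G t 1)).card := by
    rw [Nat.card_eq_fintype_card, Fintype.card_subtype]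
  rw [hA, ← Finset.card_product]
  have hmkF : ∀ x : G, (QuotientAddGroup.mk x : G ⧸ N) ∈ eqSub (G ⧸ N) t 1 ↔ t • x - x ∈ N := by
    intro x
    rw [mem_eqSub, one_smul, ← mk_nsmul, QuotientAddGroup.eq]
    constructor
    · intro h1
      have := N.neg_mem h1
      simpa [sub_eq_add_neg, add_comm] using this
    · intro h1
      have := N.neg_mem h1
      simpa [sub_eq_add_neg, add_comm] using this
  symm
  refine Finset.card_bij (fun x _ => x.1 + x.2) ?_ ?_ ?_
  · rintro ⟨d, u⟩ hx
    rw [mem_product, mem_filter, mem_filter, mem_eqSub, mem_eqSub, one_smul, one_smul] at hx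
    obtain ⟨⟨hd, hdA⟩, -, hu⟩ := hx
    simp only at hd hdA hu
    rw [mem_filter, hmkF]
    refine ⟨mem_univ _, fun hc => hdA ?_⟩
    have h1 : t • (d + u) - (d + u) = t • d - d := by
      rw [smul_add, hu]; abel
    rw [h1] at hc
    exact h.eq_of_sub_mem (hf t ht d hd) hd hc
  · rintro ⟨d, u⟩ hx ⟨d', u'⟩ hx' heq
    rw [mem_product, mem_filter, mem_filter] at hx hx'
    simp only at hx hx' heq
    have h1 : d - d' ∈ eqSub G t 1 := by
      have h2 : d - d' = u' - u := by
        rw [sub_eq_sub_iff_add_eq_add, heq, add_comm]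
      rw [h2]
      exact (eqSub G t 1).sub_mem hx'.2.2 hx.2.2
    have h2 : d = d' := by
      by_contra hne
      exact hx.1.2 (mem_of_sub_mem h hf ht (Adm.one n) hx.1.1 hx'.1.1 hne h1).1
    subst h2
    rw [add_left_cancel heq]
  · intro x hx
    rw [mem_filter, hmkF] at hx
    have hx1 : x - t • x ∉ N := by
      intro hc
      apply hx.2
      have := N.neg_mem hc
      simpa using this
    obtain ⟨d, hd, d', hd', hdd⟩ := h.exists_rep hx1
    have h1 : t • d - t • d' = d' - d := by
      rw [← smul_sub, hdd, smul_sub, htt, ← neg_sub x, ← hdd, neg_sub]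
    have h2 : d' - d ∉ N := by
      intro hc
      apply hx1
      rw [← hdd]
      have := N.neg_mem hc
      simpa using this
    have h3 := h.uniq hd' hd (hf t ht d hd) (hf t ht d' hd') h2 h1.symm
    refine ⟨(d, x - d), ?_, by simp⟩
    rw [mem_product, mem_filter, mem_filter, mem_eqSub, mem_eqSub, one_smul, one_smul]
    refine ⟨⟨hd, ?_⟩, mem_univ _, ?_⟩
    · intro hc
      simp only at hc
      apply hx1
      rw [← hdd, h3.1, hc, sub_self]
      exact N.zero_mem
    · simp only
      rw [smul_sub, ← h3.1]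
      have h4 : t • x = x - (d - d') := by rw [hdd]; abel
      rw [h4]
      abel

open Classical in
/-- An involution is trivial or fixes exactly the elements of `N`, with at most two fixed cosets. -/
theorem dichotomy (h : IsADS n N D) (hf : Fixed n D) (hn : 7 ≤ n) {t : ℕ} (ht : Adm n t)
    (htt : ∀ g : G, t • t • g = g) :
    eqSub G t 1 = ⊤ ∨ (eqSub G t 1 = N ∧ Nat.card (eqSub (G ⧸ N) t 1) ≤ 2) := by
  set a := (D.filter (fun d => d ∈ eqSub G t 1)).card with ha
  have hF := card_fixed_cosets h hf ht htt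
  rw [← ha] at hF
  have hM := card_moved h hf ht htt
  have hsplit := Finset.card_filter_add_card_filter_not (s := D) (fun d => d ∈ eqSub G t 1)
  rw [← ha, h.card_set] at hsplit
  have han : a ≤ n := by omega
  rcases Nat.lt_or_ge a n with hlt | hge
  swap
  · left
    exact eqSub_eq_top h hf hn ht (Adm.one n) (by rw [← ha]; omega)
  right
  have hnot : (D.filter (fun d => d ∉ eqSub G t 1)).card = n - a := by omega
  rw [hnot] at hM
  -- count the elements in fixed cosets
  have hQ : Nat.card (G ⧸ N) = n + 1 := h.index_eq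
  have hFs : (univ.filter (fun x : G => (QuotientAddGroup.mk x : G ⧸ N) ∈
      eqSub (G ⧸ N) t 1)).card = (a + 1) * (n - 1) := by
    have h1 : (univ.filter (fun x : G => (QuotientAddGroup.mk x : G ⧸ N) ∈
        eqSub (G ⧸ N) t 1)).card =
        Nat.card ((eqSub (G ⧸ N) t 1).comap (QuotientAddGroup.mk' N)) := by
      rw [Nat.card_eq_fintype_card, Fintype.card_subtype]
      congr 1
    have h2 := ((eqSub (G ⧸ N) t 1).comap (QuotientAddGroup.mk' N)).card_mul_index
    rw [AddSubgroup.index_comap_of_surjective _ (QuotientAddGroup.mk'_surjective N),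
      h.card_group] at h2
    have h3 := (eqSub (G ⧸ N) t 1).card_mul_index
    rw [hQ, hF] at h3
    rw [h1]
    have h4 : (eqSub (G ⧸ N) t 1).index ≠ 0 := by
      intro h0
      rw [h0, mul_zero] at h3
      omega
    apply Nat.eq_of_mul_eq_mul_right (Nat.pos_of_ne_zero h4)
    rw [h2]
    obtain ⟨m, rfl⟩ : ∃ m, n = m + 1 := ⟨n - 1, by omega⟩
    have h5 : (m + 1) ^ 2 - 1 = m * (m + 1 + 1) := by
      have : (m + 1) ^ 2 = m * (m + 1 + 1) + 1 := by ring
      omega
    rw [h5, ← h3, Nat.add_sub_cancel]
    ring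
  have htot := Finset.card_filter_add_card_filter_not (s := (univ : Finset G))
    (fun x : G => (QuotientAddGroup.mk x : G ⧸ N) ∈ eqSub (G ⧸ N) t 1)
  have huniv : (univ : Finset G).card = n ^ 2 - 1 := by
    rw [← h.card_group, Nat.card_eq_fintype_card, Finset.card_univ]
  rw [hFs, hM, huniv] at htot
  have hcardA : Nat.card (eqSub G t 1) = n - 1 := by
    obtain ⟨j, hj⟩ : ∃ j, n = a + 1 + j := ⟨n - a - 1, by omega⟩
    have h1 : n ^ 2 - 1 = (a + 1) * (n - 1) + (n - a) * (n - 1) := by
      obtain ⟨m, rfl⟩ : ∃ m, n = m + 1 := ⟨n - 1, by omega⟩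
      have h5 : (m + 1) ^ 2 - 1 = m * (m + 1 + 1) := by
        have : (m + 1) ^ 2 = m * (m + 1 + 1) + 1 := by ring
        omega
      rw [h5, ← add_mul, Nat.add_sub_cancel, mul_comm]
      congr 1
      omega
    rw [h1] at htot
    have h2 := Nat.add_left_cancel htot
    exact Nat.eq_of_mul_eq_mul_left (by omega) h2
  -- at most one fixed element of `D`
  have ha1 : a ≤ 1 := by
    by_contra hcon
    have ha2 : 2 ≤ a := by omega
    -- image of the fixed subgroup in the quotient
    set H := (eqSub G t 1).map (QuotientAddGroup.mk' N) with hH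
    have hHle : H ≤ eqSub (G ⧸ N) t 1 := by
      rintro y hy
      rw [hH, AddSubgroup.mem_map] at hy
      obtain ⟨g, hg, rfl⟩ := hy
      rw [mem_eqSub, one_smul] at hg ⊢
      change t • (QuotientAddGroup.mk g : G ⧸ N) = QuotientAddGroup.mk g
      rw [← mk_nsmul, hg]
    have h1 : Nat.card H ∣ a + 1 := by
      rw [← hF]
      exact AddSubgroup.card_dvd_of_le hHle
    have h2 : Nat.card H ∣ n - 1 := by
      rw [← hcardA]
      exact AddSubgroup.card_dvd_of_surjective _
        ((QuotientAddGroup.mk' N).addSubgroupMap_surjective (eqSub G t 1))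
    have h3 : a ≤ Nat.card H := by
      have h4 : ((D.filter (fun d => d ∈ eqSub G t 1)).image
          (fun d => (QuotientAddGroup.mk d : G ⧸ N))) ⊆ univ.filter (fun y : G ⧸ N => y ∈ H) := by
        intro y hy
        rw [mem_image] at hy
        obtain ⟨d, hd, rfl⟩ := hy
        rw [mem_filter] at hd ⊢
        refine ⟨mem_univ _, ?_⟩
        rw [hH, AddSubgroup.mem_map]
        exact ⟨d, hd.2, rfl⟩
      have h5 := Finset.card_le_card h4
      rw [Finset.card_image_of_injOn, ← ha] at h5
      · rw [Nat.card_eq_fintype_card, Fintype.card_subtype]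
        exact h5
      · intro x hx y hy hxy
        rw [mem_coe, mem_filter] at hx hy
        exact mk_inj h hx.1 hy.1 hxy
    have h4 : Nat.card H = a + 1 := by
      have h5 := Nat.le_of_dvd (by omega) h1
      rcases Nat.lt_or_ge (Nat.card H) (a + 1) with h6 | h6
      · exfalso
        have h7 : Nat.card H = a := by omega
        rw [h7] at h1
        have h8 := (Nat.dvd_add_right (dvd_refl a)).mp h1
        have := Nat.le_of_dvd one_pos h8
        omega
      · omega
    rw [h4] at h2
    have h5 : a + 1 ∣ n + 1 := by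
      rw [← hF, ← hQ]
      exact AddSubgroup.card_addSubgroup_dvd_card _
    have h6 := Nat.dvd_sub h5 h2
    rw [show n + 1 - (n - 1) = 2 by omega] at h6
    have := Nat.le_of_dvd two_pos h6
    omega
  refine ⟨?_, by rw [hF]; omega⟩
  have hle : eqSub G t 1 ≤ N := by
    intro g hg
    by_contra hgN
    obtain ⟨d, hd, d', hd', hdd⟩ := h.exists_rep hgN
    have hne : d ≠ d' := by
      rintro rfl
      rw [sub_self] at hdd
      exact hgN (hdd ▸ N.zero_mem)
    have h1 := mem_of_sub_mem h hf ht (Adm.one n) hd hd' hne (by rw [hdd]; exact hg)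
    have h2 : ({d, d'} : Finset G) ⊆ D.filter (fun d => d ∈ eqSub G t 1) := by
      intro x hx
      rw [mem_insert, mem_singleton] at hx
      rw [mem_filter]
      rcases hx with rfl | rfl
      · exact ⟨hd, h1.1⟩
      · exact ⟨hd', h1.2⟩
    have h3 := Finset.card_le_card h2
    rw [Finset.card_pair hne, ← ha] at h3
    omega
  apply AddSubgroup.eq_of_le_of_card_ge hle
  rw [hcardA, h.card_sub]

/-- `n` acts as `-1` on the cosets. -/
theorem nsmul_quotient (h : IsADS n N D) (y : G ⧸ N) : n • y = -y := by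
  obtain ⟨g, rfl⟩ := QuotientAddGroup.mk_surjective y
  have h1 : ((n + 1) • (QuotientAddGroup.mk g : G ⧸ N)) = 0 := by
    rw [← mk_nsmul, QuotientAddGroup.eq_zero_iff]
    exact h.index_nsmul_mem g
  rw [add_smul, one_smul] at h1
  exact eq_neg_of_add_eq_zero_left h1

/-- **Involutory numerical multipliers.** -/
theorem invol (h : IsADS n N D) (hn : 8 ≤ n) {t : ℕ} (ht : Adm n t)
    (htt : t * t ≡ 1 [MOD AddMonoid.exponent G]) :
    t ≡ 1 [MOD AddMonoid.exponent G] ∨ t ≡ n [MOD AddMonoid.exponent G] := by
  obtain ⟨D', hD, hf⟩ := exists_fixed h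
  have hnA : Adm n n := Adm.self (by omega)
  have hnn : n * n ≡ 1 [MOD AddMonoid.exponent G] := by
    apply modEq_of_eqSub_eq_top
    rw [eq_top_iff]
    intro g _
    rw [mem_eqSub, one_smul, mul_smul, sq_nsmul h]
  have hg : ∀ g : G, t • t • g = g := by
    intro g
    have := nsmul_eq_of_modEq htt g
    rwa [mul_smul, one_smul] at this
  have htn : ∀ g : G, (t * n) • (t * n) • g = g := by
    intro g
    have h1 : (t * n) • (t * n) • g = t • t • n • n • g := by
      rw [← mul_smul, ← mul_smul, ← mul_smul, ← mul_smul]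
      congr 1
      ring
    rw [h1, sq_nsmul h, hg]
  rcases dichotomy hD hf (by omega) ht hg with h1 | ⟨-, h1⟩
  · left
    exact modEq_of_eqSub_eq_top h1
  · rcases dichotomy hD hf (by omega) (ht.mul hnA) htn with h2 | ⟨-, h2⟩
    · right
      have h3 := modEq_of_eqSub_eq_top h2
      have h4 : t * n * n ≡ 1 * n [MOD AddMonoid.exponent G] := h3.mul_right n
      have h5 : t * (n * n) ≡ t * 1 [MOD AddMonoid.exponent G] := hnn.mul_left t
      rw [mul_one, ← mul_assoc] at h5
      rw [one_mul] at h4
      exact h5.symm.trans h4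
    · exfalso
      -- the quotient has at most eight elements
      let φ : (G ⧸ N) →+ (G ⧸ N) × (G ⧸ N) :=
        { toFun := fun y => (y + t • y, y - t • y)
          map_zero' := by simp
          map_add' := by
            intro y z
            simp only [smul_add, Prod.mk_add_mk, Prod.mk.injEq]
            constructor <;> abel }
      have hQtt : ∀ y : G ⧸ N, t • t • y = y := by
        intro y
        obtain ⟨g, rfl⟩ := QuotientAddGroup.mk_surjective y
        rw [← mk_nsmul, ← mk_nsmul, hg]
      have hker : Nat.card φ.ker ≤ 2 := by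
        refine le_trans (Nat.le_of_dvd Nat.card_pos (AddSubgroup.card_dvd_of_le ?_)) h1
        intro y hy
        rw [AddMonoidHom.mem_ker] at hy
        have h3 : y - t • y = 0 := (Prod.mk.inj hy).2
        rw [mem_eqSub, one_smul]
        exact (sub_eq_zero.mp h3).symm
      have hrange : Nat.card φ.range ≤ 4 := by
        have h3 : φ.range ≤ (eqSub (G ⧸ N) t 1).prod (eqSub (G ⧸ N) (t * n) 1) := by
          rintro z ⟨y, rfl⟩
          rw [AddSubgroup.mem_prod]
          refine ⟨?_, ?_⟩
          · change y + t • y ∈ eqSub (G ⧸ N) t 1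
            rw [mem_eqSub, one_smul, smul_add, hQtt, add_comm]
          · change y - t • y ∈ eqSub (G ⧸ N) (t * n) 1
            rw [mem_eqSub, one_smul, mul_comm, mul_smul, nsmul_quotient h, smul_sub, hQtt]
            abel
        refine le_trans (Nat.le_of_dvd Nat.card_pos (AddSubgroup.card_dvd_of_le h3)) ?_
        have h4 : Nat.card ((eqSub (G ⧸ N) t 1).prod (eqSub (G ⧸ N) (t * n) 1)) =
            Nat.card (eqSub (G ⧸ N) t 1) * Nat.card (eqSub (G ⧸ N) (t * n) 1) := by
          rw [← Nat.card_prod]
          exact Nat.card_congr (AddSubgroup.prodEquiv _ _).toEquiv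
        rw [h4]
        calc _ ≤ 2 * 2 := Nat.mul_le_mul h1 h2
          _ = 4 := rfl
      have h3 : Nat.card φ.ker * Nat.card φ.range = Nat.card (G ⧸ N) := by
        rw [← AddSubgroup.index_ker, AddSubgroup.card_mul_index]
      have h4 : Nat.card (G ⧸ N) = n + 1 := h.index_eq
      have h5 : Nat.card φ.ker * Nat.card φ.range ≤ 2 * 4 := Nat.mul_le_mul hker hrange
      omega

end Pool.Agent.H99.ADS
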