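import Pool.Agent.H99.ADS.Excl

/-!
# Orders of the prime divisors of `n` modulo the prime divisors of `n ± 1`
-/

set_option autoImplicit false

namespace Pool.Agent.H99.ADS

open Finset Pool.Agent.H27.ADS

variable {G : Type} [AddCommGroup G] [Fintype G] [DecidableEq G]
variable {n : ℕ} {N : AddSubgroup G} {D : Finset G}

theorem padic_eq {r c : ℕ} (hr0 : r ≠ 0) (hc0 : c ≠ 0) (h1 : r ∣ 2 * c) (h2 : ¬ r ∣ c) :
    padicValNat 2 r = padicValNat 2 (2 * c) := by
  have : Fact (Nat.Prime 2) := ⟨Nat.prime_two⟩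
  have hle : padicValNat 2 r ≤ padicValNat 2 (2 * c) :=
    (padicValNat_dvd_iff_le (mul_ne_zero two_ne_zero hc0)).mp (pow_padicValNat_dvd.trans h1)
  rw [padicValNat.mul two_ne_zero hc0, padicValNat.self one_lt_two] at hle ⊢
  by_contra hne
  apply h2
  have hlt : padicValNat 2 r ≤ padicValNat 2 c := by omega
  obtain ⟨v, o, ho, hro⟩ := Nat.exists_eq_two_pow_mul_odd hr0
  have hov : padicValNat 2 r = v := by
    rw [hro, padicValNat.mul (pow_ne_zero _ two_ne_zero) (by rintro rfl; simp at ho),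
      padicValNat.prime_pow, padicValNat.eq_zero_of_not_dvd (by
        intro hc; exact (Nat.not_even_iff_odd.mpr ho) (even_iff_two_dvd.mpr hc)), add_zero]
  rw [hov] at hlt
  have h3 : 2 ^ v ∣ c := (padicValNat_dvd_iff_le hc0).mpr hlt
  have h4 : o ∣ c := by
    have h5 : o ∣ 2 * c := (Dvd.intro_left _ hro.symm).trans h1
    exact Nat.Coprime.dvd_of_dvd_mul_left (Nat.coprime_two_right.mpr ho) h5
  rw [hro]
  exact Nat.Coprime.mul_dvd_of_dvd_of_dvd
    (Nat.Coprime.pow_left v (Nat.coprime_two_left.mpr ho)) h3 h4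

/-- **Orders modulo the prime divisors of `n ± 1`.** -/
theorem orders (h : IsADS n N D) (hn : 8 ≤ n) {t : ℕ} (ht : Adm n t) :
    ∃ s : ℕ, (∀ q : ℕ, q.Prime → q ≠ 2 → q ∣ n + 1 → padicValNat 2 (orderOf (t : ZMod q)) = s) ∧
      (∀ q : ℕ, q.Prime → q ≠ 2 → q ∣ n - 1 →
        padicValNat 2 (orderOf (t : ZMod q)) < s ∨
          (padicValNat 2 (orderOf (t : ZMod q)) = 0 ∧ s = 0)) := by
  have : Fact (Nat.Prime 2) := ⟨Nat.prime_two⟩
  set e := AddMonoid.exponent G with he
  have hed : e ∣ n ^ 2 - 1 := exponent_dvd h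
  have hn2 : n ^ 2 - 1 ≠ 0 := by
    have : 8 ^ 2 ≤ n ^ 2 := Nat.pow_le_pow_left hn 2
    omega
  have he0 : e ≠ 0 := fun h0 => hn2 (Nat.eq_zero_of_zero_dvd (h0 ▸ hed))
  have : NeZero e := ⟨he0⟩
  have hcop : Nat.Coprime t e := Nat.Coprime.coprime_dvd_right hed (h.card_coprime ht.2)
  -- the order of `t` modulo the exponent
  set c := orderOf (ZMod.unitOfCoprime t hcop) with hc
  have hc0 : 0 < c := orderOf_pos _
  have hpow : ∀ k : ℕ, (ZMod.unitOfCoprime t hcop) ^ k = 1 ↔ t ^ k ≡ 1 [MOD e] := by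
    intro k
    rw [← Units.val_inj, Units.val_pow_eq_pow_val, ZMod.coe_unitOfCoprime, Units.val_one,
      ← ZMod.natCast_eq_natCast_iff]
    push_cast
    exact Iff.rfl
  have hdvd : ∀ q : ℕ, q.Prime → q ∣ n ^ 2 - 1 → q ∣ e := fun q hq hqd =>
    prime_dvd_exponent h hq hqd
  have htc : t ^ c ≡ 1 [MOD e] := (hpow c).mp (pow_orderOf_eq_one _)
  have hq1 : ∀ q : ℕ, q ∣ n + 1 → q ∣ n ^ 2 - 1 := fun q hq => by
    rw [sq_sub_one n (by omega)]; exact hq.mul_left _
  have hq2 : ∀ q : ℕ, q ∣ n - 1 → q ∣ n ^ 2 - 1 := fun q hq => by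
    rw [sq_sub_one n (by omega)]; exact hq.mul_right _
  have hmodq : ∀ q k m : ℕ, q.Prime → q ∣ n ^ 2 - 1 → t ^ k ≡ m [MOD e] →
      (t : ZMod q) ^ k = (m : ZMod q) := by
    intro q k m hq hqd hk
    have h1 := (ZMod.natCast_eq_natCast_iff _ _ _).mpr (hk.of_dvd (hdvd q hq hqd))
    push_cast at h1
    exact h1
  refine ⟨padicValNat 2 c, ?_, ?_⟩
  · intro q hq hq2' hqd
    have : Fact q.Prime := ⟨hq⟩
    have h1 : (t : ZMod q) ^ c = 1 := by
      have := hmodq q c 1 hq (hq1 q hqd) htc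
      simpa using this
    have h2 : orderOf (t : ZMod q) ∣ c := orderOf_dvd_of_pow_eq_one h1
    have h3 : orderOf (t : ZMod q) ≠ 0 := fun h0 => hc0.ne' (Nat.eq_zero_of_zero_dvd (h0 ▸ h2))
    rcases Nat.even_or_odd' c with ⟨k, hk | hk⟩
    · have hk0 : k ≠ 0 := by omega
      -- `t ^ k` is the involution
      have h4 : t ^ k * t ^ k ≡ 1 [MOD e] := by
        rw [← pow_add, ← two_mul, ← hk]; exact htc
      have h5 : ¬ t ^ k ≡ 1 [MOD e] := by
        intro h6
        have h7 := orderOf_dvd_of_pow_eq_one ((hpow k).mpr h6)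
        have h8 := Nat.le_of_dvd (by omega) h7
        omega
      have h6 : t ^ k ≡ n [MOD e] := (invol h hn (ht.pow k) h4).resolve_left h5
      have h7 := hmodq q k n hq (hq1 q hqd) h6
      have h8 : (n : ZMod q) = -1 := by
        have : ((n + 1 : ℕ) : ZMod q) = 0 := (ZMod.natCast_eq_zero_iff _ _).mpr hqd
        push_cast at this
        exact eq_neg_of_add_eq_zero_left this
      have h9 : ¬ orderOf (t : ZMod q) ∣ k := by
        intro h10
        have h11 := orderOf_dvd_iff_pow_eq_one.mp h10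
        rw [h7, h8] at h11
        have h12 : ((2 : ℕ) : ZMod q) = 0 := by
          push_cast
          calc (2 : ZMod q) = 1 - (-1) := by ring
            _ = 0 := by rw [h11, sub_self]
        rw [ZMod.natCast_eq_zero_iff] at h12
        exact hq2' ((Nat.prime_dvd_prime_iff_eq hq Nat.prime_two).mp h12)
      rw [hk] at h2 ⊢
      exact padic_eq h3 hk0 h2 h9
    · have h4 : padicValNat 2 c = 0 := padicValNat.eq_zero_of_not_dvd (by omega)
      have h5 : padicValNat 2 (orderOf (t : ZMod q)) = 0 :=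
        padicValNat.eq_zero_of_not_dvd (fun h6 => by
          have := h6.trans h2
          omega)
      rw [h4, h5]
  · intro q hq hq2' hqd
    have : Fact q.Prime := ⟨hq⟩
    have h1 : (t : ZMod q) ^ c = 1 := by
      have := hmodq q c 1 hq (hq2 q hqd) htc
      simpa using this
    have h2 : orderOf (t : ZMod q) ∣ c := orderOf_dvd_of_pow_eq_one h1
    have h3 : orderOf (t : ZMod q) ≠ 0 := fun h0 => hc0.ne' (Nat.eq_zero_of_zero_dvd (h0 ▸ h2))
    rcases Nat.even_or_odd' c with ⟨k, hk | hk⟩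
    · left
      have hk0 : k ≠ 0 := by omega
      have h4 : t ^ k * t ^ k ≡ 1 [MOD e] := by
        rw [← pow_add, ← two_mul, ← hk]; exact htc
      have h5 : ¬ t ^ k ≡ 1 [MOD e] := by
        intro h6
        have h7 := orderOf_dvd_of_pow_eq_one ((hpow k).mpr h6)
        have h8 := Nat.le_of_dvd (by omega) h7
        omega
      have h6 : t ^ k ≡ n [MOD e] := (invol h hn (ht.pow k) h4).resolve_left h5
      have h7 := hmodq q k n hq (hq2 q hqd) h6
      have h8 : (n : ZMod q) = 1 := by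
        have : ((n - 1 : ℕ) : ZMod q) = 0 := (ZMod.natCast_eq_zero_iff _ _).mpr hqd
        rw [Nat.cast_sub (by omega)] at this
        push_cast at this
        exact sub_eq_zero.mp this
      rw [h8] at h7
      have h9 : orderOf (t : ZMod q) ∣ k := orderOf_dvd_of_pow_eq_one h7
      have h10 : padicValNat 2 (orderOf (t : ZMod q)) ≤ padicValNat 2 k :=
        (padicValNat_dvd_iff_le hk0).mp (pow_padicValNat_dvd.trans h9)
      rw [hk, padicValNat.mul two_ne_zero hk0, padicValNat.self one_lt_two]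
      omega
    · right
      have h4 : padicValNat 2 c = 0 := padicValNat.eq_zero_of_not_dvd (by omega)
      refine ⟨?_, h4⟩
      exact padicValNat.eq_zero_of_not_dvd (fun h6 => by
        have := h6.trans h2
        omega)

end Pool.Agent.H99.ADS
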