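import Pool.Agent.H99.ADS.Main

/-!
# Abelian affine difference sets of odd order: the Sylow two-subgroup
-/

set_option autoImplicit false

namespace Pool.Agent.H99.ADS

open Finset Pool.Agent.H27.ADS

variable {G : Type} [AddCommGroup G] [Fintype G] [DecidableEq G]
variable {n : ℕ} {N : AddSubgroup G} {D : Finset G}

/-- Involutions lie in `N`. -/
theorem inv_mem (h : IsADS n N D) {g : G} (hg : (2 : ℕ) • g = 0) : g ∈ N := by
  by_contra hgN
  obtain ⟨a, ha, b, hb, hab⟩ := h.exists_rep hgN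
  have h1 : a - b = b - a := by
    rw [two_smul] at hg
    rw [← neg_sub a b, hab]
    exact eq_neg_of_add_eq_zero_left hg
  have h2 := (h.uniq ha hb hb ha (by rw [hab]; exact hgN) h1).1
  rw [h2, sub_self] at hab
  exact hgN (hab ▸ N.zero_mem)

/-- The kernel of multiplication by `2 ^ j` if there is at most one involution. -/
theorem card_ker_pow {K : Type} [AddCommGroup K] [Finite K]
    (h2 : Nat.card (eqSub K 2 0) ≤ 2) (j : ℕ) : Nat.card (eqSub K (2 ^ j) 0) ≤ 2 ^ j := by
  induction j with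
  | zero =>
    have h1 : Subsingleton (eqSub K (2 ^ 0) 0) := by
      refine ⟨?_⟩
      rintro ⟨a, ha⟩ ⟨b, hb⟩
      rw [mem_eqSub, pow_zero, one_smul, zero_smul] at ha hb
      simp [ha, hb]
    rw [pow_zero]
    exact Finite.card_le_one_iff_subsingleton.mpr (by simpa using h1)
  | succ j ih =>
    let ψ : eqSub K (2 ^ (j + 1)) 0 →+ K :=
      (nsmulAddMonoidHom (α := K) (2 ^ j)).comp (eqSub K (2 ^ (j + 1)) 0).subtype
    have hker : Nat.card ψ.ker ≤ Nat.card (eqSub K (2 ^ j) 0) := by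
      apply Nat.card_le_card_of_injective (fun a : ψ.ker => (⟨((a : eqSub K (2 ^ (j + 1)) 0) : K), by
        have h3 : ψ a = 0 := a.2
        rw [mem_eqSub, zero_smul]
        exact h3⟩ : eqSub K (2 ^ j) 0))
      intro a b hab
      simp only [Subtype.mk.injEq] at hab
      exact Subtype.ext (Subtype.ext hab)
    have hran : Nat.card ψ.range ≤ Nat.card (eqSub K 2 0) := by
      apply Nat.le_of_dvd Nat.card_pos
      apply AddSubgroup.card_dvd_of_le
      rintro z ⟨⟨y, hy⟩, rfl⟩
      rw [mem_eqSub, zero_smul] at hy ⊢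
      change (2 : ℕ) • ((2 ^ j : ℕ) • y) = 0
      rw [← mul_smul, ← pow_succ', hy]
    have h4 : Nat.card ψ.ker * Nat.card ψ.range = Nat.card (eqSub K (2 ^ (j + 1)) 0) := by
      rw [← AddSubgroup.index_ker, AddSubgroup.card_mul_index]
    calc Nat.card (eqSub K (2 ^ (j + 1)) 0) = Nat.card ψ.ker * Nat.card ψ.range := h4.symm
      _ ≤ 2 ^ j * 2 := Nat.mul_le_mul (hker.trans ih) (hran.trans h2)
      _ = 2 ^ (j + 1) := (pow_succ 2 j).symm

theorem sylow_three (h : IsADS n N D) (hmod : n % 4 = 3) {v : ℕ}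
    (hv : 2 ^ v ∣ n ^ 2 - 1) : 2 ^ v ∣ AddMonoid.exponent G := by
  have hn := h.two_le
  have h2 : Nat.card (eqSub G 2 0) ≤ 2 := by
    have h3 : eqSub G 2 0 ≤ N := by
      intro g hg
      rw [mem_eqSub, zero_smul] at hg
      exact inv_mem h hg
    have h4 := AddSubgroup.card_dvd_of_le h3
    rw [h.card_sub] at h4
    have h5 : ∀ {r : ℕ}, r.Prime → r ∣ Nat.card (eqSub G 2 0) → r = 2 := by
      intro r hr hrd
      have : Fact r.Prime := ⟨hr⟩
      obtain ⟨x, hx⟩ := exists_prime_addOrderOf_dvd_card' r hrd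
      have h6 : (2 : ℕ) • x = 0 := by
        apply Subtype.ext
        have h7 := x.2
        rw [mem_eqSub, zero_smul] at h7
        exact h7
      have h7 := addOrderOf_dvd_of_nsmul_eq_zero h6
      rw [hx] at h7
      exact (Nat.prime_dvd_prime_iff_eq hr Nat.prime_two).mp h7
    have h6 := Nat.eq_prime_pow_of_unique_prime_dvd (n := Nat.card (eqSub G 2 0))
      (Nat.card_pos.ne') h5
    set k := (Nat.card (eqSub G 2 0)).primeFactorsList.length with hk
    rcases Nat.lt_or_ge k 2 with h7 | h7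
    · rw [h6]
      interval_cases k <;> norm_num
    · exfalso
      have h8 : 2 ^ 2 ∣ n - 1 := by
        rw [h6] at h4
        exact (pow_dvd_pow 2 h7).trans h4
      omega
  rcases Nat.eq_zero_or_pos v with hv0 | hv0
  · rw [hv0, pow_zero]; exact one_dvd _
  by_contra hcon
  let φ : G →+ G := nsmulAddMonoidHom (2 ^ (v - 1))
  have hker : φ.ker = eqSub G (2 ^ (v - 1)) 0 := by
    ext y
    rw [AddMonoidHom.mem_ker, mem_eqSub, zero_smul]
    exact Iff.rfl
  have h3 := card_ker_pow h2 (v - 1)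
  rw [← hker] at h3
  have h4 : Nat.card φ.ker * Nat.card φ.range = Nat.card G := by
    rw [← AddSubgroup.index_ker, AddSubgroup.card_mul_index]
  have h5 : ¬ 2 ∣ Nat.card φ.range := by
    intro hc
    obtain ⟨⟨y, x, hxy⟩, hy⟩ := exists_prime_addOrderOf_dvd_card' 2 hc
    have h6 : addOrderOf y = 2 := by
      rw [← hy]
      exact (AddSubgroup.addOrderOf_mk y _).symm
    have h7 : (2 ^ (v - 1) : ℕ) • x = y := hxy
    have h8 : addOrderOf x = 2 ^ (v - 1 + 1) := by
      apply addOrderOf_eq_prime_pow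
      · rw [h7]
        intro h0
        rw [h0, addOrderOf_zero] at h6
        omega
      · rw [pow_succ', mul_smul, h7, ← h6]
        exact addOrderOf_nsmul_eq_zero y
    apply hcon
    rw [show v - 1 + 1 = v by omega] at h8
    rw [← h8]
    exact AddMonoid.addOrder_dvd_exponent x
  rw [← h.card_group, ← h4] at hv
  have h6 : Nat.Coprime (2 ^ v) (Nat.card φ.range) :=
    Nat.Coprime.pow_left v ((Nat.Prime.coprime_iff_not_dvd Nat.prime_two).mpr h5)
  have h7 := Nat.le_of_dvd Nat.card_pos (h6.dvd_of_dvd_mul_right hv)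
  have h8 : 2 ^ (v - 1) < 2 ^ v := Nat.pow_lt_pow_right (by norm_num) (by omega)
  omega

theorem sylow_one (h : IsADS n N D) (hn : 7 ≤ n) (hmod : n % 4 = 1) {v : ℕ}
    (hv : 2 ^ v ∣ n ^ 2 - 1) : 2 ^ v ∣ AddMonoid.exponent G := by
  classical
  obtain ⟨D', hD, hf⟩ := exists_fixed h
  by_contra hcon
  have hA1 : Adm n 1 := Adm.one n
  have hAn : Adm n n := Adm.self (by omega)
  set A := eqSub G n 1 with hA
  have hmemA : ∀ g : G, g ∈ A ↔ (n - 1) • g = 0 := by
    intro g
    rw [hA, mem_eqSub, one_smul]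
    conv_lhs => rw [show n = n - 1 + 1 by omega]
    rw [add_smul, one_smul]
    simp
  -- an element of two-power order outside `N`
  obtain ⟨x, hxN, s, hxs⟩ : ∃ x : G, x ∉ N ∧ ∃ s : ℕ, (2 ^ s : ℕ) • x = 0 := by
    have hn2 : n ^ 2 - 1 ≠ 0 := by
      have : 7 ^ 2 ≤ n ^ 2 := Nat.pow_le_pow_left hn 2
      omega
    obtain ⟨s, m, hm, hsm⟩ := Nat.exists_eq_two_pow_mul_odd hn2
    by_cases hall : ∀ g : G, m • g ∈ N
    · exfalso
      have h1 : 2 ∣ Nat.card (G ⧸ N) := by
        have : Nat.card (G ⧸ N) = n + 1 := h.index_eq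
        rw [this]
        omega
      obtain ⟨y, hy⟩ := exists_prime_addOrderOf_dvd_card' 2 h1
      obtain ⟨g, rfl⟩ := QuotientAddGroup.mk_surjective y
      have h2 : m • (QuotientAddGroup.mk g : G ⧸ N) = 0 := by
        rw [← mk_nsmul]
        exact (QuotientAddGroup.eq_zero_iff _).mpr (hall g)
      have h3 := addOrderOf_dvd_of_nsmul_eq_zero h2
      rw [hy] at h3
      exact (Nat.not_even_iff_odd.mpr hm) (even_iff_two_dvd.mpr h3)
    · push Not at hall
      obtain ⟨g, hg⟩ := hall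
      refine ⟨m • g, hg, s, ?_⟩
      rw [← mul_smul, ← hsm]
      exact card_nsmul h g
  have hxA : x ∈ A := by
    rw [hmemA]
    have h1 : addOrderOf x ∣ 2 ^ s := addOrderOf_dvd_of_nsmul_eq_zero hxs
    obtain ⟨j, hj, hj2⟩ := (Nat.dvd_prime_pow Nat.prime_two).mp h1
    have h2 : 2 ^ j ∣ AddMonoid.exponent G := by
      rw [← hj2]; exact AddMonoid.addOrder_dvd_exponent x
    have h3 : j < v := by
      by_contra hc
      exact hcon ((pow_dvd_pow 2 (by omega)).trans h2)
    -- the power of two dividing `n - 1`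
    have h4 : 2 ^ (v - 1) ∣ n - 1 := by
      rw [sq_sub_one n (by omega)] at hv
      obtain ⟨k, hk⟩ : ∃ k, n + 1 = 2 * (2 * k + 1) := ⟨(n + 1) / 4, by omega⟩
      rw [hk] at hv
      have h5 : 2 ^ v = 2 * 2 ^ (v - 1) := by
        rw [← pow_succ', show v - 1 + 1 = v by omega]
      rw [h5, show (n - 1) * (2 * (2 * k + 1)) = 2 * ((n - 1) * (2 * k + 1)) by ring] at hv
      have h6 := Nat.dvd_of_mul_dvd_mul_left (by norm_num) hv
      have h7 : Nat.Coprime (2 ^ (v - 1)) (2 * k + 1) :=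
        Nat.Coprime.pow_left _ (by simp)
      exact h7.dvd_of_dvd_mul_right h6
    have h5 : addOrderOf x ∣ n - 1 := by
      rw [hj2]
      exact (pow_dvd_pow 2 (by omega)).trans h4
    exact addOrderOf_dvd_iff_nsmul_eq_zero.mp h5
  have hNA : N ≤ A := by
    intro g hg
    rw [hmemA]
    have h6 : Nat.card N • (⟨g, hg⟩ : N) = 0 := card_nsmul_eq_zero'
    rw [h.card_sub] at h6
    have := congrArg (fun x : N => (x : G)) h6
    simpa using this
  have hcard : 2 * (n - 1) ≤ Nat.card A := by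
    obtain ⟨c, hc⟩ := AddSubgroup.card_dvd_of_le hNA
    rw [h.card_sub] at hc
    have hpos : 0 < Nat.card A := Nat.card_pos
    have h1 : c ≠ 0 := by
      rintro rfl
      omega
    have h2 : c ≠ 1 := by
      rintro rfl
      have h3 : Nat.card N = Nat.card A := by rw [h.card_sub, hc, mul_one]
      have h4 : N = A := AddSubgroup.eq_of_le_of_card_ge hNA h3.ge
      exact hxN (h4 ▸ hxA)
    rw [hc, mul_comm]
    exact Nat.mul_le_mul_left _ (by omega)
  -- the range of multiplication by `n - 1`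
  let φ : G →+ G := nsmulAddMonoidHom (n - 1)
  have hker : φ.ker = A := by
    ext y
    rw [AddMonoidHom.mem_ker, hmemA]
    exact Iff.rfl
  have h4 : Nat.card φ.ker * Nat.card φ.range = Nat.card G := by
    rw [← AddSubgroup.index_ker, AddSubgroup.card_mul_index]
  rw [hker, h.card_group, sq_sub_one n (by omega)] at h4
  have h5 : 2 * Nat.card φ.range ≤ n + 1 := by
    have h6 : 2 * (n - 1) * Nat.card φ.range ≤ (n - 1) * (n + 1) := by
      rw [← h4]; exact Nat.mul_le_mul_right _ hcard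
    have h7 : (n - 1) * (2 * Nat.card φ.range) ≤ (n - 1) * (n + 1) := by
      calc (n - 1) * (2 * Nat.card φ.range) = 2 * (n - 1) * Nat.card φ.range := by ring
        _ ≤ _ := h6
    exact Nat.le_of_mul_le_mul_left h7 (by omega)
  have h6 : (D'.filter (fun d => d ∉ A)).card + 1 ≤ Nat.card φ.range := by
    have h7 : insert (0 : G) ((D'.filter (fun d => d ∉ A)).image (fun d => (n - 1) • d)) ⊆
        univ.filter (fun g => g ∈ φ.range) := by
      intro g hg
      rw [mem_insert, mem_image] at hg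
      rw [mem_filter]
      refine ⟨mem_univ _, ?_⟩
      rcases hg with rfl | ⟨d, hd, rfl⟩
      · exact φ.range.zero_mem
      · exact ⟨d, rfl⟩
    have h8 := Finset.card_le_card h7
    have h9 : (univ.filter (fun g => g ∈ φ.range)).card = Nat.card φ.range := by
      rw [Nat.card_eq_fintype_card, Fintype.card_subtype]
    rw [h9, card_insert_of_notMem, card_image_of_injOn] at h8
    · exact h8
    · intro a ha b hb hab
      rw [mem_coe, mem_filter] at ha hb
      simp only at hab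
      have key : ∀ g : G, n • g - g = (n - 1) • g := by
        intro g
        conv_lhs => rw [show n = n - 1 + 1 by omega]
        rw [add_smul, one_smul, add_sub_cancel_right]
      rw [← key, ← key] at hab
      refine (hD.uniq (hf n hAn a ha.1) ha.1 (hf n hAn b hb.1) hb.1 (fun hc => ?_) hab).2
      have h10 := hD.eq_of_sub_mem (hf n hAn a ha.1) ha.1 hc
      apply ha.2
      rw [hmemA, ← key, h10, sub_self]
    · intro hc
      rw [mem_image] at hc
      obtain ⟨d, hd, hd0⟩ := hc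
      rw [mem_filter] at hd
      exact hd.2 ((hmemA d).mpr hd0)
  have h7 := Finset.card_filter_add_card_filter_not (s := D') (fun d => d ∈ A)
  rw [hD.card_set] at h7
  have h8' : n ≤ 2 * (D'.filter (fun d => d ∈ A)).card := by omega
  have h8 : A = ⊤ := eqSub_eq_top hD hf hn hAn hA1 h8'
  have h9 := modEq_of_eqSub_eq_top h8
  have h10 : AddMonoid.exponent G ∣ n - 1 := (Nat.modEq_iff_dvd' (by omega)).mp h9.symm
  obtain ⟨k, hk⟩ : ∃ k, n + 1 = 2 * (2 * k + 1) := ⟨(n + 1) / 4, by omega⟩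
  obtain ⟨r, hr, hrd⟩ := Nat.exists_prime_and_dvd (show 2 * k + 1 ≠ 1 by omega)
  have h11 : r ∣ n + 1 := by rw [hk]; exact hrd.mul_left _
  have h12 : r ∣ n - 1 := (prime_dvd_exponent h hr (by
    rw [sq_sub_one n (by omega)]; exact h11.mul_left _)).trans h10
  have h13 := (Nat.prime_dvd_prime_iff_eq hr Nat.prime_two).mp (two_of_both (by omega) h12 h11)
  rw [h13] at hrd
  omega

/-- **The Sylow two-subgroup for odd orders.** -/
theorem sylow (h : IsADS n N D) (hn : 7 ≤ n) (hodd : n % 2 = 1) {v : ℕ}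
    (hv : 2 ^ v ∣ n ^ 2 - 1) : 2 ^ v ∣ AddMonoid.exponent G := by
  have h1 : n % 4 = 1 ∨ n % 4 = 3 := by omega
  rcases h1 with h1 | h1
  · exact sylow_one h hn h1 hv
  · exact sylow_three h h1 hv

theorem eight_dvd (h : IsADS n N D) (hn : 7 ≤ n) (hodd : n % 2 = 1) :
    8 ∣ AddMonoid.exponent G := by
  have h1 : 2 ^ 3 ∣ n ^ 2 - 1 := by
    obtain ⟨k, rfl⟩ : ∃ k, n = 2 * k + 1 := ⟨n / 2, by omega⟩
    have h2 : (2 * k + 1) ^ 2 - 1 = 4 * (k * (k + 1)) := by
      have : (2 * k + 1) ^ 2 = 4 * (k * (k + 1)) + 1 := by ring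
      omega
    rw [h2]
    obtain ⟨c, hc⟩ := even_iff_two_dvd.mp (Nat.even_mul_succ_self k)
    exact ⟨c, by rw [hc]; ring⟩
  exact sylow h hn hodd h1

/-- If the exponent has one odd prime divisor, the order is small. -/
theorem odd_bound (h : IsADS n N D) (hn : 7 ≤ n) (hodd : n % 2 = 1) {V w u : ℕ}
    (hw : w.Prime) (hw2 : w ≠ 2) (he : AddMonoid.exponent G ∣ 2 ^ V * w ^ u) :
    2 * n ≤ 2 ^ V + 2 := by
  have hprime : ∀ q : ℕ, q.Prime → q ∣ (n - 1) * (n + 1) → q = 2 ∨ q = w := by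
    intro q hq hqd
    have h1 := (prime_dvd_exponent h hq (by rw [sq_sub_one n (by omega)]; exact hqd)).trans he
    rcases (Nat.Prime.dvd_mul hq).mp h1 with h2 | h2
    · left; exact (Nat.prime_dvd_prime_iff_eq hq Nat.prime_two).mp (hq.dvd_of_dvd_pow h2)
    · right; exact (Nat.prime_dvd_prime_iff_eq hq hw).mp (hq.dvd_of_dvd_pow h2)
  have hpow : ∀ i : ℕ, 2 ^ i ∣ (n - 1) * (n + 1) → i ≤ V := by
    intro i hi
    rw [← sq_sub_one n (by omega)] at hi
    have h1 := (sylow h hn hodd hi).trans he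
    have h2 : Nat.Coprime (2 ^ i) (w ^ u) :=
      Nat.Coprime.pow _ _ ((Nat.coprime_primes Nat.prime_two hw).mpr (Ne.symm hw2))
    exact (Nat.pow_dvd_pow_iff_le_right (by norm_num)).mp (h2.dvd_of_dvd_mul_right h1)
  have hnw : ¬ (w ∣ n - 1 ∧ w ∣ n + 1) := by
    rintro ⟨h1, h2⟩
    exact hw2 ((Nat.prime_dvd_prime_iff_eq hw Nat.prime_two).mp (two_of_both (by omega) h1 h2))
  have h1 : n % 4 = 1 ∨ n % 4 = 3 := by omega
  rcases h1 with h1 | h1
  · obtain ⟨k, hk⟩ : ∃ k, n + 1 = 2 * (2 * k + 1) := ⟨(n + 1) / 4, by omega⟩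
    obtain ⟨r, hr, hrd⟩ := Nat.exists_prime_and_dvd (show 2 * k + 1 ≠ 1 by omega)
    have h2 : r ∣ n + 1 := by rw [hk]; exact hrd.mul_left _
    have h3 : r = w := by
      rcases hprime r hr (h2.mul_left _) with h4 | h4
      · rw [h4] at hrd; omega
      · exact h4
    rw [h3] at h2
    have h4 : ∀ {q : ℕ}, q.Prime → q ∣ n - 1 → q = 2 := by
      intro q hq hqd
      rcases hprime q hq (hqd.mul_right _) with h5 | h5
      · exact h5
      · exact absurd ⟨h5 ▸ hqd, h2⟩ hnw
    have h5 := Nat.eq_prime_pow_of_unique_prime_dvd (n := n - 1) (by omega) h4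
    set i := (n - 1).primeFactorsList.length with hi
    have h6 : i + 1 ≤ V := by
      apply hpow
      rw [pow_succ]
      apply Nat.mul_dvd_mul
      · exact ⟨1, by rw [mul_one]; exact h5⟩
      · omega
    have h7 : 2 ^ (i + 1) ≤ 2 ^ V := Nat.pow_le_pow_right (by norm_num) h6
    rw [pow_succ] at h7
    omega
  · obtain ⟨k, hk⟩ : ∃ k, n - 1 = 2 * (2 * k + 1) := ⟨(n - 1) / 4, by omega⟩
    obtain ⟨r, hr, hrd⟩ := Nat.exists_prime_and_dvd (show 2 * k + 1 ≠ 1 by omega)
    have h2 : r ∣ n - 1 := by rw [hk]; exact hrd.mul_left _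
    have h3 : r = w := by
      rcases hprime r hr (h2.mul_right _) with h4 | h4
      · rw [h4] at hrd; omega
      · exact h4
    rw [h3] at h2
    have h4 : ∀ {q : ℕ}, q.Prime → q ∣ n + 1 → q = 2 := by
      intro q hq hqd
      rcases hprime q hq (hqd.mul_left _) with h5 | h5
      · exact h5
      · exact absurd ⟨h2, h5 ▸ hqd⟩ hnw
    have h5 := Nat.eq_prime_pow_of_unique_prime_dvd (n := n + 1) (by omega) h4
    set i := (n + 1).primeFactorsList.length with hi
    have h6 : i + 1 ≤ V := by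
      apply hpow
      rw [pow_succ', ]
      apply Nat.mul_dvd_mul
      · omega
      · exact ⟨1, by rw [mul_one]; exact h5⟩
    have h7 : 2 ^ (i + 1) ≤ 2 ^ V := Nat.pow_le_pow_right (by norm_num) h6
    rw [pow_succ] at h7
    omega

end Pool.Agent.H99.ADS
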