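import Pool.Agent.H99.ADS.Crit

/-!
# Instances of the criterion for excluded pairs
-/

set_option autoImplicit false

namespace Pool.Agent.H99.ADS

theorem even_3 : ExclEven 3 :=
  ⟨3, 2, 2, 1, ⟨0, 1, by norm_num⟩, ⟨1, 0, by norm_num⟩, ⟨1, 0, by norm_num⟩, ⟨0, 0, by norm_num⟩, by norm_num, by norm_num, by norm_num,
    Or.inl (by norm_num),
    Or.inl (by norm_num)⟩

theorem even_5 : ExclEven 5 :=
  ⟨5, 2, 4, 1, ⟨0, 1, by norm_num⟩, ⟨1, 0, by norm_num⟩, ⟨2, 0, by norm_num⟩, ⟨0, 0, by norm_num⟩, by norm_num, by norm_num, by norm_num,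
    Or.inr ⟨2, 0, by norm_num, by norm_num⟩,
    Or.inl (by norm_num)⟩

theorem even_7 : ExclEven 7 :=
  ⟨7, 4, 4, 1, ⟨0, 1, by norm_num⟩, ⟨2, 0, by norm_num⟩, ⟨2, 0, by norm_num⟩, ⟨0, 0, by norm_num⟩, by norm_num, by norm_num, by norm_num,
    Or.inr ⟨2, 0, by norm_num, by norm_num⟩,
    Or.inr ⟨2, 0, by norm_num, by norm_num⟩⟩

theorem even_11 : ExclEven 11 :=
  ⟨11, 4, 8, 1, ⟨0, 1, by norm_num⟩, ⟨2, 0, by norm_num⟩, ⟨3, 0, by norm_num⟩, ⟨0, 0, by norm_num⟩, by norm_num, by norm_num, by norm_num,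
    Or.inl (by norm_num),
    Or.inr ⟨2, 0, by norm_num, by norm_num⟩⟩

theorem even_13 : ExclEven 13 :=
  ⟨16, 4, 13, 1, ⟨4, 0, by norm_num⟩, ⟨2, 0, by norm_num⟩, ⟨0, 1, by norm_num⟩, ⟨0, 0, by norm_num⟩, by norm_num, by norm_num, by norm_num,
    Or.inr ⟨2, 2, by norm_num, by norm_num⟩,
    Or.inr ⟨2, 0, by norm_num, by norm_num⟩⟩

theorem even_17 : ExclEven 17 :=
  ⟨17, 2, 16, 1, ⟨0, 1, by norm_num⟩, ⟨1, 0, by norm_num⟩, ⟨4, 0, by norm_num⟩, ⟨0, 0, by norm_num⟩, by norm_num, by norm_num, by norm_num,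
    Or.inr ⟨4, 0, by norm_num, by norm_num⟩,
    Or.inl (by norm_num)⟩

theorem even_19 : ExclEven 19 :=
  ⟨19, 4, 16, 1, ⟨0, 1, by norm_num⟩, ⟨2, 0, by norm_num⟩, ⟨4, 0, by norm_num⟩, ⟨0, 0, by norm_num⟩, by norm_num, by norm_num, by norm_num,
    Or.inr ⟨4, 0, by norm_num, by norm_num⟩,
    Or.inr ⟨2, 0, by norm_num, by norm_num⟩⟩

theorem even_23 : ExclEven 23 :=
  ⟨23, 8, 16, 1, ⟨0, 1, by norm_num⟩, ⟨3, 0, by norm_num⟩, ⟨4, 0, by norm_num⟩, ⟨0, 0, by norm_num⟩, by norm_num, by norm_num, by norm_num,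
    Or.inr ⟨4, 0, by norm_num, by norm_num⟩,
    Or.inl (by norm_num)⟩

theorem even_29 : ExclEven 29 :=
  ⟨32, 4, 29, 1, ⟨5, 0, by norm_num⟩, ⟨2, 0, by norm_num⟩, ⟨0, 1, by norm_num⟩, ⟨0, 0, by norm_num⟩, by norm_num, by norm_num, by norm_num,
    Or.inl (by norm_num),
    Or.inr ⟨2, 0, by norm_num, by norm_num⟩⟩

theorem even_31 : ExclEven 31 :=
  ⟨31, 16, 16, 1, ⟨0, 1, by norm_num⟩, ⟨4, 0, by norm_num⟩, ⟨4, 0, by norm_num⟩, ⟨0, 0, by norm_num⟩, by norm_num, by norm_num, by norm_num,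
    Or.inr ⟨4, 0, by norm_num, by norm_num⟩,
    Or.inr ⟨4, 0, by norm_num, by norm_num⟩⟩

theorem even_43 : ExclEven 43 :=
  ⟨128, 43, 86, 1, ⟨7, 0, by norm_num⟩, ⟨0, 1, by norm_num⟩, ⟨1, 1, by norm_num⟩, ⟨0, 0, by norm_num⟩, by norm_num, by norm_num, by norm_num,
    Or.inl (by norm_num),
    Or.inr ⟨6, 1, by norm_num, by norm_num⟩⟩

theorem even_67 : ExclEven 67 :=
  ⟨67, 4, 64, 1, ⟨0, 1, by norm_num⟩, ⟨2, 0, by norm_num⟩, ⟨6, 0, by norm_num⟩, ⟨0, 0, by norm_num⟩, by norm_num, by norm_num, by norm_num,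
    Or.inr ⟨6, 0, by norm_num, by norm_num⟩,
    Or.inr ⟨2, 0, by norm_num, by norm_num⟩⟩

theorem even_71 : ExclEven 71 :=
  ⟨71, 8, 64, 1, ⟨0, 1, by norm_num⟩, ⟨3, 0, by norm_num⟩, ⟨6, 0, by norm_num⟩, ⟨0, 0, by norm_num⟩, by norm_num, by norm_num, by norm_num,
    Or.inr ⟨6, 0, by norm_num, by norm_num⟩,
    Or.inl (by norm_num)⟩

theorem even_73 : ExclEven 73 :=
  ⟨584, 73, 512, 1, ⟨3, 1, by norm_num⟩, ⟨0, 1, by norm_num⟩, ⟨9, 0, by norm_num⟩, ⟨0, 0, by norm_num⟩, by norm_num, by norm_num, by norm_num,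
    Or.inl (by norm_num),
    Or.inr ⟨6, 3, by norm_num, by norm_num⟩⟩

theorem even_79 : ExclEven 79 :=
  ⟨79, 16, 64, 1, ⟨0, 1, by norm_num⟩, ⟨4, 0, by norm_num⟩, ⟨6, 0, by norm_num⟩, ⟨0, 0, by norm_num⟩, by norm_num, by norm_num, by norm_num,
    Or.inr ⟨6, 0, by norm_num, by norm_num⟩,
    Or.inr ⟨4, 0, by norm_num, by norm_num⟩⟩

theorem even_97 : ExclEven 97 :=
  ⟨128, 32, 97, 1, ⟨7, 0, by norm_num⟩, ⟨5, 0, by norm_num⟩, ⟨0, 1, by norm_num⟩, ⟨0, 0, by norm_num⟩, by norm_num, by norm_num, by norm_num,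
    Or.inr ⟨2, 5, by norm_num, by norm_num⟩,
    Or.inl (by norm_num)⟩

theorem even_113 : ExclEven 113 :=
  ⟨128, 16, 113, 1, ⟨7, 0, by norm_num⟩, ⟨4, 0, by norm_num⟩, ⟨0, 1, by norm_num⟩, ⟨0, 0, by norm_num⟩, by norm_num, by norm_num, by norm_num,
    Or.inl (by norm_num),
    Or.inr ⟨4, 0, by norm_num, by norm_num⟩⟩

theorem even_127 : ExclEven 127 :=
  ⟨127, 64, 64, 1, ⟨0, 1, by norm_num⟩, ⟨6, 0, by norm_num⟩, ⟨6, 0, by norm_num⟩, ⟨0, 0, by norm_num⟩, by norm_num, by norm_num, by norm_num,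
    Or.inr ⟨6, 0, by norm_num, by norm_num⟩,
    Or.inr ⟨6, 0, by norm_num, by norm_num⟩⟩

theorem even_131 : ExclEven 131 :=
  ⟨131, 4, 128, 1, ⟨0, 1, by norm_num⟩, ⟨2, 0, by norm_num⟩, ⟨7, 0, by norm_num⟩, ⟨0, 0, by norm_num⟩, by norm_num, by norm_num, by norm_num,
    Or.inl (by norm_num),
    Or.inr ⟨2, 0, by norm_num, by norm_num⟩⟩

theorem even_191 : ExclEven 191 :=
  ⟨191, 64, 128, 1, ⟨0, 1, by norm_num⟩, ⟨6, 0, by norm_num⟩, ⟨7, 0, by norm_num⟩, ⟨0, 0, by norm_num⟩, by norm_num, by norm_num, by norm_num,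
    Or.inl (by norm_num),
    Or.inr ⟨6, 0, by norm_num, by norm_num⟩⟩

theorem even_193 : ExclEven 193 :=
  ⟨256, 64, 193, 1, ⟨8, 0, by norm_num⟩, ⟨6, 0, by norm_num⟩, ⟨0, 1, by norm_num⟩, ⟨0, 0, by norm_num⟩, by norm_num, by norm_num, by norm_num,
    Or.inr ⟨2, 6, by norm_num, by norm_num⟩,
    Or.inr ⟨6, 0, by norm_num, by norm_num⟩⟩

theorem even_241 : ExclEven 241 :=
  ⟨256, 16, 241, 1, ⟨8, 0, by norm_num⟩, ⟨4, 0, by norm_num⟩, ⟨0, 1, by norm_num⟩, ⟨0, 0, by norm_num⟩, by norm_num, by norm_num, by norm_num,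
    Or.inr ⟨4, 4, by norm_num, by norm_num⟩,
    Or.inr ⟨4, 0, by norm_num, by norm_num⟩⟩

theorem even_257 : ExclEven 257 :=
  ⟨257, 2, 256, 1, ⟨0, 1, by norm_num⟩, ⟨1, 0, by norm_num⟩, ⟨8, 0, by norm_num⟩, ⟨0, 0, by norm_num⟩, by norm_num, by norm_num, by norm_num,
    Or.inr ⟨8, 0, by norm_num, by norm_num⟩,
    Or.inl (by norm_num)⟩

theorem even_263 : ExclEven 263 :=
  ⟨263, 8, 256, 1, ⟨0, 1, by norm_num⟩, ⟨3, 0, by norm_num⟩, ⟨8, 0, by norm_num⟩, ⟨0, 0, by norm_num⟩, by norm_num, by norm_num, by norm_num,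
    Or.inr ⟨8, 0, by norm_num, by norm_num⟩,
    Or.inl (by norm_num)⟩

theorem even_271 : ExclEven 271 :=
  ⟨271, 16, 256, 1, ⟨0, 1, by norm_num⟩, ⟨4, 0, by norm_num⟩, ⟨8, 0, by norm_num⟩, ⟨0, 0, by norm_num⟩, by norm_num, by norm_num, by norm_num,
    Or.inr ⟨8, 0, by norm_num, by norm_num⟩,
    Or.inr ⟨4, 0, by norm_num, by norm_num⟩⟩

theorem even_383 : ExclEven 383 :=
  ⟨383, 128, 256, 1, ⟨0, 1, by norm_num⟩, ⟨7, 0, by norm_num⟩, ⟨8, 0, by norm_num⟩, ⟨0, 0, by norm_num⟩, by norm_num, by norm_num, by norm_num,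
    Or.inr ⟨8, 0, by norm_num, by norm_num⟩,
    Or.inl (by norm_num)⟩

theorem even_449 : ExclEven 449 :=
  ⟨512, 64, 449, 1, ⟨9, 0, by norm_num⟩, ⟨6, 0, by norm_num⟩, ⟨0, 1, by norm_num⟩, ⟨0, 0, by norm_num⟩, by norm_num, by norm_num, by norm_num,
    Or.inl (by norm_num),
    Or.inr ⟨6, 0, by norm_num, by norm_num⟩⟩

theorem even_509 : ExclEven 509 :=
  ⟨512, 4, 509, 1, ⟨9, 0, by norm_num⟩, ⟨2, 0, by norm_num⟩, ⟨0, 1, by norm_num⟩, ⟨0, 0, by norm_num⟩, by norm_num, by norm_num, by norm_num,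
    Or.inl (by norm_num),
    Or.inr ⟨2, 0, by norm_num, by norm_num⟩⟩

theorem even_769 : ExclEven 769 :=
  ⟨1024, 256, 769, 1, ⟨10, 0, by norm_num⟩, ⟨8, 0, by norm_num⟩, ⟨0, 1, by norm_num⟩, ⟨0, 0, by norm_num⟩, by norm_num, by norm_num, by norm_num,
    Or.inr ⟨2, 8, by norm_num, by norm_num⟩,
    Or.inr ⟨8, 0, by norm_num, by norm_num⟩⟩

theorem even_1009 : ExclEven 1009 :=
  ⟨1024, 16, 1009, 1, ⟨10, 0, by norm_num⟩, ⟨4, 0, by norm_num⟩, ⟨0, 1, by norm_num⟩, ⟨0, 0, by norm_num⟩, by norm_num, by norm_num, by norm_num,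
    Or.inr ⟨6, 4, by norm_num, by norm_num⟩,
    Or.inr ⟨4, 0, by norm_num, by norm_num⟩⟩

theorem even_1021 : ExclEven 1021 :=
  ⟨1024, 4, 1021, 1, ⟨10, 0, by norm_num⟩, ⟨2, 0, by norm_num⟩, ⟨0, 1, by norm_num⟩, ⟨0, 0, by norm_num⟩, by norm_num, by norm_num, by norm_num,
    Or.inr ⟨8, 2, by norm_num, by norm_num⟩,
    Or.inr ⟨2, 0, by norm_num, by norm_num⟩⟩

theorem even_2017 : ExclEven 2017 :=
  ⟨2048, 32, 2017, 1, ⟨11, 0, by norm_num⟩, ⟨5, 0, by norm_num⟩, ⟨0, 1, by norm_num⟩, ⟨0, 0, by norm_num⟩, by norm_num, by norm_num, by norm_num,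
    Or.inr ⟨6, 5, by norm_num, by norm_num⟩,
    Or.inl (by norm_num)⟩

theorem even_2063 : ExclEven 2063 :=
  ⟨2063, 16, 2048, 1, ⟨0, 1, by norm_num⟩, ⟨4, 0, by norm_num⟩, ⟨11, 0, by norm_num⟩, ⟨0, 0, by norm_num⟩, by norm_num, by norm_num, by norm_num,
    Or.inl (by norm_num),
    Or.inr ⟨4, 0, by norm_num, by norm_num⟩⟩

theorem even_2111 : ExclEven 2111 :=
  ⟨2111, 64, 2048, 1, ⟨0, 1, by norm_num⟩, ⟨6, 0, by norm_num⟩, ⟨11, 0, by norm_num⟩, ⟨0, 0, by norm_num⟩, by norm_num, by norm_num, by norm_num,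
    Or.inl (by norm_num),
    Or.inr ⟨6, 0, by norm_num, by norm_num⟩⟩

theorem odd_3_41 : ExclOdd 3 41 :=
  ⟨81, 41, 41, 1, ⟨4, 0, by norm_num⟩, ⟨0, 1, by norm_num⟩, ⟨0, 1, by norm_num⟩, ⟨0, 0, by norm_num⟩, by norm_num, by norm_num, by norm_num,
    Or.inr ⟨3, 5, 1, 0, by norm_num, by norm_num, by norm_num, by norm_num⟩,
    Or.inr ⟨3, 5, 1, 0, by norm_num, by norm_num, by norm_num, by norm_num⟩⟩

theorem odd_3_53 : ExclOdd 3 53 :=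
  ⟨53, 27, 27, 1, ⟨0, 1, by norm_num⟩, ⟨3, 0, by norm_num⟩, ⟨3, 0, by norm_num⟩, ⟨0, 0, by norm_num⟩, by norm_num, by norm_num, by norm_num,
    Or.inl (by norm_num),
    Or.inl (by norm_num)⟩

theorem odd_3_61 : ExclOdd 3 61 :=
  ⟨243, 61, 183, 1, ⟨5, 0, by norm_num⟩, ⟨0, 1, by norm_num⟩, ⟨1, 1, by norm_num⟩, ⟨0, 0, by norm_num⟩, by norm_num, by norm_num, by norm_num,
    Or.inl (by norm_num),
    Or.inl (by norm_num)⟩

theorem odd_3_73 : ExclOdd 3 73 :=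
  ⟨81, 9, 73, 1, ⟨4, 0, by norm_num⟩, ⟨2, 0, by norm_num⟩, ⟨0, 1, by norm_num⟩, ⟨0, 0, by norm_num⟩, by norm_num, by norm_num, by norm_num,
    Or.inr ⟨3, 3, 0, 2, by norm_num, by norm_num, by norm_num, by norm_num⟩,
    Or.inr ⟨3, 3, 0, 0, by norm_num, by norm_num, by norm_num, by norm_num⟩⟩

theorem odd_3_79 : ExclOdd 3 79 :=
  ⟨81, 3, 79, 1, ⟨4, 0, by norm_num⟩, ⟨1, 0, by norm_num⟩, ⟨0, 1, by norm_num⟩, ⟨0, 0, by norm_num⟩, by norm_num, by norm_num, by norm_num,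
    Or.inl (by norm_num),
    Or.inl (by norm_num)⟩

theorem odd_3_83 : ExclOdd 3 83 :=
  ⟨83, 3, 81, 1, ⟨0, 1, by norm_num⟩, ⟨1, 0, by norm_num⟩, ⟨4, 0, by norm_num⟩, ⟨0, 0, by norm_num⟩, by norm_num, by norm_num, by norm_num,
    Or.inr ⟨4, 5, 1, 0, by norm_num, by norm_num, by norm_num, by norm_num⟩,
    Or.inl (by norm_num)⟩

theorem odd_3_89 : ExclOdd 3 89 :=
  ⟨89, 9, 81, 1, ⟨0, 1, by norm_num⟩, ⟨2, 0, by norm_num⟩, ⟨4, 0, by norm_num⟩, ⟨0, 0, by norm_num⟩, by norm_num, by norm_num, by norm_num,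
    Or.inr ⟨4, 5, 1, 0, by norm_num, by norm_num, by norm_num, by norm_num⟩,
    Or.inr ⟨3, 3, 0, 0, by norm_num, by norm_num, by norm_num, by norm_num⟩⟩

theorem odd_3_107 : ExclOdd 3 107 :=
  ⟨107, 27, 81, 1, ⟨0, 1, by norm_num⟩, ⟨3, 0, by norm_num⟩, ⟨4, 0, by norm_num⟩, ⟨0, 0, by norm_num⟩, by norm_num, by norm_num, by norm_num,
    Or.inr ⟨4, 5, 1, 0, by norm_num, by norm_num, by norm_num, by norm_num⟩,
    Or.inl (by norm_num)⟩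

theorem odd_3_163 : ExclOdd 3 163 :=
  ⟨243, 81, 163, 1, ⟨5, 0, by norm_num⟩, ⟨4, 0, by norm_num⟩, ⟨0, 1, by norm_num⟩, ⟨0, 0, by norm_num⟩, by norm_num, by norm_num, by norm_num,
    Or.inl (by norm_num),
    Or.inr ⟨4, 5, 1, 0, by norm_num, by norm_num, by norm_num, by norm_num⟩⟩

theorem odd_3_241 : ExclOdd 3 241 :=
  ⟨243, 3, 241, 1, ⟨5, 0, by norm_num⟩, ⟨1, 0, by norm_num⟩, ⟨0, 1, by norm_num⟩, ⟨0, 0, by norm_num⟩, by norm_num, by norm_num, by norm_num,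
    Or.inr ⟨4, 5, 1, 1, by norm_num, by norm_num, by norm_num, by norm_num⟩,
    Or.inl (by norm_num)⟩

theorem odd_3_251 : ExclOdd 3 251 :=
  ⟨251, 9, 243, 1, ⟨0, 1, by norm_num⟩, ⟨2, 0, by norm_num⟩, ⟨5, 0, by norm_num⟩, ⟨0, 0, by norm_num⟩, by norm_num, by norm_num, by norm_num,
    Or.inl (by norm_num),
    Or.inr ⟨3, 3, 0, 0, by norm_num, by norm_num, by norm_num, by norm_num⟩⟩

theorem odd_3_269 : ExclOdd 3 269 :=
  ⟨269, 27, 243, 1, ⟨0, 1, by norm_num⟩, ⟨3, 0, by norm_num⟩, ⟨5, 0, by norm_num⟩, ⟨0, 0, by norm_num⟩, by norm_num, by norm_num, by norm_num,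
    Or.inl (by norm_num),
    Or.inl (by norm_num)⟩

theorem odd_3_487 : ExclOdd 3 487 :=
  ⟨729, 243, 487, 1, ⟨6, 0, by norm_num⟩, ⟨5, 0, by norm_num⟩, ⟨0, 1, by norm_num⟩, ⟨0, 0, by norm_num⟩, by norm_num, by norm_num, by norm_num,
    Or.inl (by norm_num),
    Or.inl (by norm_num)⟩

theorem odd_3_727 : ExclOdd 3 727 :=
  ⟨729, 3, 727, 1, ⟨6, 0, by norm_num⟩, ⟨1, 0, by norm_num⟩, ⟨0, 1, by norm_num⟩, ⟨0, 0, by norm_num⟩, by norm_num, by norm_num, by norm_num,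
    Or.inl (by norm_num),
    Or.inl (by norm_num)⟩

theorem odd_3_757 : ExclOdd 3 757 :=
  ⟨20439, 757, 19683, 1, ⟨3, 1, by norm_num⟩, ⟨0, 1, by norm_num⟩, ⟨9, 0, by norm_num⟩, ⟨0, 0, by norm_num⟩, by norm_num, by norm_num, by norm_num,
    Or.inl (by norm_num),
    Or.inl (by norm_num)⟩

theorem odd_3_1093 : ExclOdd 3 1093 :=
  ⟨3279, 1093, 2187, 1, ⟨1, 1, by norm_num⟩, ⟨0, 1, by norm_num⟩, ⟨7, 0, by norm_num⟩, ⟨0, 0, by norm_num⟩, by norm_num, by norm_num, by norm_num,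
    Or.inl (by norm_num),
    Or.inl (by norm_num)⟩

theorem odd_5_7 : ExclOdd 5 7 :=
  ⟨49, 25, 25, 1, ⟨0, 2, by norm_num⟩, ⟨2, 0, by norm_num⟩, ⟨2, 0, by norm_num⟩, ⟨0, 0, by norm_num⟩, by norm_num, by norm_num, by norm_num,
    Or.inr ⟨3, 3, 1, 0, by norm_num, by norm_num, by norm_num, by norm_num⟩,
    Or.inr ⟨3, 3, 1, 0, by norm_num, by norm_num, by norm_num, by norm_num⟩⟩

theorem odd_5_31 : ExclOdd 5 31 :=
  ⟨155, 31, 125, 1, ⟨1, 1, by norm_num⟩, ⟨0, 1, by norm_num⟩, ⟨3, 0, by norm_num⟩, ⟨0, 0, by norm_num⟩, by norm_num, by norm_num, by norm_num,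
    Or.inl (by norm_num),
    Or.inl (by norm_num)⟩

theorem odd_5_101 : ExclOdd 5 101 :=
  ⟨125, 25, 101, 1, ⟨3, 0, by norm_num⟩, ⟨2, 0, by norm_num⟩, ⟨0, 1, by norm_num⟩, ⟨0, 0, by norm_num⟩, by norm_num, by norm_num, by norm_num,
    Or.inl (by norm_num),
    Or.inr ⟨3, 3, 1, 0, by norm_num, by norm_num, by norm_num, by norm_num⟩⟩

theorem odd_5_149 : ExclOdd 5 149 :=
  ⟨149, 25, 125, 1, ⟨0, 1, by norm_num⟩, ⟨2, 0, by norm_num⟩, ⟨3, 0, by norm_num⟩, ⟨0, 0, by norm_num⟩, by norm_num, by norm_num, by norm_num,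
    Or.inl (by norm_num),
    Or.inr ⟨3, 3, 1, 0, by norm_num, by norm_num, by norm_num, by norm_num⟩⟩

theorem odd_5_521 : ExclOdd 5 521 :=
  ⟨3125, 521, 2605, 1, ⟨5, 0, by norm_num⟩, ⟨0, 1, by norm_num⟩, ⟨1, 1, by norm_num⟩, ⟨0, 0, by norm_num⟩, by norm_num, by norm_num, by norm_num,
    Or.inl (by norm_num),
    Or.inr ⟨3, 13, 1, 1, by norm_num, by norm_num, by norm_num, by norm_num⟩⟩

theorem odd_5_601 : ExclOdd 5 601 :=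
  ⟨625, 25, 601, 1, ⟨4, 0, by norm_num⟩, ⟨2, 0, by norm_num⟩, ⟨0, 1, by norm_num⟩, ⟨0, 0, by norm_num⟩, by norm_num, by norm_num, by norm_num,
    Or.inr ⟨3, 3, 1, 2, by norm_num, by norm_num, by norm_num, by norm_num⟩,
    Or.inr ⟨3, 3, 1, 0, by norm_num, by norm_num, by norm_num, by norm_num⟩⟩

theorem odd_7_13 : ExclOdd 7 13 :=
  ⟨13, 7, 7, 1, ⟨0, 1, by norm_num⟩, ⟨1, 0, by norm_num⟩, ⟨1, 0, by norm_num⟩, ⟨0, 0, by norm_num⟩, by norm_num, by norm_num, by norm_num,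
    Or.inl (by norm_num),
    Or.inl (by norm_num)⟩

theorem odd_7_19 : ExclOdd 7 19 :=
  ⟨361, 19, 343, 1, ⟨0, 2, by norm_num⟩, ⟨0, 1, by norm_num⟩, ⟨3, 0, by norm_num⟩, ⟨0, 0, by norm_num⟩, by norm_num, by norm_num, by norm_num,
    Or.inl (by norm_num),
    Or.inl (by norm_num)⟩

theorem odd_7_43 : ExclOdd 7 43 :=
  ⟨49, 7, 43, 1, ⟨2, 0, by norm_num⟩, ⟨1, 0, by norm_num⟩, ⟨0, 1, by norm_num⟩, ⟨0, 0, by norm_num⟩, by norm_num, by norm_num, by norm_num,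
    Or.inl (by norm_num),
    Or.inl (by norm_num)⟩

theorem odd_7_97 : ExclOdd 7 97 :=
  ⟨97, 49, 49, 1, ⟨0, 1, by norm_num⟩, ⟨2, 0, by norm_num⟩, ⟨2, 0, by norm_num⟩, ⟨0, 0, by norm_num⟩, by norm_num, by norm_num, by norm_num,
    Or.inr ⟨4, 3, 1, 0, by norm_num, by norm_num, by norm_num, by norm_num⟩,
    Or.inr ⟨4, 3, 1, 0, by norm_num, by norm_num, by norm_num, by norm_num⟩⟩

theorem odd_7_337 : ExclOdd 7 337 :=
  ⟨343, 7, 337, 1, ⟨3, 0, by norm_num⟩, ⟨1, 0, by norm_num⟩, ⟨0, 1, by norm_num⟩, ⟨0, 0, by norm_num⟩, by norm_num, by norm_num, by norm_num,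
    Or.inr ⟨4, 3, 1, 1, by norm_num, by norm_num, by norm_num, by norm_num⟩,
    Or.inl (by norm_num)⟩

theorem odd_7_349 : ExclOdd 7 349 :=
  ⟨349, 7, 343, 1, ⟨0, 1, by norm_num⟩, ⟨1, 0, by norm_num⟩, ⟨3, 0, by norm_num⟩, ⟨0, 0, by norm_num⟩, by norm_num, by norm_num, by norm_num,
    Or.inl (by norm_num),
    Or.inl (by norm_num)⟩

theorem odd_11_61 : ExclOdd 11 61 :=
  ⟨121, 61, 61, 1, ⟨2, 0, by norm_num⟩, ⟨0, 1, by norm_num⟩, ⟨0, 1, by norm_num⟩, ⟨0, 0, by norm_num⟩, by norm_num, by norm_num, by norm_num,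
    Or.inl (by norm_num),
    Or.inl (by norm_num)⟩

theorem odd_13_47 : ExclOdd 13 47 :=
  ⟨2209, 13, 2197, 1, ⟨0, 2, by norm_num⟩, ⟨1, 0, by norm_num⟩, ⟨3, 0, by norm_num⟩, ⟨0, 0, by norm_num⟩, by norm_num, by norm_num, by norm_num,
    Or.inl (by norm_num),
    Or.inl (by norm_num)⟩

theorem odd_13_157 : ExclOdd 13 157 :=
  ⟨169, 13, 157, 1, ⟨2, 0, by norm_num⟩, ⟨1, 0, by norm_num⟩, ⟨0, 1, by norm_num⟩, ⟨0, 0, by norm_num⟩, by norm_num, by norm_num, by norm_num,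
    Or.inl (by norm_num),
    Or.inl (by norm_num)⟩

theorem odd_17_307 : ExclOdd 17 307 :=
  ⟨5219, 307, 4913, 1, ⟨1, 1, by norm_num⟩, ⟨0, 1, by norm_num⟩, ⟨3, 0, by norm_num⟩, ⟨0, 0, by norm_num⟩, by norm_num, by norm_num, by norm_num,
    Or.inr ⟨4, 3, 0, 1, by norm_num, by norm_num, by norm_num, by norm_num⟩,
    Or.inl (by norm_num)⟩

theorem odd_17_577 : ExclOdd 17 577 :=
  ⟨577, 289, 289, 1, ⟨0, 1, by norm_num⟩, ⟨2, 0, by norm_num⟩, ⟨2, 0, by norm_num⟩, ⟨0, 0, by norm_num⟩, by norm_num, by norm_num, by norm_num,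
    Or.inr ⟨5, 3, 2, 0, by norm_num, by norm_num, by norm_num, by norm_num⟩,
    Or.inr ⟨5, 3, 2, 0, by norm_num, by norm_num, by norm_num, by norm_num⟩⟩

theorem odd_19_37 : ExclOdd 19 37 :=
  ⟨37, 19, 19, 1, ⟨0, 1, by norm_num⟩, ⟨1, 0, by norm_num⟩, ⟨1, 0, by norm_num⟩, ⟨0, 0, by norm_num⟩, by norm_num, by norm_num, by norm_num,
    Or.inl (by norm_num),
    Or.inl (by norm_num)⟩

theorem odd_19_181 : ExclOdd 19 181 :=
  ⟨361, 181, 181, 1, ⟨2, 0, by norm_num⟩, ⟨0, 1, by norm_num⟩, ⟨0, 1, by norm_num⟩, ⟨0, 0, by norm_num⟩, by norm_num, by norm_num, by norm_num,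
    Or.inl (by norm_num),
    Or.inl (by norm_num)⟩

theorem odd_29_421 : ExclOdd 29 421 :=
  ⟨841, 421, 421, 1, ⟨2, 0, by norm_num⟩, ⟨0, 1, by norm_num⟩, ⟨0, 1, by norm_num⟩, ⟨0, 0, by norm_num⟩, by norm_num, by norm_num, by norm_num,
    Or.inl (by norm_num),
    Or.inl (by norm_num)⟩

theorem odd_31_61 : ExclOdd 31 61 :=
  ⟨61, 31, 31, 1, ⟨0, 1, by norm_num⟩, ⟨1, 0, by norm_num⟩, ⟨1, 0, by norm_num⟩, ⟨0, 0, by norm_num⟩, by norm_num, by norm_num, by norm_num,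
    Or.inl (by norm_num),
    Or.inl (by norm_num)⟩

theorem odd_37_73 : ExclOdd 37 73 :=
  ⟨73, 37, 37, 1, ⟨0, 1, by norm_num⟩, ⟨1, 0, by norm_num⟩, ⟨1, 0, by norm_num⟩, ⟨0, 0, by norm_num⟩, by norm_num, by norm_num, by norm_num,
    Or.inl (by norm_num),
    Or.inl (by norm_num)⟩

theorem row_2 : ∀ p ∈ ([23, 43, 67, 71, 73, 79, 97, 113, 127, 131, 191, 193, 241, 257, 263, 271, 383, 449, 509, 769, 1009, 1021, 2017, 2063, 2111] : List ℕ), Nat.Prime 2 ∧ p.Prime ∧ 2 ≠ p ∧ Excluded 2 p :=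
    List.forall_mem_cons.mpr ⟨⟨by norm_num, by norm_num, by norm_num, Or.inl ⟨rfl, even_23⟩⟩,
    List.forall_mem_cons.mpr ⟨⟨by norm_num, by norm_num, by norm_num, Or.inl ⟨rfl, even_43⟩⟩,
    List.forall_mem_cons.mpr ⟨⟨by norm_num, by norm_num, by norm_num, Or.inl ⟨rfl, even_67⟩⟩,
    List.forall_mem_cons.mpr ⟨⟨by norm_num, by norm_num, by norm_num, Or.inl ⟨rfl, even_71⟩⟩,
    List.forall_mem_cons.mpr ⟨⟨by norm_num, by norm_num, by norm_num, Or.inl ⟨rfl, even_73⟩⟩,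
    List.forall_mem_cons.mpr ⟨⟨by norm_num, by norm_num, by norm_num, Or.inl ⟨rfl, even_79⟩⟩,
    List.forall_mem_cons.mpr ⟨⟨by norm_num, by norm_num, by norm_num, Or.inl ⟨rfl, even_97⟩⟩,
    List.forall_mem_cons.mpr ⟨⟨by norm_num, by norm_num, by norm_num, Or.inl ⟨rfl, even_113⟩⟩,
    List.forall_mem_cons.mpr ⟨⟨by norm_num, by norm_num, by norm_num, Or.inl ⟨rfl, even_127⟩⟩,
    List.forall_mem_cons.mpr ⟨⟨by norm_num, by norm_num, by norm_num, Or.inl ⟨rfl, even_131⟩⟩,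
    List.forall_mem_cons.mpr ⟨⟨by norm_num, by norm_num, by norm_num, Or.inl ⟨rfl, even_191⟩⟩,
    List.forall_mem_cons.mpr ⟨⟨by norm_num, by norm_num, by norm_num, Or.inl ⟨rfl, even_193⟩⟩,
    List.forall_mem_cons.mpr ⟨⟨by norm_num, by norm_num, by norm_num, Or.inl ⟨rfl, even_241⟩⟩,
    List.forall_mem_cons.mpr ⟨⟨by norm_num, by norm_num, by norm_num, Or.inl ⟨rfl, even_257⟩⟩,
    List.forall_mem_cons.mpr ⟨⟨by norm_num, by norm_num, by norm_num, Or.inl ⟨rfl, even_263⟩⟩,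
    List.forall_mem_cons.mpr ⟨⟨by norm_num, by norm_num, by norm_num, Or.inl ⟨rfl, even_271⟩⟩,
    List.forall_mem_cons.mpr ⟨⟨by norm_num, by norm_num, by norm_num, Or.inl ⟨rfl, even_383⟩⟩,
    List.forall_mem_cons.mpr ⟨⟨by norm_num, by norm_num, by norm_num, Or.inl ⟨rfl, even_449⟩⟩,
    List.forall_mem_cons.mpr ⟨⟨by norm_num, by norm_num, by norm_num, Or.inl ⟨rfl, even_509⟩⟩,
    List.forall_mem_cons.mpr ⟨⟨by norm_num, by norm_num, by norm_num, Or.inl ⟨rfl, even_769⟩⟩,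
    List.forall_mem_cons.mpr ⟨⟨by norm_num, by norm_num, by norm_num, Or.inl ⟨rfl, even_1009⟩⟩,
    List.forall_mem_cons.mpr ⟨⟨by norm_num, by norm_num, by norm_num, Or.inl ⟨rfl, even_1021⟩⟩,
    List.forall_mem_cons.mpr ⟨⟨by norm_num, by norm_num, by norm_num, Or.inl ⟨rfl, even_2017⟩⟩,
    List.forall_mem_cons.mpr ⟨⟨by norm_num, by norm_num, by norm_num, Or.inl ⟨rfl, even_2063⟩⟩,
    List.forall_mem_cons.mpr ⟨⟨by norm_num, by norm_num, by norm_num, Or.inl ⟨rfl, even_2111⟩⟩,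
    fun _ h => absurd h List.not_mem_nil⟩⟩⟩⟩⟩⟩⟩⟩⟩⟩⟩⟩⟩⟩⟩⟩⟩⟩⟩⟩⟩⟩⟩⟩⟩

theorem row_3 : ∀ p ∈ ([41, 53, 61, 73, 79, 83, 89, 107, 163, 241, 251, 269, 487, 727, 757, 1093] : List ℕ), Nat.Prime 3 ∧ p.Prime ∧ 3 ≠ p ∧ Excluded 3 p :=
    List.forall_mem_cons.mpr ⟨⟨by norm_num, by norm_num, by norm_num, Or.inr ⟨rfl, rfl, odd_3_41, Or.inl even_3⟩⟩,
    List.forall_mem_cons.mpr ⟨⟨by norm_num, by norm_num, by norm_num, Or.inr ⟨rfl, rfl, odd_3_53, Or.inl even_3⟩⟩,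
    List.forall_mem_cons.mpr ⟨⟨by norm_num, by norm_num, by norm_num, Or.inr ⟨rfl, rfl, odd_3_61, Or.inl even_3⟩⟩,
    List.forall_mem_cons.mpr ⟨⟨by norm_num, by norm_num, by norm_num, Or.inr ⟨rfl, rfl, odd_3_73, Or.inl even_3⟩⟩,
    List.forall_mem_cons.mpr ⟨⟨by norm_num, by norm_num, by norm_num, Or.inr ⟨rfl, rfl, odd_3_79, Or.inl even_3⟩⟩,
    List.forall_mem_cons.mpr ⟨⟨by norm_num, by norm_num, by norm_num, Or.inr ⟨rfl, rfl, odd_3_83, Or.inl even_3⟩⟩,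
    List.forall_mem_cons.mpr ⟨⟨by norm_num, by norm_num, by norm_num, Or.inr ⟨rfl, rfl, odd_3_89, Or.inl even_3⟩⟩,
    List.forall_mem_cons.mpr ⟨⟨by norm_num, by norm_num, by norm_num, Or.inr ⟨rfl, rfl, odd_3_107, Or.inl even_3⟩⟩,
    List.forall_mem_cons.mpr ⟨⟨by norm_num, by norm_num, by norm_num, Or.inr ⟨rfl, rfl, odd_3_163, Or.inl even_3⟩⟩,
    List.forall_mem_cons.mpr ⟨⟨by norm_num, by norm_num, by norm_num, Or.inr ⟨rfl, rfl, odd_3_241, Or.inl even_3⟩⟩,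
    List.forall_mem_cons.mpr ⟨⟨by norm_num, by norm_num, by norm_num, Or.inr ⟨rfl, rfl, odd_3_251, Or.inl even_3⟩⟩,
    List.forall_mem_cons.mpr ⟨⟨by norm_num, by norm_num, by norm_num, Or.inr ⟨rfl, rfl, odd_3_269, Or.inl even_3⟩⟩,
    List.forall_mem_cons.mpr ⟨⟨by norm_num, by norm_num, by norm_num, Or.inr ⟨rfl, rfl, odd_3_487, Or.inl even_3⟩⟩,
    List.forall_mem_cons.mpr ⟨⟨by norm_num, by norm_num, by norm_num, Or.inr ⟨rfl, rfl, odd_3_727, Or.inl even_3⟩⟩,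
    List.forall_mem_cons.mpr ⟨⟨by norm_num, by norm_num, by norm_num, Or.inr ⟨rfl, rfl, odd_3_757, Or.inl even_3⟩⟩,
    List.forall_mem_cons.mpr ⟨⟨by norm_num, by norm_num, by norm_num, Or.inr ⟨rfl, rfl, odd_3_1093, Or.inl even_3⟩⟩,
    fun _ h => absurd h List.not_mem_nil⟩⟩⟩⟩⟩⟩⟩⟩⟩⟩⟩⟩⟩⟩⟩⟩

theorem row_5 : ∀ p ∈ ([7, 31, 101, 149, 521, 601] : List ℕ), Nat.Prime 5 ∧ p.Prime ∧ 5 ≠ p ∧ Excluded 5 p :=
    List.forall_mem_cons.mpr ⟨⟨by norm_num, by norm_num, by norm_num, Or.inr ⟨rfl, rfl, odd_5_7, Or.inl even_5⟩⟩,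
    List.forall_mem_cons.mpr ⟨⟨by norm_num, by norm_num, by norm_num, Or.inr ⟨rfl, rfl, odd_5_31, Or.inl even_5⟩⟩,
    List.forall_mem_cons.mpr ⟨⟨by norm_num, by norm_num, by norm_num, Or.inr ⟨rfl, rfl, odd_5_101, Or.inl even_5⟩⟩,
    List.forall_mem_cons.mpr ⟨⟨by norm_num, by norm_num, by norm_num, Or.inr ⟨rfl, rfl, odd_5_149, Or.inl even_5⟩⟩,
    List.forall_mem_cons.mpr ⟨⟨by norm_num, by norm_num, by norm_num, Or.inr ⟨rfl, rfl, odd_5_521, Or.inl even_5⟩⟩,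
    List.forall_mem_cons.mpr ⟨⟨by norm_num, by norm_num, by norm_num, Or.inr ⟨rfl, rfl, odd_5_601, Or.inl even_5⟩⟩,
    fun _ h => absurd h List.not_mem_nil⟩⟩⟩⟩⟩⟩

theorem row_7 : ∀ p ∈ ([13, 19, 43, 97, 337, 349] : List ℕ), Nat.Prime 7 ∧ p.Prime ∧ 7 ≠ p ∧ Excluded 7 p :=
    List.forall_mem_cons.mpr ⟨⟨by norm_num, by norm_num, by norm_num, Or.inr ⟨rfl, rfl, odd_7_13, Or.inl even_7⟩⟩,
    List.forall_mem_cons.mpr ⟨⟨by norm_num, by norm_num, by norm_num, Or.inr ⟨rfl, rfl, odd_7_19, Or.inl even_7⟩⟩,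
    List.forall_mem_cons.mpr ⟨⟨by norm_num, by norm_num, by norm_num, Or.inr ⟨rfl, rfl, odd_7_43, Or.inl even_7⟩⟩,
    List.forall_mem_cons.mpr ⟨⟨by norm_num, by norm_num, by norm_num, Or.inr ⟨rfl, rfl, odd_7_97, Or.inl even_7⟩⟩,
    List.forall_mem_cons.mpr ⟨⟨by norm_num, by norm_num, by norm_num, Or.inr ⟨rfl, rfl, odd_7_337, Or.inl even_7⟩⟩,
    List.forall_mem_cons.mpr ⟨⟨by norm_num, by norm_num, by norm_num, Or.inr ⟨rfl, rfl, odd_7_349, Or.inl even_7⟩⟩,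
    fun _ h => absurd h List.not_mem_nil⟩⟩⟩⟩⟩⟩

theorem row_11 : ∀ p ∈ ([61] : List ℕ), Nat.Prime 11 ∧ p.Prime ∧ 11 ≠ p ∧ Excluded 11 p :=
    List.forall_mem_cons.mpr ⟨⟨by norm_num, by norm_num, by norm_num, Or.inr ⟨rfl, rfl, odd_11_61, Or.inl even_11⟩⟩,
    fun _ h => absurd h List.not_mem_nil⟩

theorem row_13 : ∀ p ∈ ([47, 157] : List ℕ), Nat.Prime 13 ∧ p.Prime ∧ 13 ≠ p ∧ Excluded 13 p :=
    List.forall_mem_cons.mpr ⟨⟨by norm_num, by norm_num, by norm_num, Or.inr ⟨rfl, rfl, odd_13_47, Or.inl even_13⟩⟩,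
    List.forall_mem_cons.mpr ⟨⟨by norm_num, by norm_num, by norm_num, Or.inr ⟨rfl, rfl, odd_13_157, Or.inl even_13⟩⟩,
    fun _ h => absurd h List.not_mem_nil⟩⟩

theorem row_17 : ∀ p ∈ ([307, 577] : List ℕ), Nat.Prime 17 ∧ p.Prime ∧ 17 ≠ p ∧ Excluded 17 p :=
    List.forall_mem_cons.mpr ⟨⟨by norm_num, by norm_num, by norm_num, Or.inr ⟨rfl, rfl, odd_17_307, Or.inl even_17⟩⟩,
    List.forall_mem_cons.mpr ⟨⟨by norm_num, by norm_num, by norm_num, Or.inr ⟨rfl, rfl, odd_17_577, Or.inl even_17⟩⟩,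
    fun _ h => absurd h List.not_mem_nil⟩⟩

theorem row_19 : ∀ p ∈ ([37, 181] : List ℕ), Nat.Prime 19 ∧ p.Prime ∧ 19 ≠ p ∧ Excluded 19 p :=
    List.forall_mem_cons.mpr ⟨⟨by norm_num, by norm_num, by norm_num, Or.inr ⟨rfl, rfl, odd_19_37, Or.inl even_19⟩⟩,
    List.forall_mem_cons.mpr ⟨⟨by norm_num, by norm_num, by norm_num, Or.inr ⟨rfl, rfl, odd_19_181, Or.inl even_19⟩⟩,
    fun _ h => absurd h List.not_mem_nil⟩⟩

theorem row_29 : ∀ p ∈ ([421] : List ℕ), Nat.Prime 29 ∧ p.Prime ∧ 29 ≠ p ∧ Excluded 29 p :=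
    List.forall_mem_cons.mpr ⟨⟨by norm_num, by norm_num, by norm_num, Or.inr ⟨rfl, rfl, odd_29_421, Or.inl even_29⟩⟩,
    fun _ h => absurd h List.not_mem_nil⟩

theorem row_31 : ∀ p ∈ ([61] : List ℕ), Nat.Prime 31 ∧ p.Prime ∧ 31 ≠ p ∧ Excluded 31 p :=
    List.forall_mem_cons.mpr ⟨⟨by norm_num, by norm_num, by norm_num, Or.inr ⟨rfl, rfl, odd_31_61, Or.inl even_31⟩⟩,
    fun _ h => absurd h List.not_mem_nil⟩

theorem row_37 : ∀ p ∈ ([73] : List ℕ), Nat.Prime 37 ∧ p.Prime ∧ 37 ≠ p ∧ Excluded 37 p :=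
    List.forall_mem_cons.mpr ⟨⟨by norm_num, by norm_num, by norm_num, Or.inr ⟨rfl, rfl, odd_37_73, Or.inr even_73⟩⟩,
    fun _ h => absurd h List.not_mem_nil⟩

theorem table_excluded : ∀ r ∈ table, ∀ p ∈ r.2,
    r.1.Prime ∧ p.Prime ∧ r.1 ≠ p ∧ Excluded r.1 p :=
    List.forall_mem_cons.mpr ⟨row_2,
    List.forall_mem_cons.mpr ⟨row_3,
    List.forall_mem_cons.mpr ⟨row_5,
    List.forall_mem_cons.mpr ⟨row_7,
    List.forall_mem_cons.mpr ⟨row_11,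
    List.forall_mem_cons.mpr ⟨row_13,
    List.forall_mem_cons.mpr ⟨row_17,
    List.forall_mem_cons.mpr ⟨row_19,
    List.forall_mem_cons.mpr ⟨row_29,
    List.forall_mem_cons.mpr ⟨row_31,
    List.forall_mem_cons.mpr ⟨row_37,
    fun _ h => absurd h List.not_mem_nil⟩⟩⟩⟩⟩⟩⟩⟩⟩⟩⟩

end Pool.Agent.H99.ADS
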